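import Pool.Agent.Helper495.SB.Path

set_option autoImplicit false

/-!
Running maxima of absolutely continuous paths.
-/

namespace Pool.Agent.Helper495.SB

open Set MeasureTheory Filter Topology intervalIntegral

/-- The path of an integrable function. -/
noncomputable def prim (G : ℝ → ℝ) (t : ℝ) : ℝ := ∫ x in (0:ℝ)..t, G x

theorem prim_zero (G : ℝ → ℝ) : prim G 0 = 0 := by simp [prim]

section

variable {G : ℝ → ℝ} (hG : Integrable G volume)

include hG in
theorem prim_cont : Continuous (prim G) :=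
  intervalIntegral.continuous_primitive (fun _ _ => hG.intervalIntegrable) 0

include hG in
theorem prim_sub (s t : ℝ) : prim G t - prim G s = ∫ x in s..t, G x :=
  integral_interval_sub_left hG.intervalIntegrable hG.intervalIntegrable

include hG in
theorem abs_prim_sub_le {s t : ℝ} (hst : s ≤ t) : |prim G t - prim G s| ≤ ∫ x in s..t, |G x| := by
  rw [prim_sub hG]
  exact abs_integral_le_integral_abs hst

theorem int_mono {q : ℝ → ℝ} (hq : Integrable q volume) (hq0 : ∀ x, 0 ≤ q x) {s r t : ℝ} (_hsr : s ≤ r) (hrt : r ≤ t) :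
    ∫ x in s..r, q x ≤ ∫ x in s..t, q x := by
  rw [← integral_add_adjacent_intervals (a := s) (b := r) (c := t) hq.intervalIntegrable hq.intervalIntegrable]
  have : 0 ≤ ∫ x in r..t, q x := integral_nonneg hrt fun x _ => hq0 x
  linarith

theorem ac_of_incr {f q : ℝ → ℝ} (hq : Integrable q volume)
    (h : ∀ s t, 0 ≤ s → s ≤ t → t ≤ 1 → |f t - f s| ≤ ∫ x in s..t, q x) :
    AbsolutelyContinuousOnInterval f 0 1 := by
  have hQ : AbsolutelyContinuousOnInterval (prim q) 0 1 :=
    hq.intervalIntegrable.absolutelyContinuousOnInterval_intervalIntegral (c := 0) (by simp)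
  rw [absolutelyContinuousOnInterval_iff] at hQ ⊢
  intro ε hε
  obtain ⟨δ, hδ, hd⟩ := hQ ε hε
  refine ⟨δ, hδ, fun E hE hlen => lt_of_le_of_lt ?_ (hd E hE hlen)⟩
  refine Finset.sum_le_sum fun i hi => ?_
  have h1 := hE.1 i hi
  rw [uIcc_of_le zero_le_one] at h1
  obtain ⟨⟨h2, h3⟩, ⟨h4, h5⟩⟩ := h1
  rw [Real.dist_eq, Real.dist_eq]
  rcases le_total (E.2 i).1 (E.2 i).2 with hle | hle
  · rw [abs_sub_comm, abs_sub_comm (prim q _)]
    refine (h _ _ h2 hle h5).trans ?_
    rw [← prim_sub hq]
    exact le_abs_self _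
  · refine (h _ _ h4 hle h3).trans ?_
    rw [← prim_sub hq]
    exact le_abs_self _

include hG in
theorem rm_incr (c : ℝ) {s t : ℝ} (hs : 0 ≤ s) (hst : s ≤ t) (ht : t ≤ 1) :
    rm c (prim G) t - rm c (prim G) s ≤ ∫ x in s..t, |G x| := by
  have hv := prim_cont hG
  have h0 : 0 ≤ ∫ x in s..t, |G x| := integral_nonneg hst fun x _ => abs_nonneg _
  rw [sub_le_iff_le_add]
  refine rm_le (hs.trans hst) ?_ fun r hr hrt => ?_
  · linarith [le_rm_left c (prim G) s]
  · rcases le_total r s with h | h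
    · linarith [le_rm (c := c) hv (hst.trans ht) hr h]
    · have h1 := (abs_le.mp (abs_prim_sub_le hG h)).2
      have h2 := int_mono hG.abs (fun x => abs_nonneg _) h hrt
      have h3 := le_rm (c := c) hv (hst.trans ht) hs (le_refl s)
      linarith

include hG in
theorem rm_ac (c : ℝ) : AbsolutelyContinuousOnInterval (rm c (prim G)) 0 1 := by
  refine ac_of_incr hG.abs fun s t hs hst ht => ?_
  rw [abs_of_nonneg (by linarith [rm_mono (c := c) (prim_cont hG) hs hst ht])]
  exact rm_incr hG c hs hst ht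

end

/-- Derivative comparison: if increments of `L` are controlled by increments of `H`, then
`∫ |L'| ≤ H 1 - H 0`. -/
theorem int_deriv_le {L H : ℝ → ℝ}
    (h : ∀ s t, 0 ≤ s → s ≤ t → t ≤ 1 → |L t - L s| ≤ H t - H s)
    (hL : AbsolutelyContinuousOnInterval L 0 1) :
    ∫ x in (0:ℝ)..1, |deriv L x| ≤ H 1 - H 0 := by
  have hmono : MonotoneOn H (uIcc 0 1) := by
    rw [uIcc_of_le zero_le_one]
    intro a ha b hb hab
    have := (abs_nonneg _).trans (h a b ha.1 hab hb.2)
    linarith
  have hH1 := hmono.intervalIntegral_deriv_mem_uIcc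
  have h10 : 0 ≤ H 1 - H 0 := (abs_nonneg _).trans (h 0 1 le_rfl zero_le_one le_rfl)
  rw [uIcc_of_le h10] at hH1
  refine le_trans ?_ hH1.2
  refine integral_mono_ae_restrict zero_le_one hL.intervalIntegrable_deriv.abs hmono.intervalIntegrable_deriv ?_
  rw [EventuallyLE, ae_restrict_iff' measurableSet_Icc]
  have hne0 : ∀ᵐ x : ℝ, x ≠ 0 := by simp [ae_iff, measure_singleton]
  have hne1 : ∀ᵐ x : ℝ, x ≠ 1 := by simp [ae_iff, measure_singleton]
  filter_upwards [hL.ae_differentiableAt, hmono.ae_differentiableWithinAt_of_mem, hne0, hne1] with x h1 h2 h3 h4 hx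
  have hx' : x ∈ uIcc (0:ℝ) 1 := by rwa [uIcc_of_le zero_le_one]
  have hx0 : 0 < x := lt_of_le_of_ne hx.1 (Ne.symm h3)
  have hx1 : x < 1 := lt_of_le_of_ne hx.2 h4
  have hLd := (h1 hx').hasDerivAt
  have hHd : HasDerivAt H (deriv H x) x := by
    refine DifferentiableAt.hasDerivAt ((h2 hx').differentiableAt ?_)
    rw [uIcc_of_le zero_le_one]
    exact Icc_mem_nhds hx0 hx1
  have t1 := (hasDerivAt_iff_tendsto_slope.mp hLd).abs
  have t2 := hasDerivAt_iff_tendsto_slope.mp hHd
  have hmem : Ioo x 1 ∈ 𝓝[>] x := Ioo_mem_nhdsGT hx1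
  have hle : 𝓝[>] x ≤ 𝓝[≠] x := nhdsWithin_mono _ fun y hy => ne_of_gt hy
  refine le_of_tendsto_of_tendsto (t1.mono_left hle) (t2.mono_left hle) ?_
  filter_upwards [hmem] with y hy
  rw [slope_def_field, slope_def_field, abs_div, abs_of_pos (sub_pos.mpr hy.1)]
  have := h x y hx.1 hy.1.le hy.2.le
  have h5 := sub_pos.mpr hy.1
  gcongr

/-- The Lipschitz estimate for the derivative of the running maximum. -/
theorem int_deriv_rm_sub {G G' : ℝ → ℝ} (hG : Integrable G volume) (hG' : Integrable G' volume) {c c' : ℝ}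
    (hc : 0 ≤ c) (hc' : 0 ≤ c') :
    ∫ x in (0:ℝ)..1, |deriv (rm c (prim G)) x - deriv (rm c' (prim G')) x| ≤
      (∫ x in (0:ℝ)..1, |G x - G' x|) + |c - c'| := by
  have hv := prim_cont hG
  have hv' := prim_cont hG'
  have hd : Integrable (fun x => G x - G' x) volume := hG.sub hG'
  set W : ℝ → ℝ := fun t => ∫ x in (0:ℝ)..t, |G x - G' x| with hW
  have hWs : ∀ s t, W t - W s = ∫ x in s..t, |G x - G' x| := fun s t => prim_sub hd.abs s t
  have hW1 : ∀ s t, 0 ≤ s → s ≤ t → t ≤ 1 → |(prim G t - prim G' t) - (prim G s - prim G' s)| ≤ W t - W s := by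
    intro s t _ hst _
    have h1 : (prim G t - prim G' t) - (prim G s - prim G' s) = ∫ x in s..t, (G x - G' x) := by
      rw [intervalIntegral.integral_sub hG.intervalIntegrable hG'.intervalIntegrable, ← prim_sub hG, ← prim_sub hG']
      ring
    rw [h1, hWs]
    exact abs_integral_le_integral_abs hst
  have hac : AbsolutelyContinuousOnInterval (fun t => rm c (prim G) t - rm c' (prim G') t) 0 1 :=
    (rm_ac hG c).sub (rm_ac hG' c')
  have key := int_deriv_le (L := fun t => rm c (prim G) t - rm c' (prim G') t)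
    (H := fun t => W t - |(rm c (prim G) t - prim G t) - (rm c' (prim G') t - prim G' t)|) (by
      intro s t hs hst ht
      have := incr_ineq (c := c) (c' := c') hv hv' hW1 hs hst ht
      linarith) hac
  have h0 : W 0 = 0 := by simp [hW]
  have h00 : rm c (prim G) 0 = c := rm_zero (by rw [prim_zero]; exact hc) hv
  have h00' : rm c' (prim G') 0 = c' := rm_zero (by rw [prim_zero]; exact hc') hv'
  simp only [h0, h00, h00', prim_zero, sub_zero, zero_sub] at key
  have h2 : ∫ x in (0:ℝ)..1, |deriv (fun t => rm c (prim G) t - rm c' (prim G') t) x| =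
      ∫ x in (0:ℝ)..1, |deriv (rm c (prim G)) x - deriv (rm c' (prim G')) x| := by
    refine integral_congr_ae ?_
    filter_upwards [(rm_ac hG c).ae_differentiableAt, (rm_ac hG' c').ae_differentiableAt] with x h1 h2 hx
    have hx' := uIoc_subset_uIcc hx
    rw [deriv_fun_sub (h1 hx') (h2 hx')]
  rw [h2] at key
  have h3 := abs_nonneg ((rm c (prim G) 1 - prim G 1) - (rm c' (prim G') 1 - prim G' 1))
  linarith

end Pool.Agent.Helper495.SB
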