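import Pool.Agent.Helper495.SB.Frame

set_option autoImplicit false

/-!
The class of normed spaces whose unit sphere is uniformly homeomorphic to the unit ball.
-/

namespace Pool.Agent.Helper495.SB

open Set Metric

section

variable {E F G K W X Y Z : Type*} [NormedAddCommGroup E] [NormedSpace ℝ E] [NormedAddCommGroup F] [NormedSpace ℝ F]
  [NormedAddCommGroup G] [NormedSpace ℝ G]
  [NormedAddCommGroup K] [NormedSpace ℝ K] [NormedAddCommGroup W] [NormedSpace ℝ W]
  [NormedAddCommGroup X] [NormedSpace ℝ X] [NormedAddCommGroup Y] [NormedSpace ℝ Y]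
  [NormedAddCommGroup Z] [NormedSpace ℝ Z]

/-- The half space of `X × ℝ`. -/
def Half (X : Type*) : Set (X × ℝ) := (univ : Set X) ×ˢ Ici (0 : ℝ)

/-- `Good X`: the sphere of `X` is uniformly homeomorphic to the ball, in the form of half spaces. -/
def Good (X : Type*) [NormedAddCommGroup X] [NormedSpace ℝ X] : Prop :=
  SEq (univ : Set X) (Half X)

theorem IsCone.prod {C : Set E} {D : Set F} (hC : IsCone C) (hD : IsCone D) : IsCone (C ×ˢ D) :=
  fun x hx t ht => ⟨hC _ hx.1 t ht, hD _ hx.2 t ht⟩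

theorem isCone_Ici : IsCone (Ici (0 : ℝ)) := fun _ hx t ht => by
  rw [mem_Ici, smul_eq_mul]; exact mul_nonneg ht hx

theorem isCone_half : IsCone (Half X) := isCone_univ.prod isCone_Ici

theorem zero_mem_half : (0 : X × ℝ) ∈ Half X := ⟨mem_univ _, mem_Ici.mpr (le_refl (0 : ℝ))⟩

/-- Swap of the last two factors. -/
def swapL (E F G : Type*) [NormedAddCommGroup E] [NormedSpace ℝ E] [NormedAddCommGroup F] [NormedSpace ℝ F]
    [NormedAddCommGroup G] [NormedSpace ℝ G] : ((E × F) × G) ≃L[ℝ] ((E × G) × F) where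
  toFun z := ((z.1.1, z.2), z.1.2)
  invFun z := ((z.1.1, z.2), z.1.2)
  map_add' _ _ := rfl
  map_smul' _ _ := rfl
  left_inv _ := rfl
  right_inv _ := rfl
  continuous_toFun := by fun_prop
  continuous_invFun := by fun_prop

theorem SEq.swap {C : Set E} {D : Set F} {D' : Set G} (hC : IsCone C) (hD : IsCone D) (hD' : IsCone D')
    (h0 : (0 : E) ∈ C) (h1 : (0 : F) ∈ D) (h2 : (0 : G) ∈ D') :
    SEq ((C ×ˢ D) ×ˢ D') ((C ×ˢ D') ×ˢ D) := by
  refine SEq.of_linear (swapL E F G) ((hC.prod hD).prod hD') ⟨⟨h0, h1⟩, h2⟩ fun x => ?_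
  constructor
  · rintro ⟨⟨h1, h2⟩, h3⟩; exact ⟨⟨h1, h3⟩, h2⟩
  · rintro ⟨⟨h1, h2⟩, h3⟩; exact ⟨⟨h1, h3⟩, h2⟩

theorem SEq.prod_univ (h : SEq (univ : Set E) (univ : Set F)) (W : Type*) [NormedAddCommGroup W] [NormedSpace ℝ W] :
    SEq (univ : Set (E × W)) (univ : Set (F × W)) := by
  have := h.prod isCone_univ isCone_univ (mem_univ _) (mem_univ _) (univ : Set W)
  rwa [univ_prod_univ, univ_prod_univ] at this

theorem SEq.half (h : SEq (univ : Set E) (univ : Set F)) : SEq (Half E) (Half F) :=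
  h.prod isCone_univ isCone_univ (mem_univ _) (mem_univ _) (Ici 0)

/-- The half space trick. -/
theorem good_of_half (h1 : SEq (univ : Set Y) (Half K)) (h2 : SEq (univ : Set Y) (univ : Set (K × ℝ)))
    (h3 : SEq (univ : Set (Y × ℝ)) (univ : Set Y)) : Good Y := by
  have a1 : SEq (univ : Set (Y × ℝ)) ((Half K) ×ˢ (univ : Set ℝ)) := by
    have := h1.prod isCone_univ isCone_half (mem_univ _) zero_mem_half (univ : Set ℝ)
    rwa [univ_prod_univ] at this
  have a2 : SEq ((Half K) ×ˢ (univ : Set ℝ)) (((univ : Set K) ×ˢ (univ : Set ℝ)) ×ˢ (Ici (0 : ℝ))) :=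
    SEq.swap isCone_univ isCone_Ici isCone_univ (mem_univ _) (mem_Ici.mpr le_rfl) (mem_univ _)
  rw [univ_prod_univ] at a2
  exact h3.symm.trans (a1.trans (a2.trans h2.half.symm))

theorem Good.prod (h : Good X) (Z : Type*) [NormedAddCommGroup Z] [NormedSpace ℝ Z] : Good (X × Z) := by
  have a1 : SEq (univ : Set (X × Z)) ((Half X) ×ˢ (univ : Set Z)) := by
    have := SEq.prod h isCone_univ isCone_half (mem_univ _) zero_mem_half (univ : Set Z)
    rwa [univ_prod_univ] at this
  have a2 : SEq ((Half X) ×ˢ (univ : Set Z)) (((univ : Set X) ×ˢ (univ : Set Z)) ×ˢ (Ici (0 : ℝ))) :=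
    SEq.swap isCone_univ isCone_Ici isCone_univ (mem_univ _) (mem_Ici.mpr le_rfl) (mem_univ _)
  rw [univ_prod_univ] at a2
  exact a1.trans a2

theorem Good.of_SEq (h : Good X) (h' : SEq (univ : Set Y) (univ : Set X)) : Good Y :=
  h'.trans (SEq.trans h h'.half.symm)

theorem good_iff : Good X ↔ Nonempty (sphere (0 : X) 1 ≃ᵤ closedBall (0 : X) 1) := by
  obtain ⟨e⟩ := hemi_ball (W := X)
  constructor
  · rintro ⟨f⟩
    rw [sphere_eq]
    exact ⟨f.trans e⟩
  · rintro ⟨f⟩
    rw [sphere_eq] at f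
    exact ⟨f.trans e.symm⟩

theorem SEq_iff : SEq (univ : Set X) (univ : Set Y) ↔ Nonempty (sphere (0 : X) 1 ≃ᵤ sphere (0 : Y) 1) := by
  rw [sphere_eq, sphere_eq]; rfl

/-- Splitting off a functional. -/
theorem exists_split (φ : Y →L[ℝ] ℝ) (e : Y) (he : φ e = 1) :
    ∃ T : Y ≃L[ℝ] (LinearMap.ker (φ : Y →ₗ[ℝ] ℝ)) × ℝ, ∀ y, (T y).2 = φ y := by
  refine ⟨{ toFun := fun y => (⟨y - φ y • e, by simp [he]⟩, φ y)
            invFun := fun z => (z.1 : Y) + z.2 • e
            map_add' := ?_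
            map_smul' := ?_
            left_inv := ?_
            right_inv := ?_
            continuous_toFun := ?_
            continuous_invFun := ?_ }, fun y => rfl⟩
  · intro x y
    refine Prod.ext (Subtype.ext ?_) (by simp)
    simp only [map_add, add_smul, Prod.fst_add, Submodule.coe_add]
    abel
  · intro a x
    refine Prod.ext (Subtype.ext ?_) (by simp)
    simp only [map_smul, smul_eq_mul, RingHom.id_apply, Prod.smul_fst, Submodule.coe_smul, smul_sub, smul_smul]
  · intro y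
    simp
  · rintro ⟨⟨k, hk⟩, a⟩
    have hk' : φ k = 0 := hk
    refine Prod.ext (Subtype.ext ?_) ?_
    · simp [hk', he]
    · simp [hk', he]
  · refine Continuous.prodMk (Continuous.subtype_mk ?_ _) φ.continuous
    exact continuous_id.sub (φ.continuous.smul continuous_const)
  · exact (continuous_subtype_val.comp continuous_fst).add (continuous_snd.smul continuous_const)

/-- If a space is equivalent to one of its half spaces, then it is equivalent to `K × [0, ∞)` for
its hyperplane `K`. -/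
theorem good_of_functional (φ : Y →L[ℝ] ℝ) (e : Y) (he : φ e = 1)
    (h : SEq (univ : Set Y) {y | 0 ≤ φ y}) (h3 : SEq (univ : Set (Y × ℝ)) (univ : Set Y)) : Good Y := by
  obtain ⟨T, hT⟩ := exists_split φ e he
  have hc : IsCone {y | 0 ≤ φ y} := fun x hx t ht => by
    show 0 ≤ φ (t • x)
    rw [map_smul, smul_eq_mul]; exact mul_nonneg ht hx
  refine good_of_half (h.trans (SEq.of_linear T hc (by simp) fun x => ?_)) (SEq.univ_of_linear T) h3
  constructor
  · intro hx; exact ⟨mem_univ _, by rw [mem_Ici, hT]; exact hx⟩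
  · rintro ⟨_, hx⟩
    rw [mem_Ici, hT] at hx
    exact hx

end

end Pool.Agent.Helper495.SB
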