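import Pool.Agent.Helper495.SB.CI

set_option autoImplicit false

/-!
`C[0,1] × ℝ` is isomorphic to `C[0,1]`.
-/

namespace Pool.Agent.Helper495.SB

open Set Metric unitInterval Filter Topology

/-- Hat functions at the points `2⁻ⁿ`. -/
noncomputable def bb (n : ℕ) (t : ℝ) : ℝ := max 0 (1 - 4 * |2 ^ n * t - 1|)

theorem bb_nonneg (n : ℕ) (t : ℝ) : 0 ≤ bb n t := le_max_left _ _

theorem bb_le_one (n : ℕ) (t : ℝ) : bb n t ≤ 1 :=
  max_le zero_le_one (by linarith [abs_nonneg (2 ^ n * t - 1)])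

theorem bb_cont (n : ℕ) : Continuous (bb n) := by unfold bb; fun_prop

theorem bb_ne {n : ℕ} {t : ℝ} (h : bb n t ≠ 0) : 3 / 4 < 2 ^ n * t ∧ 2 ^ n * t < 5 / 4 := by
  have h1 : 0 < 1 - 4 * |2 ^ n * t - 1| := by
    by_contra hcon
    push Not at hcon
    exact h (max_eq_left hcon)
  have h2 : |2 ^ n * t - 1| < 1 / 4 := by linarith
  rw [abs_lt] at h2
  constructor <;> linarith [h2.1, h2.2]

theorem bb_disj_aux {n k : ℕ} {t : ℝ} (h : bb n t ≠ 0) (h' : bb (n + (k + 1)) t ≠ 0) : False := by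
  obtain ⟨h1, h2⟩ := bb_ne h
  obtain ⟨h3, h4⟩ := bb_ne h'
  have h5 : (1 : ℝ) ≤ 2 ^ k := one_le_pow₀ (by norm_num)
  have h6 : (2 : ℝ) ^ (n + (k + 1)) * t = 2 * (2 ^ k * (2 ^ n * t)) := by ring
  rw [h6] at h4
  nlinarith

theorem bb_disj {n m : ℕ} {t : ℝ} (h : bb n t ≠ 0) (h' : bb m t ≠ 0) : n = m := by
  rcases lt_trichotomy n m with hlt | rfl | hlt
  · obtain ⟨k, rfl⟩ := Nat.exists_eq_add_of_lt hlt
    exact (bb_disj_aux h h').elim
  · rfl
  · obtain ⟨k, rfl⟩ := Nat.exists_eq_add_of_lt hlt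
    exact (bb_disj_aux h' h).elim

/-- The nodes. -/
noncomputable def tn (n : ℕ) : unitInterval := ⟨(1 / 2 : ℝ) ^ n, by positivity, pow_le_one₀ (by norm_num) (by norm_num)⟩

theorem bb_tn (n : ℕ) : bb n (tn n) = 1 := by
  have : (2 : ℝ) ^ n * (1 / 2 : ℝ) ^ n = 1 := by rw [← mul_pow]; norm_num
  show max 0 (1 - 4 * |2 ^ n * (1 / 2 : ℝ) ^ n - 1|) = 1
  rw [this]; norm_num

theorem bb_zero (n : ℕ) : bb n 0 = 0 := by
  show max 0 (1 - 4 * |2 ^ n * (0 : ℝ) - 1|) = 0
  norm_num

theorem tn_tendsto : Tendsto tn atTop (𝓝 0) := by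
  rw [tendsto_subtype_rng]
  exact tendsto_pow_atTop_nhds_zero_of_lt_one (by norm_num) (by norm_num)

open Classical in
/-- The active index at `t`. -/
noncomputable def idx (t : ℝ) : ℕ := if h : ∃ n, bb n t ≠ 0 then h.choose else 0

theorem idx_eq {n : ℕ} {t : ℝ} (h : bb n t ≠ 0) : idx t = n := by
  have h' : ∃ n, bb n t ≠ 0 := ⟨n, h⟩
  unfold idx
  rw [dif_pos h']
  exact bb_disj h'.choose_spec h

/-- Superposition of the hat functions. -/
noncomputable def JJ (z : ℕ → ℝ) (t : ℝ) : ℝ := z (idx t) * bb (idx t) t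

theorem JJ_eq (z : ℕ → ℝ) {n : ℕ} {t : ℝ} (h : bb n t ≠ 0) : JJ z t = z n * bb n t := by
  rw [JJ, idx_eq h]

theorem JJ_tn (z : ℕ → ℝ) (n : ℕ) : JJ z (tn n) = z n := by
  rw [JJ_eq z (n := n) (by rw [bb_tn]; norm_num), bb_tn, mul_one]

theorem JJ_zero (z : ℕ → ℝ) : JJ z 0 = 0 := by
  rw [JJ, bb_zero, mul_zero]

theorem JJ_abs_le {z : ℕ → ℝ} {K : ℝ} (hK : ∀ n, |z n| ≤ K) (t : ℝ) : |JJ z t| ≤ K := by
  rw [JJ, abs_mul, abs_of_nonneg (bb_nonneg _ _)]
  calc |z (idx t)| * bb (idx t) t ≤ |z (idx t)| * 1 := by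
        gcongr; exact bb_le_one _ _
    _ ≤ K := by rw [mul_one]; exact hK _

theorem JJ_cont {z : ℕ → ℝ} (hz : Tendsto z atTop (𝓝 0)) : Continuous (JJ z) := by
  have hu : TendstoUniformly (fun N t => ∑ n ∈ Finset.range N, z n * bb n t) (JJ z) atTop := by
    rw [Metric.tendstoUniformly_iff]
    intro ε hε
    rw [Metric.tendsto_atTop] at hz
    obtain ⟨N0, hN0⟩ := hz ε hε
    filter_upwards [eventually_ge_atTop N0] with N hN t
    have key : ∀ n, bb n t ≠ 0 → ∑ n ∈ Finset.range N, z n * bb n t = if n < N then z n * bb n t else 0 := by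
      intro n hn
      split_ifs with h
      · refine Finset.sum_eq_single_of_mem n (Finset.mem_range.mpr h) fun m _ hmn => ?_
        by_contra hcon
        exact hmn (bb_disj (right_ne_zero_of_mul hcon) hn)
      · refine Finset.sum_eq_zero fun m hm => ?_
        by_contra hcon
        rw [bb_disj hn (right_ne_zero_of_mul hcon)] at h
        exact h (Finset.mem_range.mp hm)
    by_cases hex : ∃ n, bb n t ≠ 0
    · obtain ⟨n, hn⟩ := hex
      rw [key n hn, JJ_eq z hn, Real.dist_eq]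
      split_ifs with h
      · rw [sub_self, abs_zero]; exact hε
      · rw [sub_zero, abs_mul, abs_of_nonneg (bb_nonneg _ _)]
        have h1 := hN0 n (hN.trans (not_lt.mp h))
        rw [Real.dist_eq, sub_zero] at h1
        have h2 := bb_le_one n t
        nlinarith [abs_nonneg (z n), bb_nonneg n t]
    · push Not at hex
      rw [JJ, hex, mul_zero, Finset.sum_eq_zero fun m _ => by rw [hex, mul_zero], dist_self]
      exact hε
  refine hu.continuous (Frequently.of_forall fun N => ?_)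
  exact continuous_finsetSum _ fun n _ => continuous_const.mul (bb_cont n)

/-- Values at the nodes relative to the value at `0`. -/
noncomputable def PP (f : CI) (n : ℕ) : ℝ := f (tn n) - f 0

theorem PP_tendsto (f : CI) : Tendsto (PP f) atTop (𝓝 0) := by
  have h := (f.continuous.tendsto 0).comp tn_tendsto
  have := h.sub_const (f 0)
  rwa [sub_self] at this

theorem PP_abs_le (f : CI) (n : ℕ) : |PP f n| ≤ 2 * ‖f‖ := by
  have h1 := f.norm_coe_le_norm (tn n)
  have h2 := f.norm_coe_le_norm 0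
  rw [Real.norm_eq_abs] at h1 h2
  unfold PP
  have := abs_sub (f (tn n)) (f 0)
  linarith

/-- Prepending an entry. -/
def sh (a : ℝ) (x : ℕ → ℝ) : ℕ → ℝ
  | 0 => a
  | n + 1 => x n

theorem sh_tendsto {a : ℝ} {x : ℕ → ℝ} (h : Tendsto x atTop (𝓝 0)) : Tendsto (sh a x) atTop (𝓝 0) := by
  rw [← tendsto_add_atTop_iff_nat 1]
  exact h

theorem zz_tendsto (f : CI) (a : ℝ) : Tendsto (fun n => sh a (PP f) n - PP f n) atTop (𝓝 0) := by
  have := (sh_tendsto (a := a) (PP_tendsto f)).sub (PP_tendsto f)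
  rwa [sub_self] at this

theorem yy_tendsto (f : CI) : Tendsto (fun n => PP f (n + 1) - PP f n) atTop (𝓝 0) := by
  have := (((tendsto_add_atTop_iff_nat 1).mpr (PP_tendsto f))).sub (PP_tendsto f)
  rwa [sub_self] at this

/-- The isomorphism of `C[0,1] × ℝ` onto `C[0,1]`. -/
noncomputable def DD : (CI × ℝ) →L[ℝ] CI :=
  LinearMap.mkContinuous
    { toFun := fun p => p.1 + ⟨fun t : unitInterval => JJ (fun n => sh p.2 (PP p.1) n - PP p.1 n) t,
        (JJ_cont (zz_tendsto p.1 p.2)).comp continuous_subtype_val⟩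
      map_add' := by
        intro p q
        ext t
        have : ∀ n, sh (p.2 + q.2) (PP (p.1 + q.1)) n - PP (p.1 + q.1) n =
            (sh p.2 (PP p.1) n - PP p.1 n) + (sh q.2 (PP q.1) n - PP q.1 n) := by
          intro n
          cases n with
          | zero => simp only [sh, PP, ContinuousMap.add_apply]; ring
          | succ n => simp only [sh, PP, ContinuousMap.add_apply]; ring
        simp only [ContinuousMap.add_apply, ContinuousMap.coe_mk, JJ, Prod.fst_add, Prod.snd_add, this]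
        ring
      map_smul' := by
        intro a p
        ext t
        have : ∀ n, sh (a * p.2) (PP (a • p.1)) n - PP (a • p.1) n =
            a * (sh p.2 (PP p.1) n - PP p.1 n) := by
          intro n
          cases n with
          | zero => simp only [sh, PP, ContinuousMap.smul_apply, smul_eq_mul]; ring
          | succ n => simp only [sh, PP, ContinuousMap.smul_apply, smul_eq_mul]; ring
        simp only [ContinuousMap.add_apply, ContinuousMap.smul_apply, ContinuousMap.coe_mk, JJ, Prod.smul_fst,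
          Prod.smul_snd, smul_eq_mul, this, RingHom.id_apply]
        ring } 6 (by
      intro p
      rw [ContinuousMap.norm_le _ (by positivity)]
      intro t
      have hp1 : ‖p.1‖ ≤ ‖p‖ := norm_fst_le p
      have hp2 : |p.2| ≤ ‖p‖ := norm_snd_le p
      have h1 : |p.1 t| ≤ ‖p‖ := (p.1.norm_coe_le_norm t).trans hp1
      have h2 : ∀ n, |sh p.2 (PP p.1) n - PP p.1 n| ≤ 5 * ‖p‖ := by
        intro n
        have h3 := PP_abs_le p.1 n
        refine (abs_sub _ _).trans ?_
        cases n with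
        | zero =>
          show |p.2| + |PP p.1 0| ≤ _
          linarith [norm_nonneg p]
        | succ n =>
          show |PP p.1 n| + |PP p.1 (n + 1)| ≤ _
          have h4 := PP_abs_le p.1 n
          linarith [norm_nonneg p]
      show ‖p.1 t + JJ (fun n => sh p.2 (PP p.1) n - PP p.1 n) t‖ ≤ 6 * ‖p‖
      rw [Real.norm_eq_abs]
      refine (abs_add_le _ _).trans ?_
      have h5 := JJ_abs_le h2 (t : ℝ)
      linarith)

theorem DD_apply (p : CI × ℝ) (t : unitInterval) :
    DD p t = p.1 t + JJ (fun n => sh p.2 (PP p.1) n - PP p.1 n) t := rfl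

theorem PP_DD (p : CI × ℝ) (n : ℕ) : PP (DD p) n = sh p.2 (PP p.1) n := by
  have h0 : ((0 : unitInterval) : ℝ) = 0 := rfl
  have h1 : PP (DD p) n = DD p (tn n) - DD p 0 := rfl
  have h2 : PP p.1 n = p.1 (tn n) - p.1 0 := rfl
  rw [h1, DD_apply, DD_apply, JJ_tn, h0, JJ_zero, h2]
  ring

theorem DD_inj : Function.Injective DD := by
  rw [injective_iff_map_eq_zero]
  intro p hp
  have h1 : ∀ n, sh p.2 (PP p.1) n = 0 := fun n => by
    rw [← PP_DD, hp]; simp [PP]
  have h2 : p.2 = 0 := h1 0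
  have h3 : ∀ n, PP p.1 n = 0 := fun n => h1 (n + 1)
  refine Prod.ext ?_ h2
  ext t
  have h4 := congrArg (fun f : CI => f t) hp
  simp only [DD_apply, h1, h3, JJ, sub_self, zero_mul, add_zero] at h4
  exact h4

theorem DD_surj : Function.Surjective DD := by
  intro g
  refine ⟨(g + ⟨fun t : unitInterval => JJ (fun n => PP g (n + 1) - PP g n) t,
    (JJ_cont (yy_tendsto g)).comp continuous_subtype_val⟩, PP g 0), ?_⟩
  set f : CI := g + ⟨fun t : unitInterval => JJ (fun n => PP g (n + 1) - PP g n) t,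
    (JJ_cont (yy_tendsto g)).comp continuous_subtype_val⟩ with hf
  have hfa : ∀ t : unitInterval, f t = g t + JJ (fun n => PP g (n + 1) - PP g n) t := fun t => rfl
  have h1 : ∀ n, PP f n = PP g (n + 1) := fun n => by
    have h0 : ((0 : unitInterval) : ℝ) = 0 := rfl
    have h1 : PP f n = f (tn n) - f 0 := rfl
    have h2 : PP g n = g (tn n) - g 0 := rfl
    rw [h1, hfa, hfa, JJ_tn, h0, JJ_zero, h2]
    ring
  have h2 : ∀ n, sh (PP g 0) (PP f) n = PP g n := fun n => by
    cases n with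
    | zero => rfl
    | succ n => exact h1 n
  ext t
  rw [DD_apply]
  simp only [h2, h1]
  rw [hfa]
  simp only [JJ]
  ring

theorem absorb_CI : SEq (univ : Set (CI × ℝ)) (univ : Set CI) :=
  SEq.univ_of_linear (ContinuousLinearEquiv.ofBijective DD
    (LinearMap.ker_eq_bot.mpr DD_inj) (LinearMap.range_eq_top.mpr DD_surj))

/-- The functional `u 1 - u 0`. -/
noncomputable def phi : CI →L[ℝ] ℝ := ContinuousMap.evalCLM ℝ (1 : unitInterval) - ContinuousMap.evalCLM ℝ (0 : unitInterval)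

theorem good_CI : Good CI := by
  refine good_of_functional phi ⟨fun t => (t : ℝ), continuous_subtype_val⟩ ?_ ?_ absorb_CI
  · show ((1 : unitInterval) : ℝ) - ((0 : unitInterval) : ℝ) = 1
    simp
  · have : {y : CI | 0 ≤ phi y} = {u : CI | u 0 ≤ u 1} := by
      ext u
      show 0 ≤ u 1 - u 0 ↔ u 0 ≤ u 1
      exact sub_nonneg
    rw [this]
    exact half_CI

end Pool.Agent.Helper495.SB
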