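import Mathlib

set_option autoImplicit false

/-!
A scattering chain on bounded sequences.
-/

namespace Pool.Agent.Helper495.SB

open Filter Topology

/-- Tail supremum of the negative parts. -/
noncomputable def tz (a : ℕ → ℝ) (n : ℕ) : ℝ := ⨆ k, max 0 (-(a (n + k)))

/-- Bounded below. -/
def BB (a : ℕ → ℝ) : Prop := ∃ K : ℝ, ∀ n, -K ≤ a n

section tz

variable {a b : ℕ → ℝ}

theorem tz_bdd (ha : BB a) (n : ℕ) : BddAbove (Set.range fun k => max 0 (-(a (n + k)))) := by
  obtain ⟨K, hK⟩ := ha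
  refine ⟨max 0 K, ?_⟩
  rintro _ ⟨k, rfl⟩
  exact max_le_max le_rfl (by linarith [hK (n + k)])

theorem tz_nonneg (ha : BB a) (n : ℕ) : 0 ≤ tz a n :=
  (le_max_left _ _).trans (le_ciSup (tz_bdd ha n) 0)

theorem tz_ge (ha : BB a) (n k : ℕ) : -(a (n + k)) ≤ tz a n :=
  (le_max_right _ _).trans (le_ciSup (tz_bdd ha n) k)

theorem tz_ge0 (ha : BB a) (n : ℕ) : -(a n) ≤ tz a n := tz_ge ha n 0

theorem tz_le {n : ℕ} {c : ℝ} (hc : 0 ≤ c) (h : ∀ k, -(a (n + k)) ≤ c) : tz a n ≤ c :=
  ciSup_le fun k => max_le hc (h k)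

theorem tz_succ (ha : BB a) (n : ℕ) : tz a n = max (tz a (n + 1)) (-(a n)) := by
  apply le_antisymm
  · refine tz_le ((tz_nonneg ha _).trans (le_max_left _ _)) fun k => ?_
    cases k with
    | zero => exact le_max_right _ _
    | succ k =>
      refine le_trans ?_ (le_max_left _ _)
      have := tz_ge ha (n + 1) k
      rwa [show n + 1 + k = n + (k + 1) by ring] at this
  · refine max_le (tz_le (tz_nonneg ha n) fun k => ?_) (tz_ge0 ha n)
    have := tz_ge ha n (k + 1)
    rwa [show n + (k + 1) = n + 1 + k by ring] at this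

theorem tz_tendsto (ha : BB a) (h : ∀ ε : ℝ, 0 < ε → ∀ᶠ n in atTop, -ε ≤ a n) : Tendsto (tz a) atTop (𝓝 0) := by
  rw [Metric.tendsto_atTop]
  intro ε hε
  obtain ⟨N, hN⟩ := eventually_atTop.mp (h (ε / 2) (by linarith))
  refine ⟨N, fun n hn => ?_⟩
  rw [Real.dist_eq, sub_zero, abs_of_nonneg (tz_nonneg ha n)]
  have : tz a n ≤ ε / 2 := tz_le (by linarith) fun k => by
    have := hN (n + k) (by omega)
    linarith
  linarith

theorem tz_sub_le (ha : BB a) (hb : BB b) {K : ℝ} (h : ∀ n, |a n - b n| ≤ K) (n : ℕ) : |tz a n - tz b n| ≤ K := by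
  have hK : 0 ≤ K := (abs_nonneg _).trans (h 0)
  rw [abs_sub_le_iff]
  constructor
  · rw [sub_le_iff_le_add]
    refine tz_le (add_nonneg hK (tz_nonneg hb n)) fun k => ?_
    have h1 := (abs_le.mp (h (n + k))).1
    have h2 := tz_ge hb n k
    linarith
  · rw [sub_le_iff_le_add]
    refine tz_le (add_nonneg hK (tz_nonneg ha n)) fun k => ?_
    have h1 := (abs_le.mp (h (n + k))).2
    have h2 := tz_ge ha n k
    linarith

theorem BB.smul (ha : BB a) {t : ℝ} (ht : 0 ≤ t) : BB fun n => t * a n := by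
  obtain ⟨K, hK⟩ := ha
  exact ⟨t * K, fun n => by nlinarith [hK n]⟩

theorem tz_smul (ha : BB a) {t : ℝ} (ht : 0 ≤ t) (n : ℕ) : tz (fun n => t * a n) n = t * tz a n := by
  rcases ht.eq_or_lt with rfl | ht'
  · have : (fun n => 0 * a n) = fun _ : ℕ => (0 : ℝ) := by ext; ring
    rw [this]
    simp [tz]
  · apply le_antisymm
    · refine tz_le (mul_nonneg ht (tz_nonneg ha n)) fun k => ?_
      have := tz_ge ha n k
      nlinarith
    · have h1 : tz a n ≤ t⁻¹ * tz (fun n => t * a n) n := by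
        refine tz_le (mul_nonneg (inv_nonneg.mpr ht) (tz_nonneg (ha.smul ht) n)) fun k => ?_
        have h2 : -(t * a (n + k)) ≤ tz (fun n => t * a n) n := tz_ge (ha.smul ht) n k
        have h3 : -(a (n + k)) = t⁻¹ * -(t * a (n + k)) := by field_simp
        rw [h3]
        exact mul_le_mul_of_nonneg_left h2 (inv_nonneg.mpr ht)
      calc t * tz a n ≤ t * (t⁻¹ * tz (fun n => t * a n) n) := mul_le_mul_of_nonneg_left h1 ht
        _ = _ := by field_simp

theorem tz_unique (ha : BB a) {z : ℕ → ℝ} (hz : ∀ n, z n = max (z (n + 1)) (-(a n))) (hz0 : ∀ n, 0 ≤ z n)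
    (ht : Tendsto z atTop (𝓝 0)) (n : ℕ) : tz a n = z n := by
  have hanti : ∀ k, z (n + k) ≤ z n := by
    intro k
    induction k with
    | zero => exact le_rfl
    | succ k ih =>
      refine le_trans ?_ ih
      rw [hz (n + k)]
      exact le_max_left _ _
  apply le_antisymm
  · refine tz_le (hz0 n) fun k => ?_
    refine le_trans ?_ (hanti k)
    rw [hz (n + k)]
    exact le_max_right _ _
  · have key : ∀ k, z n ≤ max (z (n + k)) (tz a n) := by
      intro k
      induction k with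
      | zero => exact le_max_left _ _
      | succ k ih =>
        refine ih.trans (max_le ?_ (le_max_right _ _))
        rw [hz (n + k)]
        exact max_le (le_max_left _ _) ((tz_ge ha n k).trans (le_max_right _ _))
    have h1 : Tendsto (fun k => max (z (n + k)) (tz a n)) atTop (𝓝 (max 0 (tz a n))) := by
      refine Tendsto.max ?_ tendsto_const_nhds
      have := (tendsto_add_atTop_iff_nat n).mpr ht
      simpa [add_comm] using this
    have := ge_of_tendsto' h1 key
    rwa [max_eq_right (tz_nonneg ha n)] at this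

end tz

/-- Local forward map. -/
noncomputable def fY (z a : ℝ) : ℝ := max ((3 * z + max a (-z)) / 2) (max a (-z))

/-- Local backward map. -/
noncomputable def fA (z y : ℝ) : ℝ := min (2 * max y z - 3 * z) (max y z)

theorem loc1 {z a : ℝ} (hz : 0 ≤ z) : min (max z (-a)) (fY z a) = z ∧ fA (max z (-a)) (fY z a) = a := by
  rcases le_total a (-z) with h | h
  · have h1 : max a (-z) = -z := max_eq_right h
    have h2 : fY z a = z := by
      unfold fY
      rw [h1, max_eq_left (by linarith)]; ring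
    have h3 : max z (-a) = -a := max_eq_right (by linarith)
    rw [h2, h3]
    refine ⟨min_eq_right (by linarith), ?_⟩
    unfold fA
    rw [max_eq_right (by linarith), min_eq_left (by linarith)]; ring
  · have h1 : max a (-z) = a := max_eq_left h
    have h3 : max z (-a) = z := max_eq_left (by linarith)
    rw [h3]
    rcases le_total a (3 * z) with h' | h'
    · have h2 : fY z a = (3 * z + a) / 2 := by
        unfold fY
        rw [h1, max_eq_left (by linarith)]
      rw [h2]
      refine ⟨min_eq_left (by linarith), ?_⟩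
      unfold fA
      rw [max_eq_left (by linarith), min_eq_left (by linarith)]; ring
    · have h2 : fY z a = a := by
        unfold fY
        rw [h1, max_eq_right (by linarith)]
      rw [h2]
      refine ⟨min_eq_left (by linarith), ?_⟩
      unfold fA
      rw [max_eq_left (by linarith), min_eq_right (by linarith)]

theorem loc2 {z y : ℝ} (hz : 0 ≤ z) (hy : 0 ≤ y) : max (min z y) (-(fA z y)) = z ∧ fY (min z y) (fA z y) = y := by
  rcases le_total y z with h | h
  · have h2 : fA z y = -z := by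
      unfold fA
      rw [max_eq_right h, min_eq_left (by linarith)]; ring
    rw [h2, min_eq_right h]
    refine ⟨by rw [neg_neg, max_eq_right h], ?_⟩
    have h4 : max (-z) (-y) = -y := max_eq_right (by linarith)
    unfold fY
    rw [h4, max_eq_left (by linarith)]; ring
  · rw [min_eq_left h]
    rcases le_total y (3 * z) with h' | h'
    · have h2 : fA z y = 2 * y - 3 * z := by
        unfold fA
        rw [max_eq_left h, min_eq_left (by linarith)]
      rw [h2]
      refine ⟨max_eq_left (by linarith), ?_⟩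
      have h4 : max (2 * y - 3 * z) (-z) = 2 * y - 3 * z := max_eq_left (by linarith)
      unfold fY
      rw [h4, max_eq_left (by linarith)]; ring
    · have h2 : fA z y = y := by
        unfold fA
        rw [max_eq_left h, min_eq_right (by linarith)]
      rw [h2]
      refine ⟨max_eq_left (by linarith), ?_⟩
      have h4 : max y (-z) = y := max_eq_left (by linarith)
      unfold fY
      rw [h4, max_eq_right (by linarith)]

theorem fY_sub {z a z' a' K : ℝ} (hz : |z - z'| ≤ K) (ha : |a - a'| ≤ K) : |fY z a - fY z' a'| ≤ 2 * K := by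
  have hK : 0 ≤ K := (abs_nonneg _).trans hz
  have h1 : |max a (-z) - max a' (-z')| ≤ K := by
    refine (abs_max_sub_max_le_max _ _ _ _).trans (max_le ha ?_)
    rw [show -z - -z' = -(z - z') by ring, abs_neg]; exact hz
  refine (abs_max_sub_max_le_max _ _ _ _).trans (max_le ?_ (by linarith))
  have : (3 * z + max a (-z)) / 2 - (3 * z' + max a' (-z')) / 2 = (3 / 2) * (z - z') + (1 / 2) * (max a (-z) - max a' (-z')) := by ring
  rw [this]
  refine (abs_add_le _ _).trans ?_
  rw [abs_mul, abs_mul, abs_of_pos (by norm_num : (0:ℝ) < 3 / 2), abs_of_pos (by norm_num : (0:ℝ) < 1 / 2)]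
  linarith

theorem fA_sub {z y z' y' K : ℝ} (hz : |z - z'| ≤ K) (hy : |y - y'| ≤ K) : |fA z y - fA z' y'| ≤ 5 * K := by
  have hK : 0 ≤ K := (abs_nonneg _).trans hz
  have h1 : |max y z - max y' z'| ≤ K := (abs_max_sub_max_le_max _ _ _ _).trans (max_le hy hz)
  refine (abs_min_sub_min_le_max _ _ _ _).trans (max_le ?_ (by linarith))
  have : 2 * max y z - 3 * z - (2 * max y' z' - 3 * z') = 2 * (max y z - max y' z') - 3 * (z - z') := by ring
  rw [this]
  refine (abs_sub _ _).trans ?_
  rw [abs_mul, abs_mul, abs_of_pos (by norm_num : (0:ℝ) < 2), abs_of_pos (by norm_num : (0:ℝ) < 3)]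
  linarith

theorem fY_smul {t : ℝ} (ht : 0 ≤ t) (z a : ℝ) : fY (t * z) (t * a) = t * fY z a := by
  unfold fY
  rw [mul_max_of_nonneg _ _ ht, mul_div_assoc', mul_add, mul_max_of_nonneg _ _ ht]
  congr 2
  · congr 1
    · ring
    · congr 1; ring
  · ring

theorem fA_smul {t : ℝ} (ht : 0 ≤ t) (z y : ℝ) : fA (t * z) (t * y) = t * fA z y := by
  unfold fA
  rw [mul_min_of_nonneg _ _ ht, mul_sub, mul_max_of_nonneg _ _ ht]
  congr 1
  rw [← mul_max_of_nonneg _ _ ht]
  ring

/-- Output sequence. -/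
noncomputable def yy (a : ℕ → ℝ) (n : ℕ) : ℝ := fY (tz a (n + 1)) (a n)

/-- Running minimum. -/
noncomputable def rmn (z0 : ℝ) (y : ℕ → ℝ) : ℕ → ℝ
  | 0 => z0
  | n + 1 => min (rmn z0 y n) (y n)

/-- Recovered sequence. -/
noncomputable def aa (z0 : ℝ) (y : ℕ → ℝ) (n : ℕ) : ℝ := fA (rmn z0 y n) (y n)

section seq

variable {a : ℕ → ℝ}

theorem rmn_yy (ha : BB a) (n : ℕ) : rmn (tz a 0) (yy a) n = tz a n := by
  induction n with
  | zero => rfl
  | succ n ih =>
    rw [rmn, ih, tz_succ ha n]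
    exact (loc1 (tz_nonneg ha (n + 1))).1

theorem aa_yy (ha : BB a) (n : ℕ) : aa (tz a 0) (yy a) n = a n := by
  rw [aa, rmn_yy ha, tz_succ ha n]
  exact (loc1 (tz_nonneg ha (n + 1))).2

theorem rmn_nonneg {z0 : ℝ} {y : ℕ → ℝ} (hz : 0 ≤ z0) (hy : ∀ n, 0 ≤ y n) (n : ℕ) : 0 ≤ rmn z0 y n := by
  induction n with
  | zero => exact hz
  | succ n ih => exact le_min ih (hy n)

theorem rmn_le {z0 : ℝ} {y : ℕ → ℝ} (n : ℕ) : rmn z0 y n ≤ z0 := by
  induction n with
  | zero => exact le_rfl
  | succ n ih => exact (min_le_left _ _).trans ih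

theorem aa_ge {z0 : ℝ} {y : ℕ → ℝ} (n : ℕ) (hz : 0 ≤ rmn z0 y n) : -(rmn z0 y n) ≤ aa z0 y n := by
  unfold aa fA
  have h := le_max_right (y n) (rmn z0 y n)
  exact le_min (by linarith) (by linarith)

theorem aa_BB {z0 : ℝ} {y : ℕ → ℝ} (hz : 0 ≤ z0) (hy : ∀ n, 0 ≤ y n) : BB (aa z0 y) :=
  ⟨z0, fun n => by
    have h1 := aa_ge n (rmn_nonneg hz hy n)
    have h2 := rmn_le (z0 := z0) (y := y) n
    linarith⟩

theorem tz_aa {z0 : ℝ} {y : ℕ → ℝ} (hz : 0 ≤ z0) (hy : ∀ n, 0 ≤ y n) (ht : Tendsto (rmn z0 y) atTop (𝓝 0)) (n : ℕ) :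
    tz (aa z0 y) n = rmn z0 y n := by
  refine tz_unique (aa_BB hz hy) (fun n => ?_) (rmn_nonneg hz hy) ht n
  exact (loc2 (rmn_nonneg hz hy n) (hy n)).1.symm

theorem yy_aa {z0 : ℝ} {y : ℕ → ℝ} (hz : 0 ≤ z0) (hy : ∀ n, 0 ≤ y n) (ht : Tendsto (rmn z0 y) atTop (𝓝 0)) (n : ℕ) :
    yy (aa z0 y) n = y n := by
  rw [yy, tz_aa hz hy ht]
  exact (loc2 (rmn_nonneg hz hy n) (hy n)).2

theorem yy_nonneg (ha : BB a) (n : ℕ) : 0 ≤ yy a n := by
  have h1 := (loc1 (a := a n) (tz_nonneg ha (n + 1))).1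
  have h2 := tz_nonneg ha (n + 1)
  rw [← h1] at h2
  exact h2.trans (min_le_right _ _)

theorem rmn_sub_le {z0 z0' : ℝ} {y y' : ℕ → ℝ} {K : ℝ} (hz : |z0 - z0'| ≤ K) (hy : ∀ n, |y n - y' n| ≤ K) (n : ℕ) :
    |rmn z0 y n - rmn z0' y' n| ≤ K := by
  induction n with
  | zero => exact hz
  | succ n ih => exact (abs_min_sub_min_le_max _ _ _ _).trans (max_le ih (hy n))

theorem rmn_smul {t : ℝ} (ht : 0 ≤ t) (z0 : ℝ) (y : ℕ → ℝ) (n : ℕ) : rmn (t * z0) (fun n => t * y n) n = t * rmn z0 y n := by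
  induction n with
  | zero => rfl
  | succ n ih => rw [rmn, ih, rmn, mul_min_of_nonneg _ _ ht]

/-- The output, shifted down by the level, has the same level. -/
theorem tz_shift {z0 : ℝ} {y : ℕ → ℝ} (hz : 0 ≤ z0) (hy : ∀ n, 0 ≤ y n) (ht : Tendsto (rmn z0 y) atTop (𝓝 0)) :
    tz (fun n => y n - z0) 0 = z0 := by
  have hBB : BB fun n => y n - z0 := ⟨z0, fun n => by linarith [hy n]⟩
  apply le_antisymm
  · exact tz_le hz fun k => by linarith [hy (0 + k)]
  · refine le_of_forall_pos_le_add fun ε hε => ?_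
    obtain ⟨N, hN⟩ := (Metric.tendsto_atTop.mp ht) ε hε
    have h1 := hN N le_rfl
    rw [Real.dist_eq, sub_zero] at h1
    have h2 : ∀ n, rmn z0 y n < ε → z0 ≤ tz (fun n => y n - z0) 0 + ε := by
      intro n
      induction n with
      | zero =>
        intro h
        have h3 : z0 < ε := h
        have h4 := tz_nonneg hBB 0
        linarith
      | succ n ih =>
        intro h
        rcases min_lt_iff.mp h with h | h
        · exact ih h
        · have h3 := tz_ge hBB 0 n
          rw [zero_add] at h3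
          linarith
    exact h2 N (lt_of_le_of_lt (le_abs_self _) h1)

/-- The running minimum tends to `0`. -/
theorem rmn_tendsto {a' : ℕ → ℝ} (ha' : BB a') : Tendsto (rmn (tz a' 0) (fun n => a' n + tz a' 0)) atTop (𝓝 0) := by
  have hz := tz_nonneg ha' 0
  have hy : ∀ n, 0 ≤ a' n + tz a' 0 := fun n => by
    have := tz_ge ha' 0 n
    rw [zero_add] at this
    linarith
  rw [Metric.tendsto_atTop]
  intro ε hε
  have hanti : ∀ n k, rmn (tz a' 0) (fun n => a' n + tz a' 0) (n + k) ≤ rmn (tz a' 0) (fun n => a' n + tz a' 0) n := by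
    intro n k
    induction k with
    | zero => exact le_rfl
    | succ k ih => exact (min_le_left _ _).trans ih
  have hex : ∃ N, rmn (tz a' 0) (fun n => a' n + tz a' 0) N < ε := by
    by_contra hcon
    push Not at hcon
    have h0 : ε ≤ tz a' 0 := hcon 0
    have h1 : ∀ n, ε ≤ a' n + tz a' 0 := fun n => (hcon (n + 1)).trans (min_le_right _ _)
    have h2 : tz a' 0 ≤ tz a' 0 - ε := tz_le (by linarith) fun k => by
      have := h1 (0 + k)
      linarith
    linarith
  obtain ⟨N, hN⟩ := hex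
  refine ⟨N, fun n hn => ?_⟩
  obtain ⟨k, rfl⟩ := Nat.exists_eq_add_of_le hn
  rw [Real.dist_eq, sub_zero, abs_of_nonneg (rmn_nonneg hz hy _)]
  exact lt_of_le_of_lt (hanti N k) hN

/-- The forward displacement is a null sequence. -/
theorem yy_sub_tendsto (ha : BB a) (h : Tendsto (tz a) atTop (𝓝 0)) : Tendsto (fun n => yy a n - a n) atTop (𝓝 0) := by
  have h1 : Tendsto (fun n => tz a (n + 1)) atTop (𝓝 0) := (tendsto_add_atTop_iff_nat 1).mpr h
  have hb : ∀ n, 0 ≤ yy a n - a n ∧ yy a n - a n ≤ 3 * tz a n := by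
    intro n
    have hz := tz_nonneg ha (n + 1)
    have hs := tz_succ ha n
    have h2 : tz a (n + 1) ≤ tz a n := by rw [hs]; exact le_max_left _ _
    have h3 : -(a n) ≤ tz a n := tz_ge0 ha n
    unfold yy fY
    constructor
    · have h5 := le_max_left (a n) (-(tz a (n + 1)))
      have h6 := le_max_right ((3 * tz a (n + 1) + max (a n) (-(tz a (n + 1)))) / 2) (max (a n) (-(tz a (n + 1))))
      linarith
    · rw [sub_le_iff_le_add]
      have h7 : max (a n) (-(tz a (n + 1))) ≤ a n + tz a n := max_le (by linarith) (by linarith)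
      have h8 : -(tz a (n + 1)) ≤ max (a n) (-(tz a (n + 1))) := le_max_right _ _
      refine max_le ?_ (by linarith)
      linarith
  have h3 : Tendsto (fun n => 3 * tz a n) atTop (𝓝 0) := by simpa using h.const_mul 3
  exact squeeze_zero (fun n => (hb n).1) (fun n => (hb n).2) h3

/-- The backward displacement is a null sequence. -/
theorem aa_sub_tendsto {z0 : ℝ} {y : ℕ → ℝ} (hz : 0 ≤ z0) (hy : ∀ n, 0 ≤ y n) (ht : Tendsto (rmn z0 y) atTop (𝓝 0)) :
    Tendsto (fun n => aa z0 y n - y n) atTop (𝓝 0) := by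
  have h1 := yy_sub_tendsto (aa_BB hz hy) (a := aa z0 y) (by
    refine ht.congr fun n => (tz_aa hz hy ht n).symm)
  have h2 : (fun n => aa z0 y n - y n) = fun n => -(yy (aa z0 y) n - aa z0 y n) := by
    ext n; rw [yy_aa hz hy ht]; ring
  rw [h2]
  simpa using h1.neg

end seq

end Pool.Agent.Helper495.SB
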