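import Pool.Agent.Helper495.SB.Abs
import Pool.Agent.Helper495.SB.Chain

set_option autoImplicit false

/-!
If `X` contains a copy of `c₀` then `X × [0,∞)` is equivalent to `X × ℝ`.
-/

namespace Pool.Agent.Helper495.SB

open Filter Topology Set Metric

open scoped ZeroAtInfty

open Classical in
/-- A null sequence as an element of `c₀`. -/
noncomputable def toC0 (f : ℕ → ℝ) : C₀(ℕ, ℝ) :=
  if h : Tendsto f atTop (𝓝 0) then
    ⟨⟨f, continuous_of_discreteTopology⟩, by rw [cocompact_eq_cofinite, Nat.cofinite_eq_atTop]; exact h⟩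
  else 0

theorem toC0_apply {f : ℕ → ℝ} (h : Tendsto f atTop (𝓝 0)) (n : ℕ) : toC0 f n = f n := by
  unfold toC0
  rw [dif_pos h]
  rfl

theorem norm_C0_le {v : C₀(ℕ, ℝ)} {K : ℝ} (hK : 0 ≤ K) (h : ∀ n, |v n| ≤ K) : ‖v‖ ≤ K := by
  rw [← ZeroAtInftyContinuousMap.norm_toBCF_eq_norm]
  exact (BoundedContinuousFunction.norm_le hK).mpr h

/-- Limit inferior of a sequence. -/
noncomputable def lm (a : ℕ → ℝ) : ℝ := sSup {r | ∀ᶠ n in atTop, r ≤ a n}

section lm

variable {a b : ℕ → ℝ} {K : ℝ}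

theorem lm_bdd (ha : ∀ n, |a n| ≤ K) : BddAbove {r | ∀ᶠ n in atTop, r ≤ a n} := by
  refine ⟨K, fun r hr => ?_⟩
  obtain ⟨n, hn⟩ := (show ∀ᶠ n in atTop, r ≤ a n from hr).exists
  exact hn.trans ((le_abs_self _).trans (ha n))

theorem lm_ne (ha : ∀ n, |a n| ≤ K) : {r | ∀ᶠ n in atTop, r ≤ a n}.Nonempty :=
  ⟨-K, Eventually.of_forall fun n => (abs_le.mp (ha n)).1⟩

theorem le_lm (ha : ∀ n, |a n| ≤ K) {r : ℝ} (h : ∀ᶠ n in atTop, r ≤ a n) : r ≤ lm a := le_csSup (lm_bdd ha) h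

theorem lm_le (ha : ∀ n, |a n| ≤ K) {c : ℝ} (h : ∀ r, (∀ᶠ n in atTop, r ≤ a n) → r ≤ c) : lm a ≤ c :=
  csSup_le (lm_ne ha) h

theorem nonneg_lm_iff (ha : ∀ n, |a n| ≤ K) : 0 ≤ lm a ↔ ∀ ε : ℝ, 0 < ε → ∀ᶠ n in atTop, -ε ≤ a n := by
  constructor
  · intro h ε hε
    obtain ⟨r, hr, hr'⟩ := exists_lt_of_lt_csSup (lm_ne ha) (show -ε < lm a by linarith)
    filter_upwards [show ∀ᶠ n in atTop, r ≤ a n from hr] with n hn
    linarith
  · intro h
    by_contra hcon
    push Not at hcon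
    have := le_lm ha (h (-(lm a) / 2) (by linarith))
    linarith

theorem lm_sub_le (ha : ∀ n, |a n| ≤ K) {K' : ℝ} (hb : ∀ n, |b n| ≤ K') {D : ℝ} (h : ∀ n, |a n - b n| ≤ D) : |lm a - lm b| ≤ D := by
  rw [abs_sub_le_iff]
  constructor
  · rw [sub_le_iff_le_add]
    refine lm_le ha fun r hr => ?_
    have : r - D ≤ lm b := le_lm hb (by
      filter_upwards [hr] with n hn
      have := (abs_le.mp (h n)).2
      linarith)
    linarith
  · rw [sub_le_iff_le_add]
    refine lm_le hb fun r hr => ?_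
    have : r - D ≤ lm a := le_lm ha (by
      filter_upwards [hr] with n hn
      have := (abs_le.mp (h n)).1
      linarith)
    linarith

theorem lm_add_const (ha : ∀ n, |a n| ≤ K) (c : ℝ) : lm (fun n => a n + c) = lm a + c := by
  have hb : ∀ n, |a n + c| ≤ K + |c| := fun n => (abs_add_le _ _).trans (by linarith [ha n])
  apply le_antisymm
  · refine lm_le hb fun r hr => ?_
    have : r - c ≤ lm a := le_lm ha (by filter_upwards [hr] with n hn; linarith)
    linarith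
  · have : lm a ≤ lm (fun n => a n + c) - c := lm_le ha fun r hr => by
      have : r + c ≤ lm (fun n => a n + c) := le_lm hb (by filter_upwards [hr] with n hn; linarith)
      linarith
    linarith

theorem lm_smul (ha : ∀ n, |a n| ≤ K) {t : ℝ} (ht : 0 ≤ t) : lm (fun n => t * a n) = t * lm a := by
  have hb : ∀ n, |t * a n| ≤ t * K := fun n => by
    rw [abs_mul, abs_of_nonneg ht]; exact mul_le_mul_of_nonneg_left (ha n) ht
  rcases ht.eq_or_lt with rfl | ht'
  · rw [zero_mul]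
    apply le_antisymm
    · refine lm_le hb fun r hr => ?_
      obtain ⟨n, hn⟩ := hr.exists
      linarith
    · exact le_lm hb (Eventually.of_forall fun n => by linarith)
  · apply le_antisymm
    · refine lm_le hb fun r hr => ?_
      have : r / t ≤ lm a := le_lm ha (by
        filter_upwards [hr] with n hn
        rw [div_le_iff₀ ht']; linarith)
      rw [div_le_iff₀ ht'] at this
      linarith
    · have : lm a ≤ lm (fun n => t * a n) / t := lm_le ha fun r hr => by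
        have : t * r ≤ lm (fun n => t * a n) := le_lm hb (by
          filter_upwards [hr] with n hn
          exact mul_le_mul_of_nonneg_left hn ht)
        rw [le_div_iff₀ ht']; linarith
      rw [le_div_iff₀ ht'] at this
      linarith

end lm

section main

variable {X : Type*} [NormedAddCommGroup X] [NormedSpace ℝ X] (J : C₀(ℕ, ℝ) →L[ℝ] X) (e : ℕ → X →L[ℝ] ℝ)

/-- The sequence of a point. -/
def sq (p : X × ℝ) (n : ℕ) : ℝ := e n p.1 + p.2

/-- Forward map. -/
noncomputable def GG (p : X × ℝ) : X × ℝ :=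
  (p.1 + J (toC0 fun n => yy (sq e p) n - sq e p n), p.2 - tz (sq e p) 0)

/-- Backward map. -/
noncomputable def HH (p : X × ℝ) : X × ℝ :=
  (p.1 + J (toC0 fun n => aa (tz (sq e p) 0) (fun n => sq e p n + tz (sq e p) 0) n - (sq e p n + tz (sq e p) 0)),
    p.2 + tz (sq e p) 0)

/-- The domain. -/
def PP0 : Set (X × ℝ) := {p | ∀ ε : ℝ, 0 < ε → ∀ᶠ n in atTop, -ε ≤ sq e p n}

variable {J e} {M : ℝ} (hM0 : 0 ≤ M) (hM : ∀ n x, |e n x| ≤ M * ‖x‖) (heJ : ∀ n v, e n (J v) = v n)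

include hM0 hM in
theorem sq_abs (p : X × ℝ) (n : ℕ) : |sq e p n| ≤ (M + 1) * ‖p‖ := by
  unfold sq
  refine (abs_add_le _ _).trans ?_
  have h1 := hM n p.1
  have h2 : |p.2| ≤ ‖p‖ := norm_snd_le p
  have h3 : ‖p.1‖ ≤ ‖p‖ := norm_fst_le p
  have h4 : M * ‖p.1‖ ≤ M * ‖p‖ := mul_le_mul_of_nonneg_left h3 hM0
  linarith

theorem sq_sub (p q : X × ℝ) (n : ℕ) : sq e p n - sq e q n = sq e (p - q) n := by
  simp only [sq, Prod.fst_sub, Prod.snd_sub, map_sub]
  ring

theorem sq_smul (t : ℝ) (p : X × ℝ) (n : ℕ) : sq e (t • p) n = t * sq e p n := by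
  simp only [sq, Prod.smul_fst, Prod.smul_snd, map_smul, smul_eq_mul]
  ring

include hM0 hM in
theorem sq_BB (p : X × ℝ) : BB (sq e p) :=
  ⟨(M + 1) * ‖p‖, fun n => (abs_le.mp (sq_abs hM0 hM p n)).1⟩

include hM0 hM in
theorem sq_sub_abs (p q : X × ℝ) (n : ℕ) : |sq e p n - sq e q n| ≤ (M + 1) * ‖p - q‖ := by
  rw [sq_sub]; exact sq_abs hM0 hM _ n

include hM0 hM heJ in
theorem sq_GG {p : X × ℝ} (hp : p ∈ PP0 e) (n : ℕ) : sq e (GG J e p) n = yy (sq e p) n - tz (sq e p) 0 := by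
  have hb := sq_BB hM0 hM p
  have ht := tz_tendsto hb hp
  have h := toC0_apply (yy_sub_tendsto hb ht) n
  show e n (p.1 + J (toC0 fun n => yy (sq e p) n - sq e p n)) + (p.2 - tz (sq e p) 0) = _
  rw [map_add, heJ, h]
  have h' : sq e p n = e n p.1 + p.2 := rfl
  linarith

include hM0 hM in
theorem back_facts (p : X × ℝ) : 0 ≤ tz (sq e p) 0 ∧ (∀ n, 0 ≤ sq e p n + tz (sq e p) 0) ∧
    Tendsto (rmn (tz (sq e p) 0) fun n => sq e p n + tz (sq e p) 0) atTop (𝓝 0) := by
  have hb := sq_BB hM0 hM p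
  refine ⟨tz_nonneg hb 0, fun n => ?_, rmn_tendsto hb⟩
  have := tz_ge hb 0 n
  rw [zero_add] at this
  linarith

include hM0 hM heJ in
theorem sq_HH (p : X × ℝ) (n : ℕ) :
    sq e (HH J e p) n = aa (tz (sq e p) 0) (fun n => sq e p n + tz (sq e p) 0) n := by
  obtain ⟨h1, h2, h3⟩ := back_facts hM0 hM p
  have ht := aa_sub_tendsto h1 h2 h3
  unfold HH
  simp only [sq] at ht ⊢
  rw [map_add, heJ, toC0_apply ht]
  ring

include hM0 hM heJ in
theorem HH_mem (p : X × ℝ) : HH J e p ∈ PP0 e := by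
  obtain ⟨h1, h2, h3⟩ := back_facts hM0 hM p
  intro ε hε
  obtain ⟨N, hN⟩ := (Metric.tendsto_atTop.mp h3) ε hε
  filter_upwards [eventually_ge_atTop N] with n hn
  rw [sq_HH hM0 hM heJ]
  have h4 := hN n hn
  rw [Real.dist_eq, sub_zero] at h4
  have h5 := aa_ge (z0 := tz (sq e p) 0) (y := fun n => sq e p n + tz (sq e p) 0) n (rmn_nonneg h1 h2 n)
  have h6 := le_abs_self (rmn (tz (sq e p) 0) (fun n => sq e p n + tz (sq e p) 0) n)
  linarith

theorem toC0_add_neg {f g : ℕ → ℝ} (hf : Tendsto f atTop (𝓝 0)) (hg : Tendsto g atTop (𝓝 0)) (h : ∀ n, f n + g n = 0) :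
    toC0 f + toC0 g = 0 := by
  ext n
  rw [ZeroAtInftyContinuousMap.add_apply, toC0_apply hf, toC0_apply hg, h]
  rfl

include hM0 hM heJ in
theorem HH_GG {p : X × ℝ} (hp : p ∈ PP0 e) : HH J e (GG J e p) = p := by
  have hb := sq_BB hM0 hM p
  have ht := tz_tendsto hb hp
  have hz := tz_nonneg hb 0
  have hy := yy_nonneg hb
  have hr : Tendsto (rmn (tz (sq e p) 0) (yy (sq e p))) atTop (𝓝 0) := ht.congr fun n => (rmn_yy hb n).symm
  have h1 : (sq e (GG J e p)) = fun n => yy (sq e p) n - tz (sq e p) 0 := funext fun n => sq_GG hM0 hM heJ hp n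
  have h2 : tz (sq e (GG J e p)) 0 = tz (sq e p) 0 := by rw [h1]; exact tz_shift hz hy hr
  have h3 : (fun n => sq e (GG J e p) n + tz (sq e (GG J e p)) 0) = yy (sq e p) := by
    ext n; rw [h2, h1]; ring
  have h4 : (fun n => aa (tz (sq e (GG J e p)) 0) (fun n => sq e (GG J e p) n + tz (sq e (GG J e p)) 0) n -
      (sq e (GG J e p) n + tz (sq e (GG J e p)) 0)) = fun n => sq e p n - yy (sq e p) n := by
    ext n
    rw [h3, h2, h1, aa_yy hb]
    ring
  have h5 : Tendsto (fun n => sq e p n - yy (sq e p) n) atTop (𝓝 0) := by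
    have := (yy_sub_tendsto hb ht).neg
    simpa using this
  have h6 : toC0 (fun n => yy (sq e p) n - sq e p n) + toC0 (fun n => sq e p n - yy (sq e p) n) = 0 :=
    toC0_add_neg (yy_sub_tendsto hb ht) h5 fun n => by ring
  unfold HH
  rw [h4]
  refine Prod.ext ?_ ?_
  · show (GG J e p).1 + J _ = p.1
    unfold GG
    simp only
    rw [add_assoc, ← map_add, h6, map_zero, add_zero]
  · show (GG J e p).2 + tz (sq e (GG J e p)) 0 = p.2
    rw [h2]
    unfold GG
    simp only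
    ring

include hM0 hM heJ in
theorem GG_HH (p : X × ℝ) : GG J e (HH J e p) = p := by
  obtain ⟨h1, h2, h3⟩ := back_facts hM0 hM p
  have ht := aa_sub_tendsto h1 h2 h3
  have e1 : sq e (HH J e p) = aa (tz (sq e p) 0) (fun n => sq e p n + tz (sq e p) 0) :=
    funext fun n => sq_HH hM0 hM heJ p n
  have e2 : tz (sq e (HH J e p)) 0 = tz (sq e p) 0 := by
    rw [e1, tz_aa h1 h2 h3]; rfl
  have e3 : yy (sq e (HH J e p)) = fun n => sq e p n + tz (sq e p) 0 := by
    rw [e1]; exact funext fun n => yy_aa h1 h2 h3 n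
  have e4 : (fun n => yy (sq e (HH J e p)) n - sq e (HH J e p) n) = fun n => (sq e p n + tz (sq e p) 0) -
      aa (tz (sq e p) 0) (fun n => sq e p n + tz (sq e p) 0) n := by
    rw [e3, e1]
  have e5 : Tendsto (fun n => (sq e p n + tz (sq e p) 0) -
      aa (tz (sq e p) 0) (fun n => sq e p n + tz (sq e p) 0) n) atTop (𝓝 0) := by
    have := ht.neg
    simpa using this
  have h6 := toC0_add_neg ht e5 fun n => by ring
  unfold GG
  rw [e4, e2]
  refine Prod.ext ?_ ?_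
  · show (HH J e p).1 + J _ = p.1
    unfold HH
    simp only
    rw [add_assoc, ← map_add, h6, map_zero, add_zero]
  · show (HH J e p).2 - tz (sq e p) 0 = p.2
    unfold HH
    simp only
    ring

theorem toC0_sub_le {f g : ℕ → ℝ} (hf : Tendsto f atTop (𝓝 0)) (hg : Tendsto g atTop (𝓝 0)) {K : ℝ} (hK : 0 ≤ K)
    (h : ∀ n, |f n - g n| ≤ K) : ‖toC0 f - toC0 g‖ ≤ K := by
  refine norm_C0_le hK fun n => ?_
  rw [ZeroAtInftyContinuousMap.sub_apply, toC0_apply hf, toC0_apply hg]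
  exact h n

theorem prod_bound {p q : X × ℝ} {v w : C₀(ℕ, ℝ)} {s t K : ℝ} (hK : 0 ≤ K) (hv : ‖v - w‖ ≤ K) (hs : |s - t| ≤ K) :
    ‖((p.1 + J v, p.2 + s) : X × ℝ) - (q.1 + J w, q.2 + t)‖ ≤ ‖p - q‖ + (‖J‖ + 1) * K := by
  rw [Prod.norm_def]
  refine max_le ?_ ?_
  · show ‖p.1 + J v - (q.1 + J w)‖ ≤ _
    have : p.1 + J v - (q.1 + J w) = (p - q).1 + J (v - w) := by
      rw [map_sub, Prod.fst_sub]; abel
    rw [this]
    refine (norm_add_le _ _).trans ?_
    have h1 : ‖(p - q).1‖ ≤ ‖p - q‖ := norm_fst_le _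
    have h2 : ‖J (v - w)‖ ≤ ‖J‖ * K := (J.le_opNorm _).trans (by gcongr)
    nlinarith [norm_nonneg J]
  · show ‖p.2 + s - (q.2 + t)‖ ≤ _
    have : p.2 + s - (q.2 + t) = (p - q).2 + (s - t) := by rw [Prod.snd_sub]; ring
    rw [this]
    refine (norm_add_le _ _).trans ?_
    have h1 : ‖(p - q).2‖ ≤ ‖p - q‖ := norm_snd_le _
    rw [Real.norm_eq_abs (s - t)]
    nlinarith [norm_nonneg J]

include hM0 hM in
theorem GG_lip {p q : X × ℝ} (hp : p ∈ PP0 e) (hq : q ∈ PP0 e) :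
    ‖GG J e p - GG J e q‖ ≤ (1 + (‖J‖ + 1) * (12 * (M + 1))) * ‖p - q‖ := by
  have hbp := sq_BB hM0 hM p
  have hbq := sq_BB hM0 hM q
  have htp := tz_tendsto hbp hp
  have htq := tz_tendsto hbq hq
  set K := (M + 1) * ‖p - q‖ with hKd
  have hK : 0 ≤ K := by positivity
  have h1 : ∀ n, |sq e p n - sq e q n| ≤ K := sq_sub_abs hM0 hM p q
  have h2 : ∀ n, |tz (sq e p) n - tz (sq e q) n| ≤ K := tz_sub_le hbp hbq h1
  have h3 : ∀ n, |yy (sq e p) n - yy (sq e q) n| ≤ 2 * K := fun n => fY_sub (h2 (n + 1)) (h1 n)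
  have h4 : ‖toC0 (fun n => yy (sq e p) n - sq e p n) - toC0 (fun n => yy (sq e q) n - sq e q n)‖ ≤ 12 * K := by
    refine toC0_sub_le (yy_sub_tendsto hbp htp) (yy_sub_tendsto hbq htq) (by positivity) fun n => ?_
    have : yy (sq e p) n - sq e p n - (yy (sq e q) n - sq e q n) =
      (yy (sq e p) n - yy (sq e q) n) - (sq e p n - sq e q n) := by ring
    rw [this]
    refine (abs_sub _ _).trans ?_
    have h5 := h1 n
    have h6 := h3 n
    linarith
  have h5 : |(-(tz (sq e p) 0)) - (-(tz (sq e q) 0))| ≤ 12 * K := by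
    rw [show (-(tz (sq e p) 0)) - (-(tz (sq e q) 0)) = -(tz (sq e p) 0 - tz (sq e q) 0) by ring, abs_neg]
    have := h2 0
    linarith
  have h6 := prod_bound (J := J) (p := p) (q := q) (by positivity) h4 h5
  calc ‖GG J e p - GG J e q‖ ≤ ‖p - q‖ + (‖J‖ + 1) * (12 * K) := h6
    _ = _ := by rw [hKd]; ring

include hM0 hM in
theorem HH_lip (p q : X × ℝ) :
    ‖HH J e p - HH J e q‖ ≤ (1 + (‖J‖ + 1) * (12 * (M + 1))) * ‖p - q‖ := by
  have hbp := sq_BB hM0 hM p
  have hbq := sq_BB hM0 hM q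
  obtain ⟨a1, a2, a3⟩ := back_facts hM0 hM p
  obtain ⟨b1, b2, b3⟩ := back_facts hM0 hM q
  set K := (M + 1) * ‖p - q‖ with hKd
  have hK : 0 ≤ K := by positivity
  have h1 : ∀ n, |sq e p n - sq e q n| ≤ K := sq_sub_abs hM0 hM p q
  have h2 : ∀ n, |tz (sq e p) n - tz (sq e q) n| ≤ K := tz_sub_le hbp hbq h1
  have h3 : ∀ n, |(sq e p n + tz (sq e p) 0) - (sq e q n + tz (sq e q) 0)| ≤ 2 * K := fun n => by
    have : (sq e p n + tz (sq e p) 0) - (sq e q n + tz (sq e q) 0) =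
      (sq e p n - sq e q n) + (tz (sq e p) 0 - tz (sq e q) 0) := by ring
    rw [this]
    refine (abs_add_le _ _).trans ?_
    have h5 := h1 n
    have h6 := h2 0
    linarith
  have h3' : |tz (sq e p) 0 - tz (sq e q) 0| ≤ 2 * K := (h2 0).trans (by linarith)
  have h4 : ∀ n, |rmn (tz (sq e p) 0) (fun n => sq e p n + tz (sq e p) 0) n -
      rmn (tz (sq e q) 0) (fun n => sq e q n + tz (sq e q) 0) n| ≤ 2 * K := rmn_sub_le h3' h3
  have h5 : ∀ n, |aa (tz (sq e p) 0) (fun n => sq e p n + tz (sq e p) 0) n -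
      aa (tz (sq e q) 0) (fun n => sq e q n + tz (sq e q) 0) n| ≤ 5 * (2 * K) := fun n => fA_sub (h4 n) (h3 n)
  have h6 := toC0_sub_le (aa_sub_tendsto a1 a2 a3) (aa_sub_tendsto b1 b2 b3) (K := 12 * K) (by positivity) fun n => by
    have h7 := h5 n
    have h8 := h3 n
    rw [abs_le] at h7 h8 ⊢
    constructor <;> linarith [h7.1, h7.2, h8.1, h8.2]
  have h7 := prod_bound (J := J) (p := p) (q := q) (by positivity) h6 (s := tz (sq e p) 0) (t := tz (sq e q) 0)
    ((h2 0).trans (by linarith))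
  calc ‖HH J e p - HH J e q‖ ≤ ‖p - q‖ + (‖J‖ + 1) * (12 * K) := h7
    _ = _ := by rw [hKd]; ring

theorem toC0_smul {f : ℕ → ℝ} (hf : Tendsto f atTop (𝓝 0)) (t : ℝ) : toC0 (fun n => t * f n) = t • toC0 f := by
  have h : Tendsto (fun n => t * f n) atTop (𝓝 0) := by simpa using hf.const_mul t
  ext n
  rw [toC0_apply h, ZeroAtInftyContinuousMap.smul_apply, toC0_apply hf, smul_eq_mul]

include hM0 hM in
theorem GG_smul {p : X × ℝ} (hp : p ∈ PP0 e) {t : ℝ} (ht : 0 ≤ t) : GG J e (t • p) = t • GG J e p := by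
  have hb := sq_BB hM0 hM p
  have htt := tz_tendsto hb hp
  have h1 : sq e (t • p) = fun n => t * sq e p n := funext fun n => sq_smul t p n
  have h2 : ∀ n, tz (sq e (t • p)) n = t * tz (sq e p) n := fun n => by rw [h1]; exact tz_smul hb ht n
  have h3 : (fun n => yy (sq e (t • p)) n - sq e (t • p) n) = fun n => t * (yy (sq e p) n - sq e p n) := by
    ext n
    rw [yy, h2, sq_smul, fY_smul ht, yy]; ring
  unfold GG
  rw [h3, h2, toC0_smul (yy_sub_tendsto hb htt)]
  refine Prod.ext ?_ ?_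
  · simp [smul_add]
  · simp [mul_sub]

include hM0 hM in
theorem HH_smul (p : X × ℝ) {t : ℝ} (ht : 0 ≤ t) : HH J e (t • p) = t • HH J e p := by
  have hb := sq_BB hM0 hM p
  obtain ⟨a1, a2, a3⟩ := back_facts hM0 hM p
  have h1 : sq e (t • p) = fun n => t * sq e p n := funext fun n => sq_smul t p n
  have h2 : ∀ n, tz (sq e (t • p)) n = t * tz (sq e p) n := fun n => by rw [h1]; exact tz_smul hb ht n
  have h4 : (fun n => sq e (t • p) n + tz (sq e (t • p)) 0) = fun n => t * (sq e p n + tz (sq e p) 0) := by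
    ext n; rw [h2, sq_smul]; ring
  have h3 : (fun n => aa (tz (sq e (t • p)) 0) (fun n => sq e (t • p) n + tz (sq e (t • p)) 0) n -
      (sq e (t • p) n + tz (sq e (t • p)) 0)) = fun n => t * (aa (tz (sq e p) 0) (fun n => sq e p n + tz (sq e p) 0) n -
      (sq e p n + tz (sq e p) 0)) := by
    ext n
    rw [h4, h2, sq_smul, aa, rmn_smul ht, fA_smul ht, aa]; ring
  unfold HH
  rw [h3, h2, toC0_smul (aa_sub_tendsto a1 a2 a3)]
  refine Prod.ext ?_ ?_
  · simp [smul_add]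
  · simp [mul_add]

include hM0 hM heJ in
theorem SEq_PP0 : SEq (PP0 e) (univ : Set (X × ℝ)) := by
  have hC : IsCone (PP0 e) := fun p hp t ht => by
    rcases ht.eq_or_lt with rfl | ht'
    · intro ε hε
      filter_upwards with n
      rw [sq_smul]; linarith
    · intro ε hε
      filter_upwards [hp (ε / t) (by positivity)] with n hn
      rw [sq_smul]
      have : -(ε / t) * t ≤ sq e p n * t := by nlinarith
      have h3 : ε / t * t = ε := by field_simp
      nlinarith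
  refine SEq.of_hom hC isCone_univ (GG J e) (HH J e) (fun _ _ => mem_univ _) (fun p _ => HH_mem hM0 hM heJ p)
    (fun p hp => HH_GG hM0 hM heJ hp) (fun p _ => GG_HH hM0 hM heJ p)
    (fun p hp t ht => GG_smul hM0 hM hp ht) (fun p _ t ht => HH_smul hM0 hM p ht)
    (fun p hp q hq => GG_lip hM0 hM hp hq) (fun p _ q _ => HH_lip hM0 hM p q) ?_ (mem_univ _)
  intro ε hε
  filter_upwards with n
  simp only [sq, Prod.fst_zero, Prod.snd_zero, map_zero]
  linarith

/-- The domain as an epigraph. -/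
noncomputable def lam (e : ℕ → X →L[ℝ] ℝ) (x : X) : ℝ := lm fun n => e n x

include hM in
theorem lam_sub_le (x y : X) : |lam e x - lam e y| ≤ M * ‖x - y‖ :=
  lm_sub_le (fun n => hM n x) (fun n => hM n y) fun n => by rw [← map_sub]; exact hM n _

include hM0 hM in
theorem SEq_half_PP0 : SEq (Half X) (PP0 e) := by
  have hmem : ∀ p : X × ℝ, p ∈ PP0 e ↔ 0 ≤ lam e p.1 + p.2 := fun p => by
    have h1 := nonneg_lm_iff (fun n => sq_abs hM0 hM p n)
    have h2 : lm (sq e p) = lam e p.1 + p.2 := lm_add_const (fun n => hM n p.1) p.2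
    rw [h2] at h1
    exact h1.symm
  have hsm : ∀ x (t : ℝ), 0 ≤ t → lam e (t • x) = t * lam e x := fun x t ht => by
    have : (fun n => e n (t • x)) = fun n => t * e n x := by ext n; simp
    rw [lam, this]
    exact lm_smul (fun n => hM n x) ht
  have hC : IsCone (PP0 e) := fun p hp t ht => by
    rw [hmem] at hp ⊢
    show 0 ≤ lam e (t • p.1) + t * p.2
    rw [hsm _ _ ht, ← mul_add]
    exact mul_nonneg ht hp
  have hlip : ∀ (s : ℝ), |s| = 1 → ∀ p q : X × ℝ, ‖((p.1, p.2 + s * lam e p.1) : X × ℝ) - (q.1, q.2 + s * lam e q.1)‖ ≤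
      (1 + M) * ‖p - q‖ := by
    intro s hs p q
    have h1 : ‖(p - q).1‖ ≤ ‖p - q‖ := norm_fst_le _
    have h2 : ‖(p - q).2‖ ≤ ‖p - q‖ := norm_snd_le _
    have h3 := lam_sub_le hM p.1 q.1
    rw [Prod.norm_def]
    refine max_le ?_ ?_
    · show ‖(p - q).1‖ ≤ _
      nlinarith [norm_nonneg (p - q)]
    · show ‖p.2 + s * lam e p.1 - (q.2 + s * lam e q.1)‖ ≤ _
      have : p.2 + s * lam e p.1 - (q.2 + s * lam e q.1) = (p - q).2 + s * (lam e p.1 - lam e q.1) := by
        rw [Prod.snd_sub]; ring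
      rw [this]
      refine (norm_add_le _ _).trans ?_
      rw [norm_mul, Real.norm_eq_abs s, hs, one_mul, Real.norm_eq_abs (lam e p.1 - lam e q.1)]
      have h4 : M * ‖p.1 - q.1‖ ≤ M * ‖p - q‖ := mul_le_mul_of_nonneg_left h1 hM0
      linarith
  refine SEq.of_hom isCone_half hC (fun p => (p.1, p.2 + -1 * lam e p.1)) (fun p => (p.1, p.2 + 1 * lam e p.1))
    ?_ ?_ ?_ ?_ ?_ ?_ (L := 1 + M) (fun p _ q _ => hlip (-1) (by norm_num) p q) (fun p _ q _ => hlip 1 (by norm_num) p q)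
    zero_mem_half ?_
  · intro p hp
    rw [hmem]
    have : (0 : ℝ) ≤ p.2 := hp.2
    show 0 ≤ lam e p.1 + (p.2 + -1 * lam e p.1)
    linarith
  · intro p hp
    rw [hmem] at hp
    refine ⟨mem_univ _, ?_⟩
    show (0 : ℝ) ≤ p.2 + 1 * lam e p.1
    linarith
  · intro p _
    refine Prod.ext rfl ?_
    show p.2 + -1 * lam e p.1 + 1 * lam e p.1 = p.2
    ring
  · intro p _
    refine Prod.ext rfl ?_
    show p.2 + 1 * lam e p.1 + -1 * lam e p.1 = p.2
    ring
  · intro p _ t ht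
    refine Prod.ext rfl ?_
    show t * p.2 + -1 * lam e (t • p.1) = t * (p.2 + -1 * lam e p.1)
    rw [hsm _ _ ht]; ring
  · intro p _ t ht
    refine Prod.ext rfl ?_
    show t * p.2 + 1 * lam e (t • p.1) = t * (p.2 + 1 * lam e p.1)
    rw [hsm _ _ ht]; ring
  · rw [hmem]
    have := hsm 0 0 le_rfl
    rw [zero_smul, zero_mul] at this
    show 0 ≤ lam e 0 + 0
    rw [this, add_zero]

include hM0 hM heJ in
/-- Half space and whole space. -/
theorem half_equiv : SEq (Half X) (univ : Set (X × ℝ)) := (SEq_half_PP0 hM0 hM).trans (SEq_PP0 hM0 hM heJ)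

end main

end Pool.Agent.Helper495.SB
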