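import Mathlib

set_option autoImplicit false

/-!
Reflection of a continuous path in its running maximum.
-/

namespace Pool.Agent.Helper495.SB

open Set

/-- Running maximum of `v` over `[0,t]`, started at level `c` (for `t` in `[0,1]`). -/
noncomputable def rm (c : ℝ) (v : ℝ → ℝ) (t : ℝ) : ℝ :=
  max c (sSup ((fun s => v (min s t)) '' Icc 0 1))

theorem rm_cont {v : ℝ → ℝ} (hv : Continuous v) (c : ℝ) : Continuous (rm c v) := by
  refine continuous_const.max ?_
  refine isCompact_Icc.continuous_sSup (f := fun t s => v (min s t)) ?_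
  exact hv.comp (continuous_snd.min continuous_fst)

section basic

variable {v : ℝ → ℝ} (hv : Continuous v) {c t : ℝ} (ht0 : 0 ≤ t) (ht1 : t ≤ 1)

include hv in
theorem bdd_im (t : ℝ) : BddAbove ((fun s => v (min s t)) '' Icc 0 1) :=
  isCompact_Icc.bddAbove_image (hv.comp (continuous_id.min continuous_const)).continuousOn

theorem le_rm_left (c : ℝ) (v : ℝ → ℝ) (t : ℝ) : c ≤ rm c v t := le_max_left _ _

include hv ht1 in
theorem le_rm {s : ℝ} (hs0 : 0 ≤ s) (hst : s ≤ t) : v s ≤ rm c v t := by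
  refine le_max_of_le_right ?_
  refine le_csSup (bdd_im hv t) ⟨s, ⟨hs0, hst.trans ht1⟩, ?_⟩
  simp only [min_eq_left hst]

include ht0 in
theorem rm_le {b : ℝ} (hc : c ≤ b) (h : ∀ s, 0 ≤ s → s ≤ t → v s ≤ b) : rm c v t ≤ b := by
  refine max_le hc ?_
  refine csSup_le ⟨_, 0, ⟨le_rfl, zero_le_one⟩, rfl⟩ ?_
  rintro _ ⟨s, hs, rfl⟩
  exact h _ (le_min hs.1 ht0) (min_le_right _ _)

include hv ht0 in
theorem rm_attained : rm c v t = c ∨ ∃ s, 0 ≤ s ∧ s ≤ t ∧ v s = rm c v t := by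
  rcases max_choice c (sSup ((fun s => v (min s t)) '' Icc 0 1)) with h | h
  · exact Or.inl h
  · right
    obtain ⟨s, hs, hs'⟩ := isCompact_Icc.exists_sSup_image_eq (nonempty_Icc.mpr (zero_le_one' ℝ))
      (hv.comp (continuous_id.min continuous_const) : Continuous (fun s => v (min s t))).continuousOn
    refine ⟨min s t, le_min hs.1 ht0, min_le_right _ _, ?_⟩
    show v (min s t) = max c _
    rw [h]
    exact hs'.symm

include hv ht0 ht1 in
theorem rm_eq_of {b : ℝ} (hc : c ≤ b) (h : ∀ s, 0 ≤ s → s ≤ t → v s ≤ b)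
    (h' : b = c ∨ ∃ s, 0 ≤ s ∧ s ≤ t ∧ v s = b) : rm c v t = b := by
  refine le_antisymm (rm_le ht0 hc h) ?_
  rcases h' with h' | ⟨s, hs0, hst, h'⟩
  · rw [h']; exact le_rm_left _ _ _
  · rw [← h']; exact le_rm hv ht1 hs0 hst

theorem rm_zero (h0 : v 0 ≤ c) (hv : Continuous v) : rm c v 0 = c := by
  refine rm_eq_of hv le_rfl zero_le_one le_rfl (fun s hs hs' => ?_) (Or.inl rfl)
  rw [le_antisymm hs' hs]; exact h0

include hv ht0 in
theorem rm_mono {t' : ℝ} (htt' : t ≤ t') (ht' : t' ≤ 1) : rm c v t ≤ rm c v t' :=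
  rm_le ht0 (le_rm_left _ _ _) fun _ hs hs' => le_rm hv ht' hs (hs'.trans htt')

include hv in
theorem rm_sub_le {v' : ℝ → ℝ} (hv' : Continuous v') {c' K : ℝ} (hK : ∀ s, 0 ≤ s → s ≤ 1 → |v s - v' s| ≤ K)
    (hc : |c - c'| ≤ K) (ht0 : 0 ≤ t) (ht1 : t ≤ 1) : |rm c v t - rm c' v' t| ≤ K := by
  rw [abs_sub_le_iff]
  constructor
  · rw [sub_le_iff_le_add]
    refine rm_le ht0 ?_ fun s hs hs' => ?_
    · have := (abs_sub_le_iff.mp hc).1
      have h2 := le_rm_left c' v' t
      linarith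
    · have := (abs_sub_le_iff.mp (hK s hs (hs'.trans ht1))).1
      have h2 := le_rm (c := c') hv' ht1 hs hs'
      linarith
  · rw [sub_le_iff_le_add]
    refine rm_le ht0 ?_ fun s hs hs' => ?_
    · have := (abs_sub_le_iff.mp hc).2
      have h2 := le_rm_left c v t
      linarith
    · have := (abs_sub_le_iff.mp (hK s hs (hs'.trans ht1))).2
      have h2 := le_rm (c := c) hv ht1 hs hs'
      linarith

theorem rm_congr {v v' : ℝ → ℝ} (h : ∀ s, 0 ≤ s → s ≤ 1 → v s = v' s) (c : ℝ) (ht0 : 0 ≤ t) :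
    rm c v t = rm c v' t := by
  unfold rm
  have : (fun s => v (min s t)) '' Icc 0 1 = (fun s => v' (min s t)) '' Icc 0 1 := by
    apply image_congr
    intro s hs
    exact h _ (le_min hs.1 ht0) ((min_le_left _ _).trans hs.2)
  rw [this]

theorem rm_smul {a : ℝ} (ha : 0 ≤ a) (hv : Continuous v) (c : ℝ) (ht0 : 0 ≤ t) (ht1 : t ≤ 1) :
    rm (a * c) (fun s => a * v s) t = a * rm c v t := by
  refine rm_eq_of (continuous_const.mul hv) ht0 ht1 ?_ ?_ ?_
  · exact mul_le_mul_of_nonneg_left (le_rm_left _ _ _) ha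
  · intro s hs hs'
    exact mul_le_mul_of_nonneg_left (le_rm hv ht1 hs hs') ha
  · rcases rm_attained hv ht0 (c := c) with h | ⟨s, hs, hs', h⟩
    · left; rw [h]
    · right; exact ⟨s, hs, hs', by show a * v s = _; rw [h]⟩

end basic

section G

variable {v : ℝ → ℝ} (hv : Continuous v) {c : ℝ} (hc : v 0 ≤ c)

include hv in
/-- Lower bound in the reflection lemma. -/
theorem refl_ge {t s : ℝ} (ht0 : 0 ≤ t) (hts : t ≤ s) (hs1 : s ≤ 1) : rm c v t ≤ 2 * rm c v s - v s := by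
  have h1 := rm_mono (c := c) hv ht0 hts hs1
  have h2 := le_rm (c := c) hv hs1 (ht0.trans hts) le_rfl
  linarith

include hv in
/-- The reflection lemma: the future minimum of the reflected path is the running maximum. -/
theorem refl_att {t : ℝ} (ht0 : 0 ≤ t) (ht1 : t ≤ 1) :
    rm c v t = rm c v 1 ∨ ∃ s, t ≤ s ∧ s ≤ 1 ∧ 2 * rm c v s - v s = rm c v t := by
  by_cases hM : rm c v t = rm c v 1
  · exact Or.inl hM
  right
  have hlt : rm c v t < rm c v 1 := lt_of_le_of_ne (rm_mono hv ht0 ht1 le_rfl) hM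
  set b := rm c v t with hb
  -- a later point where `v` exceeds `b`
  obtain ⟨s1, hs1t, hs1, hvs1⟩ : ∃ s1, t ≤ s1 ∧ s1 ≤ 1 ∧ b < v s1 := by
    rcases rm_attained (c := c) hv zero_le_one with h | ⟨s, hs0, hs1, h⟩
    · exfalso
      have := le_rm_left c v t
      rw [← hb] at this
      rw [h] at hlt
      linarith
    · refine ⟨s, ?_, hs1, by rw [h]; exact hlt⟩
      by_contra hlt'
      push Not at hlt'
      have := le_rm (c := c) hv ht1 hs0 hlt'.le
      rw [← hb] at this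
      linarith
  have hvt : v t ≤ b := le_rm hv ht1 ht0 le_rfl
  -- the least point of `[t, s1]` where `v = b`
  obtain ⟨s', hs', hvs'⟩ := intermediate_value_Icc hs1t hv.continuousOn ⟨hvt, hvs1.le⟩
  have hcl : IsCompact (Icc t s1 ∩ v ⁻¹' {b}) := isCompact_Icc.inter_right (isClosed_singleton.preimage hv)
  obtain ⟨r, ⟨⟨hr1, hr2⟩, hrb⟩, hrmin⟩ := hcl.exists_isLeast ⟨s', hs', hvs'⟩
  have hrb' : v r = b := hrb
  have hbelow : ∀ s, t ≤ s → s ≤ r → v s ≤ b := by
    intro s hts hsr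
    by_contra hcon
    push Not at hcon
    obtain ⟨q, hq, hvq⟩ := intermediate_value_Icc hts hv.continuousOn ⟨hvt, hcon.le⟩
    have h1 : r ≤ q := hrmin ⟨⟨hq.1, hq.2.trans (hsr.trans hr2)⟩, hvq⟩
    have h2 : q = s := le_antisymm hq.2 (hsr.trans h1)
    rw [h2] at hvq
    linarith
  refine ⟨r, hr1, hr2.trans hs1, ?_⟩
  have hMr : rm c v r = b := by
    refine rm_eq_of hv (ht0.trans hr1) (hr2.trans hs1) ?_ ?_ ?_
    · rw [hb]; exact le_rm_left _ _ _
    · intro s hs0 hsr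
      rcases le_total s t with h | h
      · rw [hb]; exact le_rm hv ht1 hs0 h
      · exact hbelow s h hsr
    · exact Or.inr ⟨r, ht0.trans hr1, le_rfl, hrb'⟩
  rw [hMr, hrb']; ring

end G

section tr

/-- Reflection of the path in its running maximum, followed by rotation by a half turn. -/
noncomputable def tr (c : ℝ) (v : ℝ → ℝ) (s : ℝ) : ℝ := -(2 * rm c v (1 - s) - v (1 - s))

theorem tr_cont {v : ℝ → ℝ} (hv : Continuous v) (c : ℝ) : Continuous (tr c v) := by
  have h : Continuous (fun s : ℝ => 1 - s) := continuous_const.sub continuous_id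
  exact ((continuous_const.mul ((rm_cont hv c).comp h)).sub (hv.comp h)).neg

variable {v : ℝ → ℝ} (hv : Continuous v) {c : ℝ} (hc : v 0 ≤ c)

include hv in
theorem rm_tr {s : ℝ} (hs0 : 0 ≤ s) (hs1 : s ≤ 1) : rm (-(rm c v 1)) (tr c v) s = -(rm c v (1 - s)) := by
  refine rm_eq_of (tr_cont hv c) hs0 hs1 ?_ ?_ ?_
  · have := rm_mono (c := c) hv (by linarith : 0 ≤ 1 - s) (by linarith) le_rfl
    linarith
  · intro r hr0 hrs
    have := refl_ge (c := c) hv (by linarith : 0 ≤ 1 - s) (by linarith : 1 - s ≤ 1 - r) (by linarith)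
    unfold tr
    linarith
  · rcases refl_att hv (by linarith : 0 ≤ 1 - s) (by linarith) with h | ⟨r, hr1, hr2, h⟩
    · left; rw [h]
    · right
      refine ⟨1 - r, by linarith, by linarith, ?_⟩
      unfold tr
      rw [sub_sub_cancel, h]

include hv in
theorem tr_tr {s : ℝ} (hs0 : 0 ≤ s) (hs1 : s ≤ 1) : tr (-(rm c v 1)) (tr c v) s = v s := by
  rw [tr, rm_tr hv (by linarith) (by linarith), tr, sub_sub_cancel]
  ring

include hv in
theorem tr_zero_le : tr c v 0 ≤ -(rm c v 1) := by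
  unfold tr
  rw [sub_zero]
  have := le_rm (c := c) hv le_rfl zero_le_one le_rfl
  linarith

include hv hc in
theorem rm_tr_one : -(rm (-(rm c v 1)) (tr c v) 1) = c := by
  rw [rm_tr hv zero_le_one le_rfl, sub_self, rm_zero hc hv, neg_neg]

theorem tr_smul {a : ℝ} (ha : 0 ≤ a) (hv : Continuous v) (c : ℝ) {s : ℝ} (hs0 : 0 ≤ s) (hs1 : s ≤ 1) :
    tr (a * c) (fun s => a * v s) s = a * tr c v s := by
  unfold tr
  rw [rm_smul ha hv c (by linarith) (by linarith)]
  ring

theorem tr_congr {v v' : ℝ → ℝ} (h : ∀ s, 0 ≤ s → s ≤ 1 → v s = v' s) (c : ℝ) {s : ℝ} (hs0 : 0 ≤ s) (hs1 : s ≤ 1) :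
    tr c v s = tr c v' s := by
  unfold tr
  rw [rm_congr h c (by linarith), h (1 - s) (by linarith) (by linarith)]

include hv in
theorem tr_sub_le {v' : ℝ → ℝ} (hv' : Continuous v') {c' K : ℝ} (hK : ∀ s, 0 ≤ s → s ≤ 1 → |v s - v' s| ≤ K)
    (hc : |c - c'| ≤ K) {s : ℝ} (hs0 : 0 ≤ s) (hs1 : s ≤ 1) : |tr c v s - tr c' v' s| ≤ 3 * K := by
  have h1 := rm_sub_le (c := c) hv hv' hK hc (by linarith : 0 ≤ 1 - s) (by linarith)
  have h2 := hK (1 - s) (by linarith) (by linarith)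
  have : tr c v s - tr c' v' s = -(2 * (rm c v (1 - s) - rm c' v' (1 - s))) + (v (1 - s) - v' (1 - s)) := by
    unfold tr; ring
  rw [this]
  refine (abs_add_le _ _).trans ?_
  rw [abs_neg, abs_mul, abs_two]
  linarith

theorem rm_shift {v : ℝ → ℝ} (hv : Continuous v) (c k : ℝ) {t : ℝ} (ht0 : 0 ≤ t) (ht1 : t ≤ 1) :
    rm (c + k) (fun s => v s + k) t = rm c v t + k := by
  refine rm_eq_of (hv.add continuous_const) ht0 ht1 ?_ ?_ ?_
  · linarith [le_rm_left c v t]
  · intro s hs hs'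
    show v s + k ≤ _
    linarith [le_rm (c := c) hv ht1 hs hs']
  · rcases rm_attained hv ht0 (c := c) with h | ⟨s, hs, hs', h⟩
    · left; rw [h]
    · right; exact ⟨s, hs, hs', by show v s + k = _; rw [h]⟩

theorem tr_shift {v : ℝ → ℝ} (hv : Continuous v) (c k : ℝ) {s : ℝ} (hs0 : 0 ≤ s) (hs1 : s ≤ 1) :
    tr (c + k) (fun s => v s + k) s = tr c v s - k := by
  unfold tr
  rw [rm_shift hv c k (by linarith) (by linarith)]
  ring

/-- The involution for paths issued from `0`. -/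
theorem tr_tr_shift {v w : ℝ → ℝ} (hv : Continuous v) (hv0 : v 0 = 0) {c : ℝ}
    (hw : ∀ s, 0 ≤ s → s ≤ 1 → w s = tr c v s - tr c v 0) {s : ℝ} (hs0 : 0 ≤ s) (hs1 : s ≤ 1) :
    tr (rm c v 1 - v 1) w s - tr (rm c v 1 - v 1) w 0 = v s := by
  have hc : rm c v 1 - v 1 = -(rm c v 1) + -(tr c v 0) := by
    unfold tr; rw [sub_zero]; ring
  have h1 : ∀ r, 0 ≤ r → r ≤ 1 → tr (rm c v 1 - v 1) w r = v r - -(tr c v 0) := by
    intro r hr hr'
    have h2 : ∀ s, 0 ≤ s → s ≤ 1 → w s = tr c v s + -(tr c v 0) := fun s hs hs' => by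
      rw [hw s hs hs', sub_eq_add_neg]
    rw [tr_congr h2 _ hr hr', hc, tr_shift (tr_cont hv c) _ _ hr hr', tr_tr hv hr hr']
  rw [h1 s hs0 hs1, h1 0 le_rfl zero_le_one, hv0]
  ring

/-- Key increment inequality for two paths and their running maxima. -/
theorem incr_key {v v' : ℝ → ℝ} (hv : Continuous v) (hv' : Continuous v') {c c' : ℝ} {W : ℝ → ℝ}
    (hW : ∀ s t, 0 ≤ s → s ≤ t → t ≤ 1 → |(v t - v' t) - (v s - v' s)| ≤ W t - W s) {s t : ℝ}
    (hs : 0 ≤ s) (hst : s ≤ t) (ht : t ≤ 1)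
    (hp : rm c' v' t - rm c' v' s ≤ rm c v t - rm c v s) :
    |(rm c v t - rm c' v' t) - (rm c v s - rm c' v' s)| + |(rm c v t - v t) - (rm c' v' t - v' t)| ≤
      (W t - W s) + |(rm c v s - v s) - (rm c' v' s - v' s)| := by
  have ha' : rm c' v' s ≤ rm c' v' t := rm_mono hv' hs hst ht
  have ha : rm c v s ≤ rm c v t := rm_mono hv hs hst ht
  rw [abs_of_nonneg (by linarith : 0 ≤ (rm c v t - rm c' v' t) - (rm c v s - rm c' v' s))]
  have hw := abs_le.mp (hW s t hs hst ht)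
  have hd1 := le_abs_self ((rm c v s - v s) - (rm c' v' s - v' s))
  have hd2 := neg_abs_le ((rm c v s - v s) - (rm c' v' s - v' s))
  rcases ha.eq_or_lt with heq | hlt
  · have h1 : rm c' v' t = rm c' v' s := by linarith
    have h2 : |(rm c v t - v t) - (rm c' v' t - v' t)| ≤ (W t - W s) + |(rm c v s - v s) - (rm c' v' s - v' s)| := by
      rw [h1, ← heq, abs_le]
      constructor <;> linarith [hw.1, hw.2]
    rw [h1, ← heq]
    rw [h1, ← heq] at h2
    linarith
  · obtain ⟨r, hr0, hrt, hr⟩ : ∃ r, 0 ≤ r ∧ r ≤ t ∧ v r = rm c v t := by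
      rcases rm_attained (c := c) hv (hs.trans hst) with h | h
      · have := le_rm_left c v s
        linarith
      · exact h
    have hsr : s ≤ r := by
      by_contra hcon
      push Not at hcon
      have := le_rm (c := c) hv (hst.trans ht) hr0 hcon.le
      linarith
    have hMr : rm c v r = rm c v t := by
      refine le_antisymm (rm_mono hv hr0 hrt ht) ?_
      rw [← hr]; exact le_rm hv (hrt.trans ht) hr0 le_rfl
    have hD' : v' r ≤ rm c' v' r := le_rm hv' (hrt.trans ht) hr0 le_rfl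
    have hq : rm c' v' r ≤ rm c' v' t := rm_mono hv' hr0 hrt ht
    have hw1 := abs_le.mp (hW s r hs hsr (hrt.trans ht))
    have hw2 := abs_le.mp (hW r t hr0 hrt ht)
    have h3 : |(rm c v t - v t) - (rm c' v' t - v' t)| ≤
        (rm c' v' r - v' r) + (rm c' v' t - rm c' v' r) + (W t - W r) := by
      rw [abs_le]
      constructor <;> linarith [hw2.1, hw2.2]
    linarith [hw1.1, hw1.2]

theorem incr_ineq {v v' : ℝ → ℝ} (hv : Continuous v) (hv' : Continuous v') {c c' : ℝ} {W : ℝ → ℝ}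
    (hW : ∀ s t, 0 ≤ s → s ≤ t → t ≤ 1 → |(v t - v' t) - (v s - v' s)| ≤ W t - W s) {s t : ℝ}
    (hs : 0 ≤ s) (hst : s ≤ t) (ht : t ≤ 1) :
    |(rm c v t - rm c' v' t) - (rm c v s - rm c' v' s)| + |(rm c v t - v t) - (rm c' v' t - v' t)| ≤
      (W t - W s) + |(rm c v s - v s) - (rm c' v' s - v' s)| := by
  rcases le_total (rm c' v' t - rm c' v' s) (rm c v t - rm c v s) with h | h
  · exact incr_key hv hv' hW hs hst ht h
  · have h1 := incr_key (c := c') (c' := c) hv' hv (W := W) (fun s t a b d => by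
      have := hW s t a b d
      rwa [show (v' t - v t) - (v' s - v s) = -((v t - v' t) - (v s - v' s)) by ring, abs_neg]) hs hst ht h
    rw [show (rm c' v' t - rm c v t) - (rm c' v' s - rm c v s) = -((rm c v t - rm c' v' t) - (rm c v s - rm c' v' s)) by ring,
      show (rm c' v' t - v' t) - (rm c v t - v t) = -((rm c v t - v t) - (rm c' v' t - v' t)) by ring,
      show (rm c' v' s - v' s) - (rm c v s - v s) = -((rm c v s - v s) - (rm c' v' s - v' s)) by ring,
      abs_neg, abs_neg, abs_neg] at h1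
    exact h1

end tr

end Pool.Agent.Helper495.SB
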