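import Pool.Agent.Helper495.SB.Abs
import Pool.Agent.Helper495.SB.Path

set_option autoImplicit false

/-!
`C[0,1]` is equivalent to the half space `{u | u 0 ≤ u 1}`.
-/

namespace Pool.Agent.Helper495.SB

open Set Metric unitInterval

/-- `C[0,1]`. -/
abbrev CI := C(unitInterval, ℝ)

/-- A continuous function on `[0,1]` as a path on the line. -/
noncomputable def pth (u : CI) : ℝ → ℝ := IccExtend (zero_le_one' ℝ) u

theorem pth_cont (u : CI) : Continuous (pth u) := u.continuous.Icc_extend'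

theorem pth_val (u : CI) (t : unitInterval) : pth u t = u t := IccExtend_val _ _ _

theorem pth_mem (u : CI) {t : ℝ} (ht0 : 0 ≤ t) (ht1 : t ≤ 1) : pth u t = u ⟨t, ht0, ht1⟩ :=
  IccExtend_of_mem _ _ _

/-- The reflection operator at level `c`. -/
noncomputable def A (c : ℝ) (u : CI) : CI := ⟨fun t => tr c (pth u) t, (tr_cont (pth_cont u) c).comp continuous_subtype_val⟩

theorem A_apply (c : ℝ) (u : CI) (t : unitInterval) : A c u t = tr c (pth u) t := rfl

theorem pth_A (c : ℝ) (u : CI) {s : ℝ} (hs0 : 0 ≤ s) (hs1 : s ≤ 1) : pth (A c u) s = tr c (pth u) s := by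
  rw [pth_mem _ hs0 hs1]; rfl

theorem A_A (c : ℝ) (u : CI) : A (-(rm c (pth u) 1)) (A c u) = u := by
  ext t
  rw [A_apply, tr_congr (fun s h0 h1 => pth_A c u h0 h1) _ t.2.1 t.2.2, tr_tr (pth_cont u) t.2.1 t.2.2, pth_val]

theorem rm_pth_A (c : ℝ) (u : CI) {s : ℝ} (hs0 : 0 ≤ s) (hs1 : s ≤ 1) :
    rm (-(rm c (pth u) 1)) (pth (A c u)) s = -(rm c (pth u) (1 - s)) := by
  rw [rm_congr (fun s h0 h1 => pth_A c u h0 h1) _ hs0, rm_tr (pth_cont u) hs0 hs1]

theorem abs_pth_sub (u u' : CI) (s : ℝ) : |pth u s - pth u' s| ≤ ‖u - u'‖ := by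
  have : pth u s - pth u' s = (u - u') (projIcc 0 1 (zero_le_one' ℝ) s) := rfl
  rw [this, ← Real.norm_eq_abs]
  exact (u - u').norm_coe_le_norm _

theorem norm_A_sub {c c' : ℝ} {u u' : CI} (h : |c - c'| ≤ ‖u - u'‖) : ‖A c u - A c' u'‖ ≤ 3 * ‖u - u'‖ := by
  rw [ContinuousMap.norm_le _ (by positivity)]
  intro t
  rw [ContinuousMap.sub_apply, Real.norm_eq_abs, A_apply, A_apply]
  exact tr_sub_le (pth_cont u) (pth_cont u') (fun s _ _ => abs_pth_sub u u' s) h t.2.1 t.2.2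

theorem A_smul {a : ℝ} (ha : 0 ≤ a) (c : ℝ) (u : CI) : A (a * c) (a • u) = a • A c u := by
  ext t
  rw [A_apply, ContinuousMap.smul_apply, A_apply, smul_eq_mul, ← tr_smul ha (pth_cont u) c t.2.1 t.2.2]
  rfl

/-- The maximum of `u`. -/
noncomputable def mx (u : CI) : ℝ := rm (u 0) (pth u) 1

theorem mx_eq (u : CI) {c : ℝ} (h0 : u 0 ≤ c) (h1 : c ≤ mx u) : rm c (pth u) 1 = mx u := by
  refine rm_eq_of (pth_cont u) zero_le_one le_rfl h1 (fun s hs hs' => le_rm (pth_cont u) le_rfl hs hs') ?_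
  rcases rm_attained (c := u 0) (pth_cont u) zero_le_one with h | h
  · left
    have h' : mx u = u 0 := h
    exact le_antisymm (h'.trans_le h0) h1
  · right; exact h

theorem pth_zero (u : CI) : pth u 0 = u 0 := by
  have := pth_val u 0
  simpa using this

theorem pth_one (u : CI) : pth u 1 = u 1 := by
  have := pth_val u 1
  simpa using this

theorem le_mx (u : CI) : u 0 ≤ mx u := le_rm_left _ _ _

theorem le_mx' (u : CI) : u 1 ≤ mx u := by
  rw [← pth_one]; exact le_rm (pth_cont u) le_rfl zero_le_one le_rfl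

theorem A_zero (c : ℝ) (u : CI) : A c u 0 = -(2 * rm c (pth u) 1 - u 1) := by
  rw [A_apply]
  show tr c (pth u) ((0 : unitInterval) : ℝ) = _
  rw [Icc.coe_zero, tr, sub_zero, pth_one]

theorem A_one {c : ℝ} {u : CI} (h : u 0 ≤ c) : A c u 1 = -(2 * c - u 0) := by
  rw [A_apply]
  show tr c (pth u) ((1 : unitInterval) : ℝ) = _
  rw [Icc.coe_one, tr, sub_self, rm_zero (by rw [pth_zero]; exact h) (pth_cont u), pth_zero]

/-- Forward map. -/
noncomputable def Fw (u : CI) : CI := A (u 1) u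

/-- The level used by the backward map. -/
noncomputable def lv (h : CI) : ℝ := (h 0 + mx h) / 2

/-- Backward map. -/
noncomputable def Bw (h : CI) : CI := A (lv h) h

theorem lv_ge (h : CI) : h 0 ≤ lv h := by
  have := le_mx h
  unfold lv; linarith

theorem lv_le (h : CI) : lv h ≤ mx h := by
  have := le_mx h
  unfold lv; linarith

theorem Bw_one (h : CI) : Bw h 1 = -(mx h) := by
  rw [Bw, A_one (lv_ge h), lv]; ring

theorem Bw_zero (h : CI) : Bw h 0 = -(2 * mx h - h 1) := by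
  rw [Bw, A_zero, mx_eq h (lv_ge h) (lv_le h)]

theorem Bw_mem (h : CI) : Bw h 0 ≤ Bw h 1 := by
  rw [Bw_one, Bw_zero]
  have := le_mx' h
  linarith

theorem Fw_Bw (h : CI) : Fw (Bw h) = h := by
  have h1 : Bw h 1 = -(rm (lv h) (pth h) 1) := by rw [Bw_one, mx_eq h (lv_ge h) (lv_le h)]
  rw [Fw, h1, Bw, A_A]

theorem mx_Fw {u : CI} (hu : u 0 ≤ u 1) : mx (Fw u) = -(u 1) := by
  have hv := pth_cont u
  have hge : ∀ s, 0 ≤ s → s ≤ 1 → pth (Fw u) s ≤ -(u 1) := by
    intro s hs hs'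
    rw [Fw, pth_A _ _ hs hs', tr]
    have h1 := le_rm (c := u 1) hv (by linarith : 1 - s ≤ 1) (by linarith) le_rfl
    have h2 := le_rm_left (u 1) (pth u) (1 - s)
    linarith
  refine rm_eq_of (pth_cont _) zero_le_one le_rfl ?_ hge ?_
  · rw [← pth_zero]; exact hge 0 le_rfl zero_le_one
  · have h0 : rm (u 1) (pth u) 0 = u 1 := rm_zero (by rw [pth_zero]; exact hu) hv
    rcases refl_att (c := u 1) hv le_rfl zero_le_one with h | ⟨s, hs, hs', h⟩
    · left
      rw [Fw, A_zero, ← h, h0]; ring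
    · right
      refine ⟨1 - s, by linarith, by linarith, ?_⟩
      rw [Fw, pth_A _ _ (by linarith) (by linarith), tr, sub_sub_cancel, h, h0]

theorem Bw_Fw {u : CI} (hu : u 0 ≤ u 1) : Bw (Fw u) = u := by
  have h1 : lv (Fw u) = -(rm (u 1) (pth u) 1) := by
    rw [lv, mx_Fw hu, Fw, A_zero]; ring
  rw [Bw, h1, Fw, A_A]

theorem abs_mx_sub (u u' : CI) : |mx u - mx u'| ≤ ‖u - u'‖ :=
  rm_sub_le (pth_cont u) (pth_cont u') (fun s _ _ => abs_pth_sub u u' s)
    (by rw [← Real.norm_eq_abs]; exact (u - u').norm_coe_le_norm 0) zero_le_one le_rfl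

theorem mx_smul {a : ℝ} (ha : 0 ≤ a) (u : CI) : mx (a • u) = a * mx u := by
  rw [mx, mx, ← rm_smul ha (pth_cont u) (u 0) zero_le_one le_rfl]
  rfl

theorem half_CI : SEq (univ : Set CI) {u : CI | u 0 ≤ u 1} := by
  have hC : IsCone {u : CI | u 0 ≤ u 1} := fun u hu t ht => by
    show t * u 0 ≤ t * u 1
    exact mul_le_mul_of_nonneg_left hu ht
  refine (SEq.of_hom hC isCone_univ Fw Bw (fun _ _ => mem_univ _) (fun h _ => Bw_mem h) (fun u hu => Bw_Fw hu)
    (fun h _ => Fw_Bw h) ?_ ?_ (L := 3) ?_ ?_ ?_ (mem_univ _)).symm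
  · intro u _ t ht
    exact A_smul ht (u 1) u
  · intro h _ t ht
    rw [Bw, Bw, ← A_smul ht]
    congr 1
    rw [lv, lv, mx_smul ht]
    show (t * h 0 + t * mx h) / 2 = _
    ring
  · intro u _ u' _
    refine norm_A_sub ?_
    rw [← Real.norm_eq_abs]; exact (u - u').norm_coe_le_norm 1
  · intro u _ u' _
    refine norm_A_sub ?_
    have h1 : |u 0 - u' 0| ≤ ‖u - u'‖ := by
      rw [← Real.norm_eq_abs]; exact (u - u').norm_coe_le_norm 0
    have h2 := abs_mx_sub u u'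
    have : lv u - lv u' = ((u 0 - u' 0) + (mx u - mx u')) / 2 := by unfold lv; ring
    rw [this, abs_div, abs_two]
    have h3 := abs_add_le (u 0 - u' 0) (mx u - mx u')
    linarith
  · show (0 : ℝ) ≤ 0
    exact le_rfl

end Pool.Agent.Helper495.SB
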