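import Pool.Agent.Helper495.SB.Hilb

set_option autoImplicit false

/-!
Spheres and balls of Hilbert spaces and `L^p` spaces.
-/

namespace Pool.Agent.Helper495.SB

open Set MeasureTheory Filter Topology Metric

section mazur

variable {α : Type*} [MeasurableSpace α] {μ : Measure α} {r : ℝ}

theorem norm_mzU (hr : 1 ≤ r) (h : Lp ℝ 1 μ) (h1 : ‖h‖ = 1) : ‖(mzU hr h : Lp ℝ (ENNReal.ofReal r) μ)‖ = 1 := by
  have h2 := norm_mzT hr (mzU hr h)
  rw [mzT_mzU, h1] at h2
  have h3 : 0 ≤ ‖(mzU hr h : Lp ℝ (ENNReal.ofReal r) μ)‖ := ENNReal.toReal_nonneg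
  have h4 : ‖(mzU hr h : Lp ℝ (ENNReal.ofReal r) μ)‖ = (‖(mzU hr h : Lp ℝ (ENNReal.ofReal r) μ)‖ ^ r) ^ r⁻¹ := by
    rw [← Real.rpow_mul h3, mul_inv_cancel₀ (by linarith), Real.rpow_one]
  rw [h4, ← h2, Real.one_rpow]

theorem mazur_SEq (hr : 1 ≤ r) [Fact (1 ≤ ENNReal.ofReal r)] :
    SEq (univ : Set (Lp ℝ (ENNReal.ofReal r) μ)) (univ : Set (Lp ℝ 1 μ)) := by
  have hr0 : 0 < r := by linarith
  have hn1 : ∀ f : Lp ℝ (ENNReal.ofReal r) μ, ‖f‖ = 1 → ‖mzT hr f‖ = 1 := fun f hf => by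
    rw [norm_mzT, hf, Real.one_rpow]
  let T : Sph (univ : Set (Lp ℝ (ENNReal.ofReal r) μ)) → Sph (univ : Set (Lp ℝ 1 μ)) :=
    fun f => ⟨mzT hr f.1, mem_univ _, hn1 f.1 f.2.2⟩
  let U : Sph (univ : Set (Lp ℝ 1 μ)) → Sph (univ : Set (Lp ℝ (ENNReal.ofReal r) μ)) :=
    fun h => ⟨mzU hr h.1, mem_univ _, norm_mzU hr h.1 h.2.2⟩
  have hUT : ∀ f, U (T f) = f := fun f => Subtype.ext (mzU_mzT hr f.1)
  have hTU : ∀ h, T (U h) = h := fun h => Subtype.ext (mzT_mzU hr h.1)
  have hTu : UniformContinuous T := by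
    rw [Metric.uniformContinuous_iff]
    intro ε hε
    set δ := ε / (4 * r) with hδ
    have hδ0 : 0 < δ := by positivity
    set C := 2 * r * δ ^ (1 - r) with hC
    have hC0 : 0 < C := by
      have := Real.rpow_pos_of_pos hδ0 (1 - r)
      positivity
    refine ⟨(ε / (2 * C)) ^ r⁻¹, Real.rpow_pos_of_pos (by positivity) _, fun {a b} hab => ?_⟩
    rw [Subtype.dist_eq, dist_eq_norm] at hab ⊢
    have h1 := norm_mzT_sub hr hδ0 a.1 b.1
    rw [a.2.2, b.2.2, Real.one_rpow, ← hC] at h1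
    have h2 : ‖(a : Lp ℝ (ENNReal.ofReal r) μ) - b‖ ^ r < ε / (2 * C) := by
      have := Real.rpow_lt_rpow (norm_nonneg _) hab hr0
      rwa [← Real.rpow_mul (by positivity), inv_mul_cancel₀ hr0.ne', Real.rpow_one] at this
    have h3 : C * ‖(a : Lp ℝ (ENNReal.ofReal r) μ) - b‖ ^ r < ε / 2 := by
      rw [lt_div_iff₀ (by positivity)] at h2
      linarith
    have h4 : r * δ * (1 + 1) = ε / 2 := by rw [hδ]; field_simp; ring
    rw [h4] at h1
    show ‖mzT hr a.1 - mzT hr b.1‖ < ε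
    linarith
  have hUu : UniformContinuous U := by
    rw [Metric.uniformContinuous_iff]
    intro ε hε
    have h2 : (0 : ℝ) < 2 ^ (r - 1) := Real.rpow_pos_of_pos (by norm_num) _
    have h3 : 0 < ε ^ r := Real.rpow_pos_of_pos hε _
    refine ⟨ε ^ r / 2 ^ (r - 1), by positivity, fun {a b} hab => ?_⟩
    rw [Subtype.dist_eq, dist_eq_norm] at hab ⊢
    have h1 := norm_sub_rpow_le hr (mzU hr a.1) (mzU hr b.1)
    rw [mzT_mzU, mzT_mzU] at h1
    rw [lt_div_iff₀ h2] at hab
    have h4 : ‖(mzU hr a.1 : Lp ℝ (ENNReal.ofReal r) μ) - mzU hr b.1‖ ^ r < ε ^ r := by linarith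
    exact (Real.rpow_lt_rpow_iff (norm_nonneg _) hε.le hr0).mp h4
  exact ⟨{ toFun := T, invFun := U, left_inv := hUT, right_inv := hTU,
           uniformContinuous_toFun := hTu, uniformContinuous_invFun := hUu }⟩

theorem mazur_SEq' {p : ENNReal} [hp1 : Fact (1 ≤ p)] (hp : p ≠ ⊤) :
    SEq (univ : Set (Lp ℝ p μ)) (univ : Set (Lp ℝ 1 μ)) := by
  have h1 : 1 ≤ p.toReal := by
    have := (ENNReal.toReal_le_toReal ENNReal.one_ne_top hp).mpr hp1.out
    simpa using this
  have h2 : ENNReal.ofReal p.toReal = p := ENNReal.ofReal_toReal hp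
  generalize p.toReal = r at h1 h2
  subst h2
  exact mazur_SEq h1

end mazur

theorem P_add (g g' : L1I) {s : ℝ} (hs0 : 0 ≤ s) (hs1 : s ≤ 1) : P (g + g') s = P g s + P g' s := by
  have h1 : P g s + P g' s = ∫ x in (0:ℝ)..s, (rep g x + rep g' x) := by
    rw [intervalIntegral.integral_add (rep_integrable g).intervalIntegrable (rep_integrable g').intervalIntegrable]
    rfl
  rw [h1, P_eq _ hs0 hs1]
  refine intervalIntegral.integral_congr_ae ?_
  have := Lp.coeFn_add g g'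
  rw [EventuallyEq, ae_restrict_iff' measurableSet_Ioc] at this
  filter_upwards [this] with x hx hx'
  rw [uIoc_of_le hs0] at hx'
  have hx'' : x ∈ Ioc (0:ℝ) 1 := ⟨hx'.1, hx'.2.trans hs1⟩
  rw [hx hx'', rep_of_mem g hx'', rep_of_mem g' hx'']
  rfl

/-- The integral as a functional. -/
noncomputable def phi1 : L1I →L[ℝ] ℝ :=
  LinearMap.mkContinuous
    { toFun := fun g => P g 1
      map_add' := fun g g' => P_add g g' zero_le_one le_rfl
      map_smul' := fun a g => P_smul a g zero_le_one le_rfl } 1 (fun g => by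
      have h := abs_P_sub g 0 zero_le_one le_rfl
      have h0 : P (0 : L1I) 1 = 0 := by
        have := P_smul 0 (0 : L1I) zero_le_one le_rfl
        rwa [zero_smul, zero_mul] at this
      rw [h0, sub_zero, sub_zero] at h
      rw [one_mul]
      exact h)

instance : Fact ((2 : ENNReal) ≠ ⊤) := ⟨by simp⟩

instance : TopologicalSpace.SeparableSpace L2I := by
  have : SecondCountableTopology L2I := MeasureTheory.Lp.SecondCountableTopology
  infer_instance

theorem good_L1I : Good L1I := by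
  have h12 : SEq (univ : Set L2I) (univ : Set L1I) := mazur_SEq' (by simp)
  obtain ⟨e⟩ := absorb_hilbert (E := L2I) (F := ℝ) L2I_infinite
  have h3 : SEq (univ : Set (L1I × ℝ)) (univ : Set L1I) :=
    (h12.symm.prod_univ ℝ).trans ((SEq.univ_of_linear e).trans h12)
  have hone : Integrable (fun _ : ℝ => (1 : ℝ)) mu01 := integrable_const 1
  refine good_of_functional phi1 (hone.toL1 _) ?_ half_L1 h3
  show P (hone.toL1 _) 1 = 1
  rw [P_toL1 hone zero_le_one le_rfl]
  simp

/-- Every infinite-dimensional Hilbert space is good. -/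
theorem good_hilbert {E : Type*} [NormedAddCommGroup E] [InnerProductSpace ℝ E] [CompleteSpace E]
    (hE : ¬ FiniteDimensional ℝ E) : Good E := by
  have h12 : SEq (univ : Set L2I) (univ : Set L1I) := mazur_SEq' (by simp)
  have hg : Good L2I := good_L1I.of_SEq h12
  obtain ⟨e⟩ := absorb_hilbert (E := E) (F := L2I) hE
  exact (hg.prod E).of_SEq (SEq.univ_of_linear (e.symm.trans (ContinuousLinearEquiv.prodComm ℝ E L2I)))

section compact

variable {X Y : Type*} [NormedAddCommGroup X] [NormedSpace ℝ X] [NormedAddCommGroup Y] [NormedSpace ℝ Y]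

/-- A normed space with compact unit sphere is finite-dimensional. -/
theorem fd_of_compact (h : CompactSpace (Sph (univ : Set X))) : FiniteDimensional ℝ X := by
  have h1 : IsCompact (Sph (univ : Set X)) := isCompact_iff_compactSpace.mpr h
  have h2 : IsCompact ((fun z : ℝ × X => z.1 • z.2) '' (Icc (0:ℝ) 1 ×ˢ Sph (univ : Set X))) :=
    (isCompact_Icc.prod h1).image (by fun_prop)
  have h3 : closedBall (0 : X) 1 ⊆ insert 0 ((fun z : ℝ × X => z.1 • z.2) '' (Icc (0:ℝ) 1 ×ˢ Sph (univ : Set X))) := by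
    intro x hx
    by_cases h0 : x = 0
    · left; exact h0
    · right
      refine ⟨(‖x‖, ‖x‖⁻¹ • x), ⟨⟨norm_nonneg _, mem_closedBall_zero_iff.mp hx⟩,
        mem_sph_normalize isCone_univ (mem_univ _) h0⟩, ?_⟩
      show ‖x‖ • ‖x‖⁻¹ • x = x
      rw [smul_smul, mul_inv_cancel₀ (norm_ne_zero_iff.mpr h0), one_smul]
  have h4 : IsCompact (closedBall (0 : X) 1) := (h2.insert 0).of_isClosed_subset isClosed_closedBall h3
  exact FiniteDimensional.of_isCompact_closedBall ℝ one_pos h4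

theorem SEq.fd (h : SEq (univ : Set X) (univ : Set Y)) (hX : FiniteDimensional ℝ X) : FiniteDimensional ℝ Y := by
  obtain ⟨e⟩ := h
  have hp : ProperSpace X := FiniteDimensional.proper_real X
  have h1 : IsCompact (Sph (univ : Set X)) := by
    rw [← sphere_eq]; exact isCompact_sphere 0 1
  have := isCompact_iff_compactSpace.mp h1
  exact fd_of_compact e.toHomeomorph.compactSpace

end compact

/-- Every infinite-dimensional `L^p` space, `1 ≤ p < ∞`, is good. -/
theorem good_Lp {α : Type*} [MeasurableSpace α] {μ : Measure α} {p : ENNReal} [Fact (1 ≤ p)] (hp : p ≠ ⊤)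
    (h : ¬ FiniteDimensional ℝ (Lp ℝ p μ)) : Good (Lp ℝ p μ) := by
  have h1 : SEq (univ : Set (Lp ℝ p μ)) (univ : Set (Lp ℝ 1 μ)) := mazur_SEq' hp
  have h2 : SEq (univ : Set (Lp ℝ 2 μ)) (univ : Set (Lp ℝ 1 μ)) := mazur_SEq' (by simp)
  have h3 : SEq (univ : Set (Lp ℝ p μ)) (univ : Set (Lp ℝ 2 μ)) := h1.trans h2.symm
  exact (good_hilbert fun hfd => h (h3.symm.fd hfd)).of_SEq h3

end Pool.Agent.Helper495.SB
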