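import Pool.Agent.Helper495.SB.C0
import Pool.Agent.Helper495.SB.Main

set_option autoImplicit false

/-!
Consequences for spaces containing `c₀`.
-/

namespace Pool.Agent.Helper495.SB

open Filter Topology Set Metric

open scoped ZeroAtInfty

/-- The half plane and the quadrant. -/
theorem quad : SEq (Half ℝ) ((Ici (0 : ℝ)) ×ˢ (Ici (0 : ℝ))) := by
  refine SEq.of_hom isCone_half (isCone_Ici.prod isCone_Ici) (fun p => (fY p.2 p.1, max p.2 (-p.1)))
    (fun p => (fA p.2 p.1, min p.2 p.1)) ?_ ?_ ?_ ?_ ?_ ?_ (L := 5) ?_ ?_ zero_mem_half ?_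
  · intro p hp
    have hz : (0 : ℝ) ≤ p.2 := hp.2
    have h1 := (loc1 (a := p.1) hz).1
    refine ⟨?_, ?_⟩
    · rw [mem_Ici]
      have h2 : p.2 ≤ fY p.2 p.1 := by
        conv_lhs => rw [← h1]
        exact min_le_right _ _
      exact hz.trans h2
    · exact hz.trans (le_max_left _ _)
  · intro p hp
    exact ⟨mem_univ _, mem_Ici.mpr (le_min hp.2 hp.1)⟩
  · intro p hp
    have h := loc1 (a := p.1) (show (0 : ℝ) ≤ p.2 from hp.2)
    exact Prod.ext h.2 h.1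
  · intro p hp
    have h := loc2 (z := p.2) (y := p.1) hp.2 hp.1
    exact Prod.ext h.2 h.1
  · intro p _ t ht
    refine Prod.ext ?_ ?_
    · exact fY_smul ht _ _
    · show max (t * p.2) (-(t * p.1)) = t * max p.2 (-p.1)
      rw [mul_max_of_nonneg _ _ ht, mul_neg]
  · intro p _ t ht
    refine Prod.ext ?_ ?_
    · exact fA_smul ht _ _
    · show min (t * p.2) (t * p.1) = t * min p.2 p.1
      rw [mul_min_of_nonneg _ _ ht]
  · intro p _ q _
    have h1 : |p.1 - q.1| ≤ ‖p - q‖ := norm_fst_le (p - q)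
    have h2 : |p.2 - q.2| ≤ ‖p - q‖ := norm_snd_le (p - q)
    rw [Prod.norm_def]
    refine max_le ((fY_sub h2 h1).trans (by linarith [norm_nonneg (p - q)])) ?_
    show |max p.2 (-p.1) - max q.2 (-q.1)| ≤ _
    refine ((abs_max_sub_max_le_max _ _ _ _).trans (max_le h2 ?_)).trans (by linarith [norm_nonneg (p - q)] : ‖p - q‖ ≤ 5 * ‖p - q‖)
    rw [show -p.1 - -q.1 = -(p.1 - q.1) by ring, abs_neg]; exact h1
  · intro p _ q _
    have h1 : |p.1 - q.1| ≤ ‖p - q‖ := norm_fst_le (p - q)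
    have h2 : |p.2 - q.2| ≤ ‖p - q‖ := norm_snd_le (p - q)
    rw [Prod.norm_def]
    refine max_le (fA_sub h2 h1) ?_
    show |min p.2 p.1 - min q.2 q.1| ≤ _
    exact ((abs_min_sub_min_le_max _ _ _ _).trans (max_le h2 h1)).trans (by linarith [norm_nonneg (p - q)])
  · exact ⟨mem_Ici.mpr (le_refl (0 : ℝ)), mem_Ici.mpr (le_refl (0 : ℝ))⟩

section

variable {X : Type*} [NormedAddCommGroup X] [NormedSpace ℝ X]

/-- Rearrangement of coordinates. -/
def rotL (X : Type*) [NormedAddCommGroup X] [NormedSpace ℝ X] : ((X × ℝ) × ℝ) ≃L[ℝ] ((ℝ × ℝ) × X) where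
  toFun z := ((z.2, z.1.2), z.1.1)
  invFun z := ((z.2, z.1.2), z.1.1)
  map_add' _ _ := rfl
  map_smul' _ _ := rfl
  left_inv _ := rfl
  right_inv _ := rfl
  continuous_toFun := by fun_prop
  continuous_invFun := by fun_prop

/-- If the sphere of `X` is equivalent to the ball, then it is equivalent to the sphere of `X × ℝ`. -/
theorem Good.absorb (h : Good X) : SEq (univ : Set (X × ℝ)) (univ : Set X) := by
  have a1 : SEq (univ : Set (X × ℝ)) ((Half X) ×ˢ (univ : Set ℝ)) := by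
    have := SEq.prod h isCone_univ isCone_half (mem_univ _) zero_mem_half (univ : Set ℝ)
    rwa [univ_prod_univ] at this
  have a2 : SEq ((Half X) ×ˢ (univ : Set ℝ)) ((Half ℝ) ×ˢ (univ : Set X)) := by
    refine SEq.of_linear (rotL X) (isCone_half.prod isCone_univ) ⟨zero_mem_half, mem_univ _⟩ fun z => ?_
    constructor
    · rintro ⟨⟨_, h1⟩, _⟩; exact ⟨⟨mem_univ _, h1⟩, mem_univ _⟩
    · rintro ⟨⟨_, h1⟩, _⟩; exact ⟨⟨mem_univ _, h1⟩, mem_univ _⟩
  have a3 : SEq ((Half ℝ) ×ˢ (univ : Set X)) (((Ici (0 : ℝ)) ×ˢ (Ici (0 : ℝ))) ×ˢ (univ : Set X)) :=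
    quad.prod isCone_half (isCone_Ici.prod isCone_Ici) zero_mem_half
      ⟨mem_Ici.mpr (le_refl (0 : ℝ)), mem_Ici.mpr (le_refl (0 : ℝ))⟩ univ
  have a4 : SEq ((Half X) ×ˢ (Ici (0 : ℝ))) (((Ici (0 : ℝ)) ×ˢ (Ici (0 : ℝ))) ×ˢ (univ : Set X)) := by
    refine SEq.of_linear (rotL X) (isCone_half.prod isCone_Ici) ⟨zero_mem_half, mem_Ici.mpr (le_refl (0 : ℝ))⟩ fun z => ?_
    constructor
    · rintro ⟨⟨_, h1⟩, h2⟩; exact ⟨⟨h2, h1⟩, mem_univ _⟩
    · rintro ⟨⟨h2, h1⟩, _⟩; exact ⟨⟨mem_univ _, h1⟩, h2⟩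
  have a5 : SEq ((Half X) ×ˢ (Ici (0 : ℝ))) (Half X) :=
    SEq.prod h.symm isCone_half isCone_univ zero_mem_half (mem_univ _) (Ici 0)
  exact a1.trans (a2.trans (a3.trans (a4.symm.trans (a5.trans h.symm))))

/-- `X` contains a copy of `c₀`. -/
def HasC0 (X : Type*) [NormedAddCommGroup X] [NormedSpace ℝ X] : Prop :=
  ∃ (J : C₀(ℕ, ℝ) →L[ℝ] X) (κ : ℝ), 0 < κ ∧ ∀ v, κ * ‖v‖ ≤ ‖J v‖

theorem abs_C0_le (v : C₀(ℕ, ℝ)) (n : ℕ) : |v n| ≤ ‖v‖ := by
  rw [← ZeroAtInftyContinuousMap.norm_toBCF_eq_norm]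
  exact v.toBCF.norm_coe_le_norm n

theorem exists_functionals (J : C₀(ℕ, ℝ) →L[ℝ] X) {κ : ℝ} (hκ : 0 < κ) (hJ : ∀ v, κ * ‖v‖ ≤ ‖J v‖) :
    ∃ e : ℕ → X →L[ℝ] ℝ, (∀ n x, |e n x| ≤ κ⁻¹ * ‖x‖) ∧ ∀ n v, e n (J v) = v n := by
  have hinj : Function.Injective J := by
    rw [injective_iff_map_eq_zero]
    intro v hv
    have := hJ v
    rw [hv, norm_zero] at this
    have h2 : ‖v‖ ≤ 0 := by
      by_contra hcon
      push Not at hcon
      nlinarith
    exact norm_le_zero_iff.mp h2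
  have key : ∀ n, ∃ g : X →L[ℝ] ℝ, (∀ x, |g x| ≤ κ⁻¹ * ‖x‖) ∧ ∀ v, g (J v) = v n := by
    intro n
    let E := LinearEquiv.ofInjective (J : C₀(ℕ, ℝ) →ₗ[ℝ] X) hinj
    have hE : ∀ v, (E v : X) = J v := fun v => rfl
    let f0 : LinearMap.range (J : C₀(ℕ, ℝ) →ₗ[ℝ] X) →ₗ[ℝ] ℝ :=
      { toFun := fun y => (E.symm y) n
        map_add' := fun a b => by rw [map_add]; rfl
        map_smul' := fun t a => by rw [map_smul]; rfl }
    have hb : ∀ y, ‖f0 y‖ ≤ κ⁻¹ * ‖y‖ := by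
      intro y
      have h1 : |(E.symm y) n| ≤ ‖E.symm y‖ := abs_C0_le _ n
      have h2 := hJ (E.symm y)
      rw [← hE, LinearEquiv.apply_symm_apply] at h2
      show |(E.symm y) n| ≤ _
      refine h1.trans ?_
      rw [inv_mul_eq_div, le_div_iff₀ hκ]
      linarith [h2, Submodule.coe_norm y]
    let f := f0.mkContinuous κ⁻¹ hb
    obtain ⟨g, hg1, hg2⟩ := exists_extension_norm_eq _ f
    refine ⟨g, fun x => ?_, fun v => ?_⟩
    · have h3 : ‖f‖ ≤ κ⁻¹ := f0.mkContinuous_norm_le (by positivity) hb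
      rw [← Real.norm_eq_abs]
      refine (g.le_opNorm x).trans ?_
      rw [hg2]
      gcongr
    · have h4 := hg1 (E v)
      rw [hE] at h4
      rw [h4]
      show (E.symm (E v)) n = v n
      rw [LinearEquiv.symm_apply_apply]
  choose g hg using key
  exact ⟨g, fun n => (hg n).1, fun n => (hg n).2⟩

theorem HasC0.half (h : HasC0 X) : SEq (Half X) (univ : Set (X × ℝ)) := by
  obtain ⟨J, κ, hκ, hJ⟩ := h
  obtain ⟨e, h1, h2⟩ := exists_functionals J hκ hJ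
  exact half_equiv (by positivity : 0 ≤ κ⁻¹) h1 h2

theorem HasC0.good (h : HasC0 X) (h' : SEq (univ : Set X) (univ : Set (X × ℝ))) : Good X :=
  h'.trans h.half.symm

theorem HasC0.ball (h : HasC0 X) : Nonempty (closedBall (0 : X) 1 ≃ᵤ sphere (0 : X × ℝ) 1) := by
  obtain ⟨f⟩ := h.half
  obtain ⟨g⟩ := hemi_ball (W := X)
  rw [sphere_eq]
  exact ⟨g.symm.trans f⟩

theorem HasC0.iff (h : HasC0 X) : Nonempty (sphere (0 : X) 1 ≃ᵤ closedBall (0 : X) 1) ↔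
    Nonempty (sphere (0 : X) 1 ≃ᵤ sphere (0 : X × ℝ) 1) := by
  rw [← good_iff, ← SEq_iff]
  exact ⟨fun hg => hg.absorb.symm, fun h' => h.good h'⟩

end

end Pool.Agent.Helper495.SB
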