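import Mathlib

set_option autoImplicit false

namespace Pool.Agent.Helper495.SB

open Set Metric

/-- The unit sphere of a subset of a normed space. -/
def Sph {E : Type*} [NormedAddCommGroup E] (C : Set E) : Set E := {x | x ∈ C ∧ ‖x‖ = 1}

/-- Uniform equivalence of the unit spheres. -/
def SEq {E F : Type*} [NormedAddCommGroup E] [NormedAddCommGroup F] (C : Set E) (D : Set F) : Prop :=
  Nonempty (Sph C ≃ᵤ Sph D)

/-- Cones: closed under multiplication by positive scalars. -/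
def IsCone {E : Type*} [NormedAddCommGroup E] [NormedSpace ℝ E] (C : Set E) : Prop :=
  ∀ x ∈ C, ∀ t : ℝ, 0 ≤ t → t • x ∈ C

section basic

variable {E F G : Type*} [NormedAddCommGroup E] [NormedAddCommGroup F] [NormedAddCommGroup G]

theorem SEq.refl (C : Set E) : SEq C C := ⟨UniformEquiv.refl _⟩
theorem SEq.symm {C : Set E} {D : Set F} (h : SEq C D) : SEq D C := h.map UniformEquiv.symm
theorem SEq.trans {C : Set E} {D : Set F} {D' : Set G} (h : SEq C D) (h' : SEq D D') : SEq C D' := by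
  obtain ⟨a⟩ := h
  obtain ⟨b⟩ := h'
  exact ⟨a.trans b⟩

end basic

section ext

variable {E F : Type*} [NormedAddCommGroup E] [NormedSpace ℝ E] [NormedAddCommGroup F] [NormedSpace ℝ F]

theorem mem_sph_normalize {C : Set E} (hC : IsCone C) {x : E} (hx : x ∈ C) (h0 : x ≠ 0) :
    (‖x‖⁻¹ • x) ∈ Sph C := by
  refine ⟨hC x hx _ (by positivity), ?_⟩
  rw [norm_smul, norm_inv, norm_norm, inv_mul_cancel₀ (norm_ne_zero_iff.mpr h0)]

open Classical in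
/-- The homogeneous extension of a map of spheres. -/
noncomputable def hext {C : Set E} {D : Set F} (σ : Sph C → Sph D) (x : E) : F :=
  if h : (‖x‖⁻¹ • x) ∈ Sph C then ‖x‖ • (σ ⟨‖x‖⁻¹ • x, h⟩ : F) else 0

theorem hext_zero {C : Set E} {D : Set F} (σ : Sph C → Sph D) : hext σ (0 : E) = 0 := by
  unfold hext
  split_ifs <;> simp

theorem hext_of {C : Set E} {D : Set F} (σ : Sph C → Sph D) {x : E} (h : (‖x‖⁻¹ • x) ∈ Sph C) :
    hext σ x = ‖x‖ • (σ ⟨‖x‖⁻¹ • x, h⟩ : F) := dif_pos h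

theorem norm_hext {C : Set E} {D : Set F} (hC : IsCone C) (σ : Sph C → Sph D) {x : E} (hx : x ∈ C) :
    ‖hext σ x‖ = ‖x‖ := by
  by_cases h0 : x = 0
  · subst h0; rw [hext_zero, norm_zero, norm_zero]
  · rw [hext_of σ (mem_sph_normalize hC hx h0), norm_smul, norm_norm, (σ _).2.2, mul_one]

theorem hext_mem {C : Set E} {D : Set F} (hC : IsCone C) (hD : IsCone D) (h0D : (0 : F) ∈ D)
    (σ : Sph C → Sph D) {x : E} (hx : x ∈ C) : hext σ x ∈ D := by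
  by_cases h0 : x = 0
  · subst h0; rw [hext_zero]; exact h0D
  · rw [hext_of σ (mem_sph_normalize hC hx h0)]
    exact hD _ (σ _).2.1 _ (norm_nonneg _)

theorem hext_hext {C : Set E} {D : Set F} (hC : IsCone C) (hD : IsCone D)
    (σ : Sph C ≃ Sph D) {x : E} (hx : x ∈ C) : hext σ.symm (hext σ x) = x := by
  by_cases h0 : x = 0
  · subst h0; rw [hext_zero, hext_zero]
  · have hn : ‖x‖ ≠ 0 := norm_ne_zero_iff.mpr h0
    have h1 := mem_sph_normalize hC hx h0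
    have h2 := hext_of σ h1
    have h3 : ‖hext σ x‖ = ‖x‖ := norm_hext hC σ hx
    have h4 : ‖hext σ x‖⁻¹ • hext σ x = (σ ⟨‖x‖⁻¹ • x, h1⟩ : F) := by
      rw [h3, h2, smul_smul, inv_mul_cancel₀ hn, one_smul]
    have h5 : (‖hext σ x‖⁻¹ • hext σ x) ∈ Sph D := by rw [h4]; exact (σ _).2
    rw [hext_of σ.symm h5]
    have h6 : (⟨‖hext σ x‖⁻¹ • hext σ x, h5⟩ : Sph D) = σ ⟨‖x‖⁻¹ • x, h1⟩ := Subtype.ext h4
    rw [h6, Equiv.symm_apply_apply, h3, smul_smul, mul_inv_cancel₀ hn, one_smul]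

theorem norm_normalize_sub_le {x y : E} (hx : x ≠ 0) (hy : y ≠ 0) :
    ‖‖x‖⁻¹ • x - ‖y‖⁻¹ • y‖ ≤ 2 * ‖x - y‖ / ‖x‖ := by
  have hxn : 0 < ‖x‖ := norm_pos_iff.mpr hx
  have hyn : 0 < ‖y‖ := norm_pos_iff.mpr hy
  have h1 : ‖x‖⁻¹ • x - ‖y‖⁻¹ • y = ‖x‖⁻¹ • (x - y) + (‖x‖⁻¹ - ‖y‖⁻¹) • y := by
    rw [smul_sub, sub_smul]; abel
  rw [h1]
  refine (norm_add_le _ _).trans ?_
  rw [norm_smul, norm_smul, norm_inv, norm_norm]
  have h2 : ‖(‖x‖⁻¹ - ‖y‖⁻¹ : ℝ)‖ * ‖y‖ ≤ ‖x‖⁻¹ * ‖x - y‖ := by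
    have h3 : (‖x‖⁻¹ - ‖y‖⁻¹ : ℝ) = (‖y‖ - ‖x‖) / (‖x‖ * ‖y‖) := by field_simp
    rw [h3, Real.norm_eq_abs, abs_div, abs_of_pos (mul_pos hxn hyn), div_mul_eq_mul_div, inv_mul_eq_div,
      div_le_div_iff₀ (mul_pos hxn hyn) hxn]
    have h4 : |‖y‖ - ‖x‖| ≤ ‖x - y‖ := by
      rw [norm_sub_rev]; exact abs_norm_sub_norm_le y x
    nlinarith [mul_pos hxn hyn, mul_nonneg (norm_nonneg (x - y)) hyn.le, abs_nonneg (‖y‖ - ‖x‖)]
  calc ‖x‖⁻¹ * ‖x - y‖ + ‖(‖x‖⁻¹ - ‖y‖⁻¹ : ℝ)‖ * ‖y‖ ≤ ‖x‖⁻¹ * ‖x - y‖ + ‖x‖⁻¹ * ‖x - y‖ := by gcongr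
    _ = 2 * ‖x - y‖ / ‖x‖ := by ring

/-- Uniform continuity of the homogeneous extension on the unit ball. -/
theorem hext_uc {C : Set E} {D : Set F} (hC : IsCone C) (σ : Sph C → Sph D) (hσ : UniformContinuous σ)
    {ε : ℝ} (hε : 0 < ε) : ∃ δ > 0, ∀ x ∈ C, ∀ y ∈ C, ‖x‖ ≤ 1 → ‖y‖ ≤ 1 → ‖x - y‖ < δ →
      ‖hext σ x - hext σ y‖ < ε := by
  obtain ⟨δ0, hδ0, h0⟩ := Metric.uniformContinuous_iff.mp hσ (ε / 2) (by linarith)
  refine ⟨min (ε / 8) (δ0 * ε / 16), by positivity, ?_⟩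
  intro x hx y hy hx1 hy1 hxy
  have hxy1 : ‖x - y‖ < ε / 8 := lt_of_lt_of_le hxy (min_le_left _ _)
  have hxy2 : ‖x - y‖ < δ0 * ε / 16 := lt_of_lt_of_le hxy (min_le_right _ _)
  by_cases hsmall : ‖x‖ < ε / 8
  · have h1 : ‖y‖ ≤ ‖x‖ + ‖x - y‖ := by
      have := norm_sub_norm_le y x
      rw [norm_sub_rev] at this
      linarith
    calc ‖hext σ x - hext σ y‖ ≤ ‖hext σ x‖ + ‖hext σ y‖ := norm_sub_le _ _
      _ = ‖x‖ + ‖y‖ := by rw [norm_hext hC σ hx, norm_hext hC σ hy]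
      _ < ε := by linarith
  · have hxe : ε / 8 ≤ ‖x‖ := not_lt.mp hsmall
    have hx0 : x ≠ 0 := by
      rintro rfl
      rw [norm_zero] at hxe; linarith
    have hy0 : y ≠ 0 := by
      rintro rfl
      rw [sub_zero] at hxy1; linarith
    have hxs := mem_sph_normalize hC hx hx0
    have hys := mem_sph_normalize hC hy hy0
    rw [hext_of σ hxs, hext_of σ hys]
    have h1 : dist (⟨‖x‖⁻¹ • x, hxs⟩ : Sph C) ⟨‖y‖⁻¹ • y, hys⟩ < δ0 := by
      rw [Subtype.dist_eq, dist_eq_norm]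
      refine lt_of_le_of_lt (norm_normalize_sub_le hx0 hy0) ?_
      rw [div_lt_iff₀ (by linarith)]
      have : δ0 * (ε / 8) ≤ δ0 * ‖x‖ := by gcongr
      nlinarith
    have h2 := h0 h1
    rw [Subtype.dist_eq, dist_eq_norm] at h2
    have h3 : ‖x‖ • (σ ⟨‖x‖⁻¹ • x, hxs⟩ : F) - ‖y‖ • (σ ⟨‖y‖⁻¹ • y, hys⟩ : F) =
        ‖x‖ • ((σ ⟨‖x‖⁻¹ • x, hxs⟩ : F) - (σ ⟨‖y‖⁻¹ • y, hys⟩ : F)) + (‖x‖ - ‖y‖) • (σ ⟨‖y‖⁻¹ • y, hys⟩ : F) := by
      rw [smul_sub, sub_smul]; abel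
    rw [h3]
    refine lt_of_le_of_lt (norm_add_le _ _) ?_
    rw [norm_smul, norm_smul, norm_norm, (σ _).2.2, mul_one, Real.norm_eq_abs]
    have h4 : |‖x‖ - ‖y‖| ≤ ‖x - y‖ := abs_norm_sub_norm_le x y
    have h5 : ‖x‖ * ‖(σ ⟨‖x‖⁻¹ • x, hxs⟩ : F) - (σ ⟨‖y‖⁻¹ • y, hys⟩ : F)‖ ≤ 1 * ‖(σ ⟨‖x‖⁻¹ • x, hxs⟩ : F) - (σ ⟨‖y‖⁻¹ • y, hys⟩ : F)‖ := by
      gcongr
    linarith

end ext

section prod

variable {E F W : Type*} [NormedAddCommGroup E] [NormedSpace ℝ E] [NormedAddCommGroup F] [NormedSpace ℝ F]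
  [NormedAddCommGroup W] [NormedSpace ℝ W]

/-- One direction of the product map. -/
noncomputable def pmap {C : Set E} {D : Set F} (K : Set W) (hC : IsCone C) (hD : IsCone D) (h0D : (0 : F) ∈ D)
    (σ : Sph C → Sph D) (z : Sph (C ×ˢ K)) : Sph (D ×ˢ K) :=
  ⟨(hext σ z.1.1, z.1.2), ⟨hext_mem hC hD h0D σ z.2.1.1, z.2.1.2⟩, by
    have h := z.2.2
    rw [Prod.norm_def] at h ⊢
    simp only
    rw [norm_hext hC σ z.2.1.1]
    exact h⟩

theorem pmap_uc {C : Set E} {D : Set F} (K : Set W) (hC : IsCone C) (hD : IsCone D) (h0D : (0 : F) ∈ D)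
    (σ : Sph C → Sph D) (hσ : UniformContinuous σ) : UniformContinuous (pmap K hC hD h0D σ) := by
  rw [Metric.uniformContinuous_iff]
  intro ε hε
  obtain ⟨δ, hδ, h⟩ := hext_uc hC σ hσ hε
  refine ⟨min δ ε, lt_min hδ hε, ?_⟩
  intro a b hab
  rw [Subtype.dist_eq, dist_eq_norm, Prod.norm_def, max_lt_iff] at hab
  rw [Subtype.dist_eq, dist_eq_norm, Prod.norm_def, max_lt_iff]
  have hn : ∀ z : Sph (C ×ˢ K), ‖z.1.1‖ ≤ 1 := fun z => by
    have := z.2.2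
    rw [Prod.norm_def] at this
    rw [← this]; exact le_max_left _ _
  refine ⟨?_, lt_of_lt_of_le hab.2 (min_le_right _ _)⟩
  exact h _ a.2.1.1 _ b.2.1.1 (hn a) (hn b) (lt_of_lt_of_le hab.1 (min_le_left _ _))

theorem SEq.prod {C : Set E} {D : Set F} (h : SEq C D) (hC : IsCone C) (hD : IsCone D) (h0C : (0 : E) ∈ C)
    (h0D : (0 : F) ∈ D) (K : Set W) : SEq (C ×ˢ K) (D ×ˢ K) := by
  obtain ⟨σ⟩ := h
  refine ⟨{ toFun := pmap K hC hD h0D σ
            invFun := pmap K hD hC h0C σ.symm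
            left_inv := ?_
            right_inv := ?_
            uniformContinuous_toFun := pmap_uc K hC hD h0D σ σ.uniformContinuous
            uniformContinuous_invFun := pmap_uc K hD hC h0C σ.symm σ.symm.uniformContinuous }⟩
  · intro z
    apply Subtype.ext
    apply Prod.ext
    · exact hext_hext hC hD σ.toEquiv z.2.1.1
    · rfl
  · intro z
    apply Subtype.ext
    apply Prod.ext
    · exact hext_hext hD hC σ.toEquiv.symm z.2.1.1
    · rfl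

end prod

section linear

variable {E F : Type*} [NormedAddCommGroup E] [NormedSpace ℝ E] [NormedAddCommGroup F] [NormedSpace ℝ F]

theorem hom_uc {C : Set E} {D : Set F} (hD : IsCone D) (T : E → F) (hTm : ∀ x ∈ C, T x ∈ D)
    {L a : ℝ} (ha : 0 < a) (hL : ∀ x ∈ C, ∀ y ∈ C, ‖T x - T y‖ ≤ L * ‖x - y‖)
    (hlow : ∀ x ∈ C, a * ‖x‖ ≤ ‖T x‖) :
    ∃ f : Sph C → Sph D, UniformContinuous f ∧ ∀ x, (f x : F) = ‖T x‖⁻¹ • T x := by
  have h0 : ∀ x : Sph C, T x ≠ 0 := fun x => by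
    intro h
    have := hlow x.1 x.2.1
    rw [x.2.2, h, norm_zero] at this
    linarith
  refine ⟨fun x => ⟨‖T x‖⁻¹ • T x, mem_sph_normalize hD (hTm x.1 x.2.1) (h0 x)⟩, ?_, fun x => rfl⟩
  rw [Metric.uniformContinuous_iff]
  intro ε hε
  refine ⟨ε * a / (2 * (|L| + 1)), by positivity, ?_⟩
  intro x y hxy
  rw [Subtype.dist_eq, dist_eq_norm] at hxy ⊢
  refine lt_of_le_of_lt (norm_normalize_sub_le (h0 x) (h0 y)) ?_
  have h1 := hlow x.1 x.2.1
  rw [x.2.2, mul_one] at h1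
  have h2 := hL x.1 x.2.1 y.1 y.2.1
  have h3 : L * ‖(x : E) - y‖ ≤ (|L| + 1) * ‖(x : E) - y‖ := by
    gcongr
    linarith [le_abs_self L]
  rw [div_lt_iff₀ (by linarith)]
  rw [lt_div_iff₀ (by positivity)] at hxy
  nlinarith

/-- A positively homogeneous bi-Lipschitz bijection of cones. -/
theorem SEq.of_hom {C : Set E} {D : Set F} (hC : IsCone C) (hD : IsCone D) (T : E → F) (S : F → E)
    (hTm : ∀ x ∈ C, T x ∈ D) (hSm : ∀ y ∈ D, S y ∈ C) (hST : ∀ x ∈ C, S (T x) = x) (hTS : ∀ y ∈ D, T (S y) = y)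
    (hTh : ∀ x ∈ C, ∀ t : ℝ, 0 ≤ t → T (t • x) = t • T x) (hSh : ∀ y ∈ D, ∀ t : ℝ, 0 ≤ t → S (t • y) = t • S y)
    {L : ℝ} (hTL : ∀ x ∈ C, ∀ y ∈ C, ‖T x - T y‖ ≤ L * ‖x - y‖)
    (hSL : ∀ x ∈ D, ∀ y ∈ D, ‖S x - S y‖ ≤ L * ‖x - y‖) (h0C : (0 : E) ∈ C) (h0D : (0 : F) ∈ D) : SEq C D := by
  have hT0 : T 0 = 0 := by simpa using hTh 0 h0C 0 le_rfl
  have hS0 : S 0 = 0 := by simpa using hSh 0 h0D 0 le_rfl
  have hL1 : 0 < |L| + 1 := by positivity
  have hLs : L ≤ |L| + 1 := by linarith [le_abs_self L]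
  have hTl : ∀ x ∈ C, (|L| + 1)⁻¹ * ‖x‖ ≤ ‖T x‖ := fun x hx => by
    have h1 := hSL (T x) (hTm x hx) 0 h0D
    rw [hST x hx, hS0, sub_zero, sub_zero] at h1
    rw [inv_mul_le_iff₀ hL1]
    exact h1.trans (by gcongr)
  have hSl : ∀ y ∈ D, (|L| + 1)⁻¹ * ‖y‖ ≤ ‖S y‖ := fun y hy => by
    have h1 := hTL (S y) (hSm y hy) 0 h0C
    rw [hTS y hy, hT0, sub_zero, sub_zero] at h1
    rw [inv_mul_le_iff₀ hL1]
    exact h1.trans (by gcongr)
  obtain ⟨f, hf, hf'⟩ := hom_uc hD T hTm (inv_pos.mpr hL1) hTL hTl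
  obtain ⟨g, hg, hg'⟩ := hom_uc hC S hSm (inv_pos.mpr hL1) hSL hSl
  have key : ∀ x : Sph C, g (f x) = x := fun x => by
    apply Subtype.ext
    rw [hg', hf', hSh _ (hTm _ x.2.1) _ (by positivity), hST _ x.2.1]
    have hn : ‖T x‖ ≠ 0 := by
      have := hTl x.1 x.2.1
      rw [x.2.2, mul_one] at this
      have h2 := inv_pos.mpr hL1
      linarith
    rw [norm_smul, norm_inv, norm_norm, x.2.2, mul_one, inv_inv, smul_smul, mul_inv_cancel₀ hn, one_smul]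
  have key2 : ∀ x : Sph D, f (g x) = x := fun x => by
    apply Subtype.ext
    rw [hf', hg', hTh _ (hSm _ x.2.1) _ (by positivity), hTS _ x.2.1]
    have hn : ‖S x‖ ≠ 0 := by
      have := hSl x.1 x.2.1
      rw [x.2.2, mul_one] at this
      have h2 := inv_pos.mpr hL1
      linarith
    rw [norm_smul, norm_inv, norm_norm, x.2.2, mul_one, inv_inv, smul_smul, mul_inv_cancel₀ hn, one_smul]
  exact ⟨{ toFun := f, invFun := g, left_inv := key, right_inv := key2,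
           uniformContinuous_toFun := hf, uniformContinuous_invFun := hg }⟩

theorem isCone_univ : IsCone (univ : Set E) := fun _ _ _ _ => mem_univ _

theorem SEq.of_linear (T : E ≃L[ℝ] F) {C : Set E} {D : Set F} (hC : IsCone C) (h0C : (0 : E) ∈ C)
    (h : ∀ x, x ∈ C ↔ T x ∈ D) : SEq C D := by
  have hD : IsCone D := fun y hy t ht => by
    have h1 : T.symm y ∈ C := (h _).mpr (by rwa [T.apply_symm_apply])
    have h2 := (h _).mp (hC _ h1 t ht)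
    rwa [map_smul, T.apply_symm_apply] at h2
  have h0D : (0 : F) ∈ D := by
    have := (h 0).mp h0C
    rwa [map_zero] at this
  refine SEq.of_hom hC hD T T.symm (fun x hx => (h x).mp hx) (fun y hy => (h _).mpr (by rwa [T.apply_symm_apply]))
    (fun x _ => T.symm_apply_apply x) (fun y _ => T.apply_symm_apply y) (fun x _ t _ => map_smul T t x)
    (fun x _ t _ => map_smul T.symm t x) (L := max ‖(T : E →L[ℝ] F)‖ ‖(T.symm : F →L[ℝ] E)‖) ?_ ?_ h0C h0D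
  · intro x _ y _
    rw [← map_sub]
    refine ((T : E →L[ℝ] F).le_opNorm (x - y)).trans ?_
    gcongr
    exact le_max_left _ _
  · intro x _ y _
    rw [← map_sub]
    refine ((T.symm : F →L[ℝ] E).le_opNorm (x - y)).trans ?_
    gcongr
    exact le_max_right _ _

theorem SEq.univ_of_linear (T : E ≃L[ℝ] F) : SEq (univ : Set E) (univ : Set F) :=
  SEq.of_linear T isCone_univ (mem_univ _) fun _ => by simp

end linear

section ball

variable {W : Type*} [NormedAddCommGroup W] [NormedSpace ℝ W]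

theorem sphere_eq : sphere (0 : W) 1 = Sph (univ : Set W) := by
  ext x; simp [Sph]

/-- The hemisphere is the ball. -/
theorem hemi_ball : Nonempty (Sph ((univ : Set W) ×ˢ (Ici (0 : ℝ))) ≃ᵤ closedBall (0 : W) 1) := by
  have hn : ∀ z : Sph ((univ : Set W) ×ˢ (Ici (0 : ℝ))), 0 ≤ z.1.2 ∧ z.1.2 ≤ 1 ∧ ‖z.1.1‖ ≤ 1 ∧ (z.1.2 = 1 ∨ ‖z.1.1‖ = 1) := by
    intro z
    have h1 := z.2.2
    have h2 : 0 ≤ z.1.2 := z.2.1.2
    rw [Prod.norm_def, Real.norm_eq_abs, abs_of_nonneg h2] at h1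
    refine ⟨h2, by rw [← h1]; exact le_max_right _ _, by rw [← h1]; exact le_max_left _ _, ?_⟩
    rcases max_choice ‖z.1.1‖ z.1.2 with h | h
    · right; rw [← h, h1]
    · left; rw [← h, h1]
  let f : Sph ((univ : Set W) ×ˢ (Ici (0 : ℝ))) → closedBall (0 : W) 1 := fun z =>
    ⟨((2 - z.1.2) / 2) • z.1.1, by
      obtain ⟨h1, h2, h3, _⟩ := hn z
      rw [mem_closedBall_zero_iff, norm_smul, Real.norm_eq_abs, abs_of_nonneg (by linarith)]
      nlinarith [norm_nonneg z.1.1]⟩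
  let g : closedBall (0 : W) 1 → Sph ((univ : Set W) ×ˢ (Ici (0 : ℝ))) := fun y =>
    ⟨((max ‖y.1‖ (1/2))⁻¹ • y.1, min 1 (2 - 2 * ‖y.1‖)), ⟨mem_univ _, by
      have h1 := mem_closedBall_zero_iff.mp y.2
      have h2 : (0 : ℝ) ≤ 2 - 2 * ‖y.1‖ := by linarith
      exact le_min zero_le_one h2⟩, by
      have h1 := mem_closedBall_zero_iff.mp y.2
      have h2 : (0 : ℝ) ≤ 2 - 2 * ‖y.1‖ := by linarith
      have h3 : (0 : ℝ) ≤ min 1 (2 - 2 * ‖y.1‖) := le_min zero_le_one h2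
      have h4 : (0 : ℝ) ≤ max ‖y.1‖ (1/2) := le_max_of_le_left (norm_nonneg _)
      rw [Prod.norm_def]
      simp only
      rw [norm_smul, norm_inv, Real.norm_eq_abs, Real.norm_eq_abs, abs_of_nonneg h3,
        abs_of_nonneg h4]
      rcases le_total ‖y.1‖ (1/2) with h | h
      · rw [max_eq_right h, min_eq_left (by linarith), max_eq_right (by norm_num; linarith)]
      · have h0 : ‖y.1‖ ≠ 0 := by linarith
        rw [max_eq_left h, inv_mul_cancel₀ h0, max_eq_left (min_le_left _ _)]⟩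
  have hgf : ∀ z, g (f z) = z := by
    intro z
    obtain ⟨h1, h2, h3, h4⟩ := hn z
    have hfn : ‖(f z).1‖ = (2 - z.1.2) / 2 * ‖z.1.1‖ := by
      show ‖((2 - z.1.2) / 2) • z.1.1‖ = _
      rw [norm_smul, Real.norm_eq_abs, abs_of_nonneg (by linarith)]
    apply Subtype.ext
    rcases h4 with h4 | h4
    · have h5 : ‖(f z).1‖ ≤ 1/2 := by rw [hfn, h4]; linarith
      apply Prod.ext
      · show (max ‖(f z).1‖ (1/2))⁻¹ • ((2 - z.1.2) / 2) • z.1.1 = z.1.1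
        rw [max_eq_right h5, smul_smul, h4]
        norm_num
      · show min 1 (2 - 2 * ‖(f z).1‖) = z.1.2
        rw [min_eq_left (by linarith), h4]
    · have h5 : ‖(f z).1‖ = (2 - z.1.2) / 2 := by rw [hfn, h4, mul_one]
      have h6 : 1/2 ≤ ‖(f z).1‖ := by rw [h5]; linarith
      apply Prod.ext
      · show (max ‖(f z).1‖ (1/2))⁻¹ • ((2 - z.1.2) / 2) • z.1.1 = z.1.1
        rw [max_eq_left h6, h5, smul_smul, inv_mul_cancel₀ (by linarith), one_smul]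
      · show min 1 (2 - 2 * ‖(f z).1‖) = z.1.2
        rw [h5, min_eq_right (by linarith)]
        ring
  have hfg : ∀ y, f (g y) = y := by
    intro y
    have h1 := mem_closedBall_zero_iff.mp y.2
    apply Subtype.ext
    show ((2 - min 1 (2 - 2 * ‖y.1‖)) / 2) • (max ‖y.1‖ (1/2))⁻¹ • y.1 = y.1
    rcases le_total ‖y.1‖ (1/2) with h | h
    · rw [min_eq_left (by linarith), max_eq_right h, smul_smul]
      norm_num
    · rw [min_eq_right (by linarith), max_eq_left h, smul_smul]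
      have h0 : ‖y.1‖ ≠ 0 := by linarith
      have : (2 - (2 - 2 * ‖y.1‖)) / 2 * ‖y.1‖⁻¹ = 1 := by field_simp; ring
      rw [this, one_smul]
  have hfu : UniformContinuous f := by
    refine LipschitzWith.uniformContinuous (K := 2) ?_
    refine LipschitzWith.of_dist_le_mul fun a b => ?_
    rw [Subtype.dist_eq, Subtype.dist_eq, dist_eq_norm, dist_eq_norm, Prod.norm_def]
    show ‖((2 - a.1.2) / 2) • a.1.1 - ((2 - b.1.2) / 2) • b.1.1‖ ≤ 2 * max ‖a.1.1 - b.1.1‖ ‖a.1.2 - b.1.2‖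
    obtain ⟨h1, h2, h3, h4⟩ := hn a
    obtain ⟨h1', h2', h3', h4'⟩ := hn b
    have e : ((2 - a.1.2) / 2) • a.1.1 - ((2 - b.1.2) / 2) • b.1.1 =
      ((2 - a.1.2) / 2) • (a.1.1 - b.1.1) + ((b.1.2 - a.1.2) / 2) • b.1.1 := by
      rw [smul_sub, show (b.1.2 - a.1.2) / 2 = (2 - a.1.2) / 2 - (2 - b.1.2) / 2 by ring, sub_smul]
      abel
    rw [e]
    refine (norm_add_le _ _).trans ?_
    rw [norm_smul, norm_smul, Real.norm_eq_abs, Real.norm_eq_abs, Real.norm_eq_abs, abs_of_nonneg (by linarith : 0 ≤ (2 - a.1.2) / 2), abs_div,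
      abs_of_pos (by norm_num : (0:ℝ) < 2), abs_sub_comm]
    have h5 : (2 - a.1.2) / 2 * ‖a.1.1 - b.1.1‖ ≤ 1 * max ‖a.1.1 - b.1.1‖ |a.1.2 - b.1.2| := by
      gcongr
      · linarith
      · exact le_max_left _ _
    have h6 : |a.1.2 - b.1.2| / 2 * ‖b.1.1‖ ≤ max ‖a.1.1 - b.1.1‖ |a.1.2 - b.1.2| * 1 := by
      gcongr
      have := le_max_right ‖a.1.1 - b.1.1‖ |a.1.2 - b.1.2|
      have h7 := abs_nonneg (a.1.2 - b.1.2)
      linarith
    linarith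
  have hgu : UniformContinuous g := by
    refine LipschitzWith.uniformContinuous (K := 6) ?_
    refine LipschitzWith.of_dist_le_mul fun a b => ?_
    rw [Subtype.dist_eq, Subtype.dist_eq, dist_eq_norm, dist_eq_norm, Prod.norm_def]
    have h1 := mem_closedBall_zero_iff.mp a.2
    have h2 := mem_closedBall_zero_iff.mp b.2
    refine max_le ?_ ?_
    · show ‖(max ‖a.1‖ (1/2))⁻¹ • a.1 - (max ‖b.1‖ (1/2))⁻¹ • b.1‖ ≤ 6 * ‖a.1 - b.1‖
      set p := max ‖a.1‖ (1/2) with hp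
      set q := max ‖b.1‖ (1/2) with hq
      have hp0 : 1/2 ≤ p := le_max_right _ _
      have hq0 : 1/2 ≤ q := le_max_right _ _
      have hpq : |q - p| ≤ ‖a.1 - b.1‖ := by
        rw [abs_sub_comm]
        refine (abs_max_sub_max_le_abs _ _ _).trans ?_
        exact abs_norm_sub_norm_le _ _
      have e : p⁻¹ • a.1 - q⁻¹ • b.1 = p⁻¹ • (a.1 - b.1) + (p⁻¹ - q⁻¹) • b.1 := by
        rw [smul_sub, sub_smul]; abel
      rw [e]
      refine (norm_add_le _ _).trans ?_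
      rw [norm_smul, norm_smul, norm_inv, Real.norm_eq_abs, Real.norm_eq_abs, abs_of_pos (by linarith : 0 < p)]
      have h3 : p⁻¹ ≤ 2 := by
        rw [inv_le_comm₀ (by linarith) (by norm_num)]; linarith
      have h4 : |p⁻¹ - q⁻¹| ≤ 4 * ‖a.1 - b.1‖ := by
        have : p⁻¹ - q⁻¹ = (q - p) * (p⁻¹ * q⁻¹) := by field_simp
        rw [this, abs_mul, abs_of_pos (by positivity : 0 < p⁻¹ * q⁻¹)]
        have h5 : q⁻¹ ≤ 2 := by
          rw [inv_le_comm₀ (by linarith) (by norm_num)]; linarith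
        have h6 : p⁻¹ * q⁻¹ ≤ 2 * 2 := by
          gcongr
        calc |q - p| * (p⁻¹ * q⁻¹) ≤ ‖a.1 - b.1‖ * (2 * 2) := by gcongr
          _ = 4 * ‖a.1 - b.1‖ := by ring
      calc p⁻¹ * ‖a.1 - b.1‖ + |p⁻¹ - q⁻¹| * ‖b.1‖ ≤ 2 * ‖a.1 - b.1‖ + 4 * ‖a.1 - b.1‖ * 1 := by gcongr
        _ = 6 * ‖a.1 - b.1‖ := by ring
    · show ‖min 1 (2 - 2 * ‖a.1‖) - min 1 (2 - 2 * ‖b.1‖)‖ ≤ 6 * ‖a.1 - b.1‖
      rw [Real.norm_eq_abs]
      have h3 : |min 1 (2 - 2 * ‖a.1‖) - min 1 (2 - 2 * ‖b.1‖)| ≤ |(2 - 2 * ‖a.1‖) - (2 - 2 * ‖b.1‖)| := by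
        have := abs_min_sub_min_le_max (1:ℝ) (2 - 2 * ‖a.1‖) 1 (2 - 2 * ‖b.1‖)
        simpa using this
      refine h3.trans ?_
      have h4 : (2 - 2 * ‖a.1‖) - (2 - 2 * ‖b.1‖) = 2 * (‖b.1‖ - ‖a.1‖) := by ring
      rw [h4, abs_mul, abs_of_pos (by norm_num : (0:ℝ) < 2), abs_sub_comm]
      have := abs_norm_sub_norm_le a.1 b.1
      have h5 := norm_nonneg (a.1 - b.1)
      linarith
  exact ⟨{ toFun := f, invFun := g, left_inv := hgf, right_inv := hfg,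
           uniformContinuous_toFun := hfu, uniformContinuous_invFun := hgu }⟩

end ball

end Pool.Agent.Helper495.SB
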