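import Pool.Agent.Helper495.SB.Abs

set_option autoImplicit false

/-!
The Mazur map between the unit spheres of `L^p` and `L^1`.
-/

namespace Pool.Agent.Helper495.SB

open Set MeasureTheory Filter Topology

/-- Signed power. -/
noncomputable def mz (r x : ℝ) : ℝ := x * |x| ^ (r - 1)

theorem abs_mz {r : ℝ} (hr : 0 < r) (x : ℝ) : |mz r x| = |x| ^ r := by
  by_cases hx : x = 0
  · subst hx; simp [mz, Real.zero_rpow hr.ne']
  · have h : 0 < |x| := abs_pos.mpr hx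
    rw [mz, abs_mul, abs_of_nonneg (Real.rpow_nonneg h.le _), Real.rpow_sub_one h.ne']
    field_simp

theorem mz_mz {r : ℝ} (hr : 0 < r) (s x : ℝ) : mz s (mz r x) = mz (s * r) x := by
  by_cases hx : x = 0
  · subst hx; simp [mz]
  · have h : 0 < |x| := abs_pos.mpr hx
    rw [mz, abs_mz hr, mz, mz, mul_assoc, ← Real.rpow_mul h.le, ← Real.rpow_add h]
    congr 2
    ring

theorem mz_one (x : ℝ) : mz 1 x = x := by simp [mz]

theorem mz_inv_mz {r : ℝ} (hr : 0 < r) (x : ℝ) : mz (1 / r) (mz r x) = x := by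
  rw [mz_mz hr, one_div_mul_cancel hr.ne', mz_one]

theorem mz_mz_inv {r : ℝ} (hr : 0 < r) (x : ℝ) : mz r (mz (1 / r) x) = x := by
  rw [mz_mz (by positivity), mul_one_div_cancel hr.ne', mz_one]

theorem mz_of_nonneg {r : ℝ} (hr : 0 < r) {x : ℝ} (hx : 0 ≤ x) : mz r x = x ^ r := by
  have h := abs_mz hr x
  have h2 : 0 ≤ mz r x := mul_nonneg hx (Real.rpow_nonneg (abs_nonneg x) (r - 1))
  rwa [abs_of_nonneg h2, abs_of_nonneg hx] at h

theorem mz_neg (r x : ℝ) : mz r (-x) = -(mz r x) := by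
  rw [mz, mz, abs_neg]; ring

theorem rpow_sub_le {r : ℝ} (hr : 1 ≤ r) {a b : ℝ} (hb : 0 ≤ b) (hab : b ≤ a) :
    a ^ r - b ^ r ≤ r * a ^ (r - 1) * (a - b) := by
  rcases (hb.trans hab).eq_or_lt with h | ha
  · have hb0 : b = 0 := le_antisymm (h ▸ hab) hb
    rw [← h, hb0]; simp
  · have h1 := one_add_mul_self_le_rpow_one_add (s := (b - a) / a) (by rw [le_div_iff₀ ha]; linarith) hr
    have h2 : 1 + (b - a) / a = b / a := by field_simp; ring
    rw [h2, Real.div_rpow hb ha.le] at h1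
    have h3 : 0 < a ^ r := Real.rpow_pos_of_pos ha r
    rw [le_div_iff₀ h3] at h1
    have h4 : a ^ (r - 1) = a ^ r / a := Real.rpow_sub_one ha.ne' r
    rw [h4]
    have h5 : (1 + r * ((b - a) / a)) * a ^ r = a ^ r - r * (a ^ r / a) * (a - b) := by field_simp; ring
    linarith

theorem mz_up {r : ℝ} (hr : 1 ≤ r) (a b : ℝ) :
    |mz r a - mz r b| ≤ r * |a - b| * (|a| ^ (r - 1) + |b| ^ (r - 1)) := by
  have hr0 : 0 < r := by linarith
  -- nonnegative ordered case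
  have key : ∀ x y : ℝ, 0 ≤ y → y ≤ x → |mz r x - mz r y| ≤ r * |x - y| * (|x| ^ (r - 1) + |y| ^ (r - 1)) := by
    intro x y hy hxy
    have hx := hy.trans hxy
    have h0 : y ^ r ≤ x ^ r := Real.rpow_le_rpow hy hxy hr0.le
    rw [mz_of_nonneg hr0 hx, mz_of_nonneg hr0 hy, abs_of_nonneg (sub_nonneg.mpr h0), abs_of_nonneg (sub_nonneg.mpr hxy),
      abs_of_nonneg hx, abs_of_nonneg hy]
    have h1 := rpow_sub_le hr hy hxy
    have h2 : 0 ≤ y ^ (r - 1) := Real.rpow_nonneg hy _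
    have h3 : 0 ≤ r * (x - y) * y ^ (r - 1) := mul_nonneg (mul_nonneg hr0.le (sub_nonneg.mpr hxy)) h2
    nlinarith
  -- opposite signs
  have key2 : ∀ x y : ℝ, 0 ≤ x → 0 ≤ y → |mz r x - mz r (-y)| ≤ r * |x - -y| * (|x| ^ (r - 1) + |-y| ^ (r - 1)) := by
    intro x y hx hy
    have hxr : x * |x| ^ (r - 1) = mz r x := rfl
    have hyr : y * |y| ^ (r - 1) = mz r y := rfl
    have p1 : 0 ≤ |x| ^ (r - 1) := Real.rpow_nonneg (abs_nonneg _) _
    have p2 : 0 ≤ |y| ^ (r - 1) := Real.rpow_nonneg (abs_nonneg _) _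
    rw [mz_neg, sub_neg_eq_add, sub_neg_eq_add, abs_neg, ← hxr, ← hyr,
      abs_of_nonneg (by positivity : 0 ≤ x * |x| ^ (r - 1) + y * |y| ^ (r - 1)),
      abs_of_nonneg (by positivity : 0 ≤ x + y)]
    have h1 : x * |x| ^ (r - 1) + y * |y| ^ (r - 1) ≤ (x + y) * (|x| ^ (r - 1) + |y| ^ (r - 1)) := by nlinarith
    have h2 : 0 ≤ (x + y) * (|x| ^ (r - 1) + |y| ^ (r - 1)) := by positivity
    nlinarith
  have swap : ∀ x y : ℝ, |mz r x - mz r y| ≤ r * |x - y| * (|x| ^ (r - 1) + |y| ^ (r - 1)) →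
      |mz r y - mz r x| ≤ r * |y - x| * (|y| ^ (r - 1) + |x| ^ (r - 1)) := by
    intro x y h
    rwa [abs_sub_comm (mz r y), abs_sub_comm y x, add_comm (|y| ^ (r - 1))]
  have neg : ∀ x y : ℝ, |mz r x - mz r y| ≤ r * |x - y| * (|x| ^ (r - 1) + |y| ^ (r - 1)) →
      |mz r (-x) - mz r (-y)| ≤ r * |-x - -y| * (|-x| ^ (r - 1) + |-y| ^ (r - 1)) := by
    intro x y h
    rw [mz_neg, mz_neg, abs_neg, abs_neg, show -(mz r x) - -(mz r y) = -(mz r x - mz r y) by ring,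
      show -x - -y = -(x - y) by ring, abs_neg, abs_neg]
    exact h
  rcases le_total 0 a with ha | ha <;> rcases le_total 0 b with hb | hb
  · rcases le_total b a with h | h
    · exact key a b hb h
    · exact swap b a (key b a ha h)
  · have := key2 a (-b) ha (by linarith)
    rwa [neg_neg] at this
  · have := swap _ _ (key2 b (-a) hb (by linarith))
    rwa [neg_neg] at this
  · rcases le_total (-b) (-a) with h | h
    · have := neg _ _ (key (-a) (-b) (by linarith) h)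
      rwa [neg_neg, neg_neg] at this
    · have := neg _ _ (swap _ _ (key (-b) (-a) (by linarith) h))
      rwa [neg_neg, neg_neg] at this

theorem real_add_rpow_le {p : ℝ} (hp : 1 ≤ p) {a b : ℝ} (ha : 0 ≤ a) (hb : 0 ≤ b) : a ^ p + b ^ p ≤ (a + b) ^ p := by
  have := NNReal.add_rpow_le_rpow_add (p := p) ⟨a, ha⟩ ⟨b, hb⟩ hp
  exact_mod_cast this

theorem real_rpow_add_le {p : ℝ} (hp : 1 ≤ p) {a b : ℝ} (ha : 0 ≤ a) (hb : 0 ≤ b) :
    (a + b) ^ p ≤ 2 ^ (p - 1) * (a ^ p + b ^ p) := by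
  have := NNReal.rpow_add_le_mul_rpow_add_rpow (p := p) ⟨a, ha⟩ ⟨b, hb⟩ hp
  exact_mod_cast this

theorem mz_low {r : ℝ} (hr : 1 ≤ r) (x y : ℝ) : |x - y| ^ r ≤ 2 ^ (r - 1) * |mz r x - mz r y| := by
  have hr0 : 0 < r := by linarith
  have h2 : (1 : ℝ) ≤ 2 ^ (r - 1) := Real.one_le_rpow (by norm_num) (by linarith)
  have key : ∀ a b : ℝ, 0 ≤ b → b ≤ a → |a - b| ^ r ≤ 2 ^ (r - 1) * |mz r a - mz r b| := by
    intro a b hb hab
    have ha := hb.trans hab
    have h0 : b ^ r ≤ a ^ r := Real.rpow_le_rpow hb hab hr0.le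
    rw [mz_of_nonneg hr0 ha, mz_of_nonneg hr0 hb, abs_of_nonneg (sub_nonneg.mpr h0), abs_of_nonneg (sub_nonneg.mpr hab)]
    have h1 := real_add_rpow_le hr (sub_nonneg.mpr hab) hb
    rw [sub_add_cancel] at h1
    nlinarith
  have key2 : ∀ a b : ℝ, 0 ≤ a → 0 ≤ b → |a - -b| ^ r ≤ 2 ^ (r - 1) * |mz r a - mz r (-b)| := by
    intro a b ha hb
    have p1 : 0 ≤ a ^ r := Real.rpow_nonneg ha _
    have p2 : 0 ≤ b ^ r := Real.rpow_nonneg hb _
    rw [mz_neg, sub_neg_eq_add, sub_neg_eq_add, mz_of_nonneg hr0 ha, mz_of_nonneg hr0 hb,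
      abs_of_nonneg (by positivity : 0 ≤ a + b), abs_of_nonneg (by positivity : 0 ≤ a ^ r + b ^ r)]
    exact real_rpow_add_le hr ha hb
  have swap : ∀ a b : ℝ, |a - b| ^ r ≤ 2 ^ (r - 1) * |mz r a - mz r b| →
      |b - a| ^ r ≤ 2 ^ (r - 1) * |mz r b - mz r a| := by
    intro a b h
    rwa [abs_sub_comm b, abs_sub_comm (mz r b)]
  have neg : ∀ a b : ℝ, |a - b| ^ r ≤ 2 ^ (r - 1) * |mz r a - mz r b| →
      |-a - -b| ^ r ≤ 2 ^ (r - 1) * |mz r (-a) - mz r (-b)| := by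
    intro a b h
    rw [mz_neg, mz_neg, show -(mz r a) - -(mz r b) = -(mz r a - mz r b) by ring,
      show -a - -b = -(a - b) by ring, abs_neg, abs_neg]
    exact h
  rcases le_total 0 x with ha | ha <;> rcases le_total 0 y with hb | hb
  · rcases le_total y x with h | h
    · exact key x y hb h
    · exact swap y x (key y x ha h)
  · have := key2 x (-y) ha (by linarith)
    rwa [neg_neg] at this
  · have := swap _ _ (key2 y (-x) hb (by linarith))
    rwa [neg_neg] at this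
  · rcases le_total (-y) (-x) with h | h
    · have := neg _ _ (key (-x) (-y) (by linarith) h)
      rwa [neg_neg, neg_neg] at this
    · have := neg _ _ (swap _ _ (key (-y) (-x) (by linarith) h))
      rwa [neg_neg, neg_neg] at this

/-- Splitting inequality. -/
theorem split_ineq {r δ : ℝ} (hr : 1 ≤ r) (hδ : 0 < δ) {x y : ℝ} (hx : 0 ≤ x) (hy : 0 ≤ y) :
    x * y ^ (r - 1) ≤ δ * y ^ r + δ ^ (1 - r) * x ^ r := by
  have hr0 : 0 < r := by linarith
  have p1 : 0 ≤ y ^ (r - 1) := Real.rpow_nonneg hy _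
  have p2 : 0 ≤ y ^ r := Real.rpow_nonneg hy _
  have p3 : 0 ≤ x ^ r := Real.rpow_nonneg hx _
  have p4 : 0 < δ ^ (1 - r) := Real.rpow_pos_of_pos hδ _
  rcases hy.eq_or_lt with rfl | hy0
  · rcases hr.eq_or_lt with rfl | hr1
    · simp
    · rw [Real.zero_rpow (by linarith : r - 1 ≠ 0), Real.zero_rpow hr0.ne']
      have : 0 ≤ δ ^ (1 - r) * x ^ r := by positivity
      linarith
  · rcases le_total x (δ * y) with h | h
    · have h1 : x * y ^ (r - 1) ≤ δ * y * y ^ (r - 1) := by gcongr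
      have h2 : y * y ^ (r - 1) = y ^ r := by rw [Real.rpow_sub_one hy0.ne']; field_simp
      have : 0 ≤ δ ^ (1 - r) * x ^ r := by positivity
      rw [mul_assoc, h2] at h1
      linarith
    · have hx0 : 0 < x := lt_of_lt_of_le (by positivity) h
      have h1 : y ≤ x / δ := by rw [le_div_iff₀ hδ]; linarith
      have h2 : y ^ (r - 1) ≤ (x / δ) ^ (r - 1) := Real.rpow_le_rpow hy h1 (by linarith)
      have h3 : x * (x / δ) ^ (r - 1) = δ ^ (1 - r) * x ^ r := by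
        rw [Real.div_rpow hx hδ.le, show (1 - r) = -(r - 1) by ring, Real.rpow_neg hδ.le, Real.rpow_sub_one hx0.ne']
        field_simp
      have h4 : x * y ^ (r - 1) ≤ x * (x / δ) ^ (r - 1) := by gcongr
      have : 0 ≤ δ * y ^ r := by positivity
      linarith

theorem mz_up' {r δ : ℝ} (hr : 1 ≤ r) (hδ : 0 < δ) (a b : ℝ) :
    |mz r a - mz r b| ≤ r * δ * (|a| ^ r + |b| ^ r) + 2 * r * δ ^ (1 - r) * |a - b| ^ r := by
  have h0 := mz_up hr a b
  have h1 := split_ineq hr hδ (abs_nonneg (a - b)) (abs_nonneg a)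
  have h2 := split_ineq hr hδ (abs_nonneg (a - b)) (abs_nonneg b)
  have hr0 : 0 < r := by linarith
  nlinarith

theorem measurable_mz (r : ℝ) : Measurable (mz r) := by
  unfold mz
  exact measurable_id.mul ((measurable_norm.comp measurable_id).pow_const (r - 1))

section Lp

variable {α : Type*} [MeasurableSpace α] {μ : Measure α} {r : ℝ}

/-- The exponent. -/
noncomputable def pex (r : ℝ) : ENNReal := ENNReal.ofReal r

theorem Lp_int (hr : 1 ≤ r) (f : Lp ℝ (ENNReal.ofReal r) μ) : Integrable (fun x => |f x| ^ r) μ := by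
  have hr0 : 0 < r := by linarith
  have := (Lp.memLp f).integrable_norm_rpow (by simpa using hr0) (by simp)
  rw [ENNReal.toReal_ofReal hr0.le] at this
  exact this

theorem Lp_norm_rpow (hr : 1 ≤ r) (f : Lp ℝ (ENNReal.ofReal r) μ) : ‖f‖ ^ r = ∫ x, |f x| ^ r ∂μ := by
  have hr0 : 0 < r := by linarith
  have h1 := (Lp.memLp f).eLpNorm_eq_integral_rpow_norm (by simpa using hr0) (by simp)
  rw [ENNReal.toReal_ofReal hr0.le] at h1
  have h2 : 0 ≤ ∫ x, |f x| ^ r ∂μ := integral_nonneg fun x => Real.rpow_nonneg (abs_nonneg _) _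
  have h3 : 0 ≤ (∫ x, |f x| ^ r ∂μ) ^ r⁻¹ := Real.rpow_nonneg h2 _
  rw [Lp.norm_def, h1]
  simp only [Real.norm_eq_abs]
  rw [ENNReal.toReal_ofReal h3, ← Real.rpow_mul h2, inv_mul_cancel₀ hr0.ne', Real.rpow_one]

theorem mz_int (hr : 1 ≤ r) (f : Lp ℝ (ENNReal.ofReal r) μ) : Integrable (fun x => mz r (f x)) μ := by
  refine (Lp_int hr f).mono' ((measurable_mz r).comp_aemeasurable (Lp.aestronglyMeasurable f).aemeasurable).aestronglyMeasurable ?_
  refine Eventually.of_forall fun x => ?_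
  rw [Real.norm_eq_abs, abs_mz (by linarith)]

/-- The Mazur map on `L^p`. -/
noncomputable def mzT (hr : 1 ≤ r) (f : Lp ℝ (ENNReal.ofReal r) μ) : Lp ℝ 1 μ := (mz_int hr f).toL1 _

theorem norm_mzT (hr : 1 ≤ r) (f : Lp ℝ (ENNReal.ofReal r) μ) : ‖mzT hr f‖ = ‖f‖ ^ r := by
  rw [mzT, L1.norm_of_fun_eq_integral_norm, Lp_norm_rpow hr]
  refine integral_congr_ae (Eventually.of_forall fun x => ?_)
  simp only [Real.norm_eq_abs]
  rw [abs_mz (by linarith)]

theorem norm_mzT_sub (hr : 1 ≤ r) {δ : ℝ} (hδ : 0 < δ) (f g : Lp ℝ (ENNReal.ofReal r) μ) :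
    ‖mzT hr f - mzT hr g‖ ≤ r * δ * (‖f‖ ^ r + ‖g‖ ^ r) + 2 * r * δ ^ (1 - r) * ‖f - g‖ ^ r := by
  have i1 := Lp_int hr f
  have i2 := Lp_int hr g
  have i3 := Lp_int hr (f - g)
  have hI : Integrable (fun x => r * δ * (|f x| ^ r + |g x| ^ r)) μ := (i1.add i2).const_mul _
  have hJ : Integrable (fun x => 2 * r * δ ^ (1 - r) * |(f - g : Lp ℝ (ENNReal.ofReal r) μ) x| ^ r) μ := i3.const_mul _
  rw [mzT, mzT, ← Integrable.toL1_sub, L1.norm_of_fun_eq_integral_norm, Lp_norm_rpow hr, Lp_norm_rpow hr, Lp_norm_rpow hr,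
    ← integral_add i1 i2, ← integral_const_mul, ← integral_const_mul, ← integral_add hI hJ]
  refine integral_mono_ae ((mz_int hr f).sub (mz_int hr g)).norm (hI.add hJ) ?_
  filter_upwards [Lp.coeFn_sub f g] with x hx
  rw [hx]
  exact mz_up' hr hδ (f x) (g x)

theorem mz_memLp (hr : 1 ≤ r) (h : Lp ℝ 1 μ) : MemLp (fun x => mz (1 / r) (h x)) (ENNReal.ofReal r) μ := by
  have hr0 : 0 < r := by linarith
  have hm : AEStronglyMeasurable (fun x => mz (1 / r) (h x)) μ :=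
    ((measurable_mz (1 / r)).comp_aemeasurable (Lp.aestronglyMeasurable h).aemeasurable).aestronglyMeasurable
  rw [← integrable_norm_rpow_iff hm (by simpa using hr0) (by simp), ENNReal.toReal_ofReal hr0.le]
  refine (L1.integrable_coeFn h).norm.congr (Eventually.of_forall fun x => ?_)
  simp only [Real.norm_eq_abs]
  rw [← abs_mz hr0, mz_mz_inv hr0]

/-- The inverse Mazur map. -/
noncomputable def mzU (hr : 1 ≤ r) (h : Lp ℝ 1 μ) : Lp ℝ (ENNReal.ofReal r) μ := (mz_memLp hr h).toLp _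

theorem mzU_mzT (hr : 1 ≤ r) (f : Lp ℝ (ENNReal.ofReal r) μ) : mzU hr (mzT hr f) = f := by
  refine Lp.ext ?_
  filter_upwards [(mz_memLp hr (mzT hr f)).coeFn_toLp, (mz_int hr f).coeFn_toL1] with x h1 h2
  rw [mzU, h1, mzT, h2, mz_inv_mz (by linarith)]

theorem mzT_mzU (hr : 1 ≤ r) (h : Lp ℝ 1 μ) : mzT hr (mzU hr h) = h := by
  refine Lp.ext ?_
  filter_upwards [(mz_memLp hr h).coeFn_toLp, (mz_int hr (mzU hr h)).coeFn_toL1] with x h1 h2
  rw [mzT, h2, mzU, h1, mz_mz_inv (by linarith)]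

theorem norm_sub_rpow_le (hr : 1 ≤ r) (f g : Lp ℝ (ENNReal.ofReal r) μ) :
    ‖f - g‖ ^ r ≤ 2 ^ (r - 1) * ‖mzT hr f - mzT hr g‖ := by
  rw [mzT, mzT, ← Integrable.toL1_sub, L1.norm_of_fun_eq_integral_norm, Lp_norm_rpow hr, ← integral_const_mul]
  refine integral_mono_ae (Lp_int hr (f - g)) (((mz_int hr f).sub (mz_int hr g)).norm.const_mul _) ?_
  filter_upwards [Lp.coeFn_sub f g] with x hx
  rw [hx]
  exact mz_low hr (f x) (g x)

end Lp

end Pool.Agent.Helper495.SB
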