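import Pool.Agent.Helper495.SB.L1
import Pool.Agent.Helper495.SB.Mazur

set_option autoImplicit false

/-!
Hilbert spaces.
-/

namespace Pool.Agent.Helper495.SB

open Set MeasureTheory Filter Topology Metric

section hb

variable {E F ι κ : Type*} [NormedAddCommGroup E] [InnerProductSpace ℝ E] [NormedAddCommGroup F] [InnerProductSpace ℝ F]
  [CompleteSpace E] [CompleteSpace F]

/-- Two Hilbert spaces with equipotent Hilbert bases are isometric. -/
theorem hilbert_iso (b : HilbertBasis ι ℝ E) (c : HilbertBasis κ ℝ F) (e : κ ≃ ι) : Nonempty (E ≃ₗᵢ[ℝ] F) := by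
  have hv : Orthonormal ℝ (fun k => b (e k)) := b.orthonormal.comp e e.injective
  have hr : Set.range (fun k => b (e k)) = Set.range b := by
    ext x
    constructor
    · rintro ⟨k, rfl⟩; exact ⟨e k, rfl⟩
    · rintro ⟨i, rfl⟩; exact ⟨e.symm i, by simp⟩
  let b' : HilbertBasis κ ℝ E := HilbertBasis.mk hv (by rw [hr, b.dense_span])
  exact ⟨b'.repr.trans c.repr.symm⟩

/-- Vectors of the product basis. -/
noncomputable def pv (b : HilbertBasis ι ℝ E) (c : HilbertBasis κ ℝ F) : ι ⊕ κ → WithLp 2 (E × F) :=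
  Sum.elim (fun i => WithLp.toLp 2 (b i, 0)) (fun j => WithLp.toLp 2 (0, c j))

theorem pv_orth (b : HilbertBasis ι ℝ E) (c : HilbertBasis κ ℝ F) : Orthonormal ℝ (pv b c) := by
  classical
  rw [orthonormal_iff_ite]
  have hb := orthonormal_iff_ite.mp b.orthonormal
  have hc := orthonormal_iff_ite.mp c.orthonormal
  rintro (i | i) (j | j)
  · simp [pv, WithLp.prod_inner_apply, hb i j]
  · simp [pv, WithLp.prod_inner_apply]
  · simp [pv, WithLp.prod_inner_apply]
  · simp [pv, WithLp.prod_inner_apply, hc i j]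

theorem hb_zero (b : HilbertBasis ι ℝ E) {x : E} (h : ∀ i, inner ℝ (b i) x = 0) : x = 0 := by
  have : b.repr x = 0 := by
    ext i
    rw [b.repr_apply_apply, h i]; rfl
  simpa using this

theorem pv_bot (b : HilbertBasis ι ℝ E) (c : HilbertBasis κ ℝ F) : (Submodule.span ℝ (Set.range (pv b c)))ᗮ = ⊥ := by
  rw [Submodule.eq_bot_iff]
  intro x hx
  have h : ∀ k, inner ℝ (pv b c k) x = 0 := fun k =>
    (Submodule.mem_orthogonal _ _).mp hx _ (Submodule.subset_span ⟨k, rfl⟩)
  have h1 : x.fst = 0 := hb_zero b fun i => by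
    have := h (Sum.inl i)
    simpa [pv, WithLp.prod_inner_apply] using this
  have h2 : x.snd = 0 := hb_zero c fun i => by
    have := h (Sum.inr i)
    simpa [pv, WithLp.prod_inner_apply] using this
  apply WithLp.ofLp_injective 2
  exact Prod.ext h1 h2

/-- The product basis. -/
noncomputable def pb (b : HilbertBasis ι ℝ E) (c : HilbertBasis κ ℝ F) : HilbertBasis (ι ⊕ κ) ℝ (WithLp 2 (E × F)) :=
  HilbertBasis.mkOfOrthogonalEqBot (pv_orth b c) (pv_bot b c)

theorem hb_countable [TopologicalSpace.SeparableSpace E] (b : HilbertBasis ι ℝ E) : Countable ι := by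
  have hd : ∀ i j, i ≠ j → 1 < dist (b i) (b j) := by
    intro i j hij
    have h1 : ‖b i - b j‖ ^ 2 = 2 := by
      rw [@norm_sub_sq ℝ, b.orthonormal.1 i, b.orthonormal.1 j, b.orthonormal.2 hij]
      norm_num
    rw [dist_eq_norm]
    nlinarith [norm_nonneg (b i - b j)]
  refine Pairwise.countable_of_isOpen_disjoint (s := fun i => ball (b i) (1 / 2)) ?_ (fun i => isOpen_ball)
    (fun i => ⟨b i, mem_ball_self (by norm_num)⟩)
  intro i j hij
  refine ball_disjoint_ball ?_
  have := hd i j hij
  norm_num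
  exact this.le

theorem hb_infinite (hE : ¬ FiniteDimensional ℝ E) (b : HilbertBasis ι ℝ E) : Infinite ι := by
  by_contra hcon
  rw [not_infinite_iff_finite] at hcon
  have := Fintype.ofFinite ι
  exact hE (b.toOrthonormalBasis.toBasis.finiteDimensional_of_finite)

end hb

section absorb

universe u v

theorem sum_equiv {ι : Type u} {κ : Type v} [Infinite ι] [Countable κ] : Nonempty (ι ≃ ι ⊕ κ) := by
  rw [← Cardinal.lift_mk_eq'.{u, max u v}]
  simp only [Cardinal.mk_sum, Cardinal.lift_add, Cardinal.lift_lift]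
  have h1 : Cardinal.aleph0 ≤ Cardinal.lift.{max u v} (Cardinal.mk ι) := by simp
  have h2 : Cardinal.lift.{u} (Cardinal.mk κ) ≤ Cardinal.aleph0 := by simp
  exact (Cardinal.add_eq_left h1 (h2.trans h1)).symm

/-- An infinite-dimensional Hilbert space absorbs separable ones. -/
theorem absorb_hilbert {E : Type u} {F : Type v} [NormedAddCommGroup E] [InnerProductSpace ℝ E]
    [NormedAddCommGroup F] [InnerProductSpace ℝ F] [CompleteSpace E] [CompleteSpace F]
    [TopologicalSpace.SeparableSpace F] (hE : ¬ FiniteDimensional ℝ E) : Nonempty ((E × F) ≃L[ℝ] E) := by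
  obtain ⟨w, b, _⟩ := exists_hilbertBasis ℝ E
  obtain ⟨w', c, _⟩ := exists_hilbertBasis ℝ F
  have := hb_infinite hE b
  have := hb_countable c
  obtain ⟨e⟩ := sum_equiv (ι := w) (κ := w')
  obtain ⟨f⟩ := hilbert_iso (pb b c) b e
  exact ⟨(WithLp.prodContinuousLinearEquiv 2 ℝ E F).symm.trans f.toContinuousLinearEquiv⟩

end absorb

/-- `L²[0,1]`. -/
noncomputable abbrev L2I := Lp ℝ 2 mu01

theorem L2I_infinite : ¬ FiniteDimensional ℝ L2I := by
  intro hfin
  let s : ℕ → Set ℝ := fun n => Ioc (1 / ((n : ℝ) + 2)) (1 / ((n : ℝ) + 1))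
  have hs : ∀ n, MeasurableSet (s n) := fun n => measurableSet_Ioc
  have hdisj : ∀ n m, n < m → s n ∩ s m = ∅ := by
    intro n m hnm
    rw [eq_empty_iff_forall_notMem]
    rintro x ⟨⟨h1, _⟩, ⟨_, h2⟩⟩
    have h3 : 1 / ((m : ℝ) + 1) ≤ 1 / ((n : ℝ) + 2) := by
      apply one_div_le_one_div_of_le (by positivity)
      have : (n : ℝ) + 1 ≤ m := by exact_mod_cast hnm
      linarith
    linarith
  have hpos : ∀ n, 0 < mu01.real (s n) := by
    intro n
    have hsub : s n ⊆ Ioc 0 1 := by
      intro x hx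
      refine ⟨lt_trans (by positivity) hx.1, hx.2.trans ?_⟩
      rw [div_le_one (by positivity)]
      linarith [Nat.cast_nonneg (α := ℝ) n]
    have : mu01 (s n) = volume (s n) := by
      rw [Measure.restrict_apply (hs n), inter_eq_left.mpr hsub]
    rw [Measure.real, this, Real.volume_Ioc, ENNReal.toReal_ofReal]
    · rw [sub_pos]
      apply one_div_lt_one_div_of_lt (by positivity); linarith
    · rw [sub_nonneg]
      apply one_div_le_one_div_of_le (by positivity); linarith
  let f : ℕ → L2I := fun n => indicatorConstLp 2 (hs n) (measure_ne_top _ _) (1 : ℝ)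
  have hin : ∀ n m, inner ℝ (f n) (f m) = mu01.real (s n ∩ s m) := fun n m =>
    L2.real_inner_indicatorConstLp_one_indicatorConstLp_one (hs n) (hs m) _ _
  have hli : LinearIndependent ℝ f := by
    refine linearIndependent_of_ne_zero_of_inner_eq_zero (𝕜 := ℝ) ?_ ?_
    · intro n h0
      have := hin n n
      rw [h0, inner_zero_left, inter_self] at this
      exact absurd this.symm (hpos n).ne'
    · intro n m hnm
      show inner ℝ (f n) (f m) = 0
      rw [hin]
      rcases lt_or_gt_of_ne hnm with h | h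
      · rw [hdisj n m h]; simp
      · rw [inter_comm, hdisj m n h]; simp
  have := hli.finite
  exact not_finite ℕ

end Pool.Agent.Helper495.SB
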