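import Pool.Agent.Helper495.SB.Abs
import Pool.Agent.Helper495.SB.AC

set_option autoImplicit false

/-!
`L¹[0,1]` is equivalent to the half space `{g | 0 ≤ ∫ g}`.
-/

namespace Pool.Agent.Helper495.SB

open Set MeasureTheory Filter Topology intervalIntegral

/-- Lebesgue measure on `(0,1]`. -/
noncomputable abbrev mu01 : Measure ℝ := volume.restrict (Ioc (0:ℝ) 1)

/-- `L¹[0,1]`. -/
noncomputable abbrev L1I := Lp ℝ 1 mu01

/-- A representative vanishing outside `(0,1]`. -/
noncomputable def rep (g : L1I) : ℝ → ℝ := (Ioc (0:ℝ) 1).indicator g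

theorem rep_integrable (g : L1I) : Integrable (rep g) volume :=
  (integrable_indicator_iff measurableSet_Ioc).mpr (L1.integrable_coeFn g)

theorem rep_of_mem (g : L1I) {x : ℝ} (hx : x ∈ Ioc (0:ℝ) 1) : rep g x = g x := indicator_of_mem hx _

/-- The path of `g`. -/
noncomputable def P (g : L1I) : ℝ → ℝ := prim (rep g)

theorem P_cont (g : L1I) : Continuous (P g) := prim_cont (rep_integrable g)

theorem P_zero (g : L1I) : P g 0 = 0 := prim_zero _

theorem P_eq (g : L1I) {s : ℝ} (hs0 : 0 ≤ s) (hs1 : s ≤ 1) : P g s = ∫ x in (0:ℝ)..s, g x := by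
  refine integral_congr_ae (Eventually.of_forall fun x hx => ?_)
  rw [uIoc_of_le hs0] at hx
  exact rep_of_mem g ⟨hx.1, hx.2.trans hs1⟩

theorem P_inj {g g' : L1I} (h : ∀ s, 0 ≤ s → s ≤ 1 → P g s = P g' s) : g = g' := by
  refine Lp.ext ?_
  rw [EventuallyEq, ae_restrict_iff' measurableSet_Ioc]
  have hne1 : ∀ᵐ x : ℝ, x ≠ 1 := by simp [ae_iff, measure_singleton]
  filter_upwards [LocallyIntegrable.ae_hasDerivAt_integral (rep_integrable g).locallyIntegrable,
    LocallyIntegrable.ae_hasDerivAt_integral (rep_integrable g').locallyIntegrable, hne1] with x h1 h2 h3 hx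
  have hx1 : x < 1 := lt_of_le_of_ne hx.2 h3
  have d1 : HasDerivAt (P g) (rep g x) x := h1 0
  have d2 : HasDerivAt (P g') (rep g' x) x := h2 0
  have he : P g' =ᶠ[𝓝 x] P g := by
    filter_upwards [Icc_mem_nhds hx.1 hx1] with y hy
    exact (h y hy.1 hy.2).symm
  have := d1.unique (d2.congr_of_eventuallyEq he.symm)
  rwa [rep_of_mem g hx, rep_of_mem g' hx] at this

theorem coeFn_ae {F : ℝ → ℝ} (hF : Integrable F mu01) :
    ∀ᵐ x : ℝ, x ∈ Ioc (0:ℝ) 1 → (hF.toL1 F : L1I) x = F x := by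
  have := hF.coeFn_toL1
  rwa [EventuallyEq, ae_restrict_iff' measurableSet_Ioc] at this

theorem P_toL1 {F : ℝ → ℝ} (hF : Integrable F mu01) {s : ℝ} (hs0 : 0 ≤ s) (hs1 : s ≤ 1) :
    P (hF.toL1 F) s = ∫ x in (0:ℝ)..s, F x := by
  rw [P_eq _ hs0 hs1]
  refine integral_congr_ae ?_
  filter_upwards [coeFn_ae hF] with x hx hx'
  rw [uIoc_of_le hs0] at hx'
  exact hx ⟨hx'.1, hx'.2.trans hs1⟩

theorem norm_sub_eq (g g' : L1I) : ‖g - g'‖ = ∫ x in (0:ℝ)..1, |rep g x - rep g' x| := by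
  rw [L1.norm_eq_integral_norm, integral_of_le zero_le_one]
  refine MeasureTheory.integral_congr_ae ?_
  filter_upwards [Lp.coeFn_sub g g', ae_restrict_mem measurableSet_Ioc] with x hx hx'
  rw [hx, rep_of_mem g hx', rep_of_mem g' hx']
  rfl

/-- The function whose class is the reflected density. -/
noncomputable def SF (c : ℝ) (g : L1I) (x : ℝ) : ℝ := 2 * deriv (rm c (P g)) x - rep g x

theorem deriv_rm_int (c : ℝ) (g : L1I) : IntervalIntegrable (deriv (rm c (P g))) volume 0 1 :=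
  (rm_ac (rep_integrable g) c).intervalIntegrable_deriv

theorem SF_int (c : ℝ) (g : L1I) : IntervalIntegrable (SF c g) volume 0 1 :=
  ((deriv_rm_int c g).const_mul 2).sub (rep_integrable g).intervalIntegrable

theorem SF_int' (c : ℝ) (g : L1I) : Integrable (fun x => SF c g (1 - x)) mu01 := by
  have h := (SF_int c g).comp_sub_left 1
  rw [sub_zero, sub_self] at h
  exact (intervalIntegrable_iff_integrableOn_Ioc_of_le zero_le_one).mp h.symm

/-- Reflection on `L¹`. -/
noncomputable def S (c : ℝ) (g : L1I) : L1I := (SF_int' c g).toL1 _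

theorem P_S (c : ℝ) (g : L1I) {s : ℝ} (hs0 : 0 ≤ s) (hs1 : s ≤ 1) :
    P (S c g) s = tr c (P g) s - tr c (P g) 0 := by
  have hsub : uIcc (1 - s) 1 ⊆ uIcc (0:ℝ) 1 := by
    rw [uIcc_of_le (by linarith), uIcc_of_le zero_le_one]
    exact Icc_subset_Icc_left (by linarith)
  rw [S, P_toL1 _ hs0 hs1, intervalIntegral.integral_comp_sub_left (SF c g) 1, sub_zero]
  unfold SF
  have hftc : ∫ x in (1 - s)..1, deriv (rm c (P g)) x = rm c (P g) 1 - rm c (P g) (1 - s) :=
    ((rm_ac (rep_integrable g) c).mono hsub).integral_deriv_eq_sub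
  rw [intervalIntegral.integral_sub (((deriv_rm_int c g).mono_set hsub).const_mul 2)
    (rep_integrable g).intervalIntegrable, intervalIntegral.integral_const_mul,
    hftc, ← prim_sub (rep_integrable g)]
  unfold tr
  rw [sub_zero]
  show 2 * (rm c (P g) 1 - rm c (P g) (1 - s)) - (P g 1 - P g (1 - s)) = _
  ring

theorem S_S (c : ℝ) (g : L1I) : S (rm c (P g) 1 - P g 1) (S c g) = g := by
  refine P_inj fun s hs0 hs1 => ?_
  rw [P_S _ _ hs0 hs1]
  exact tr_tr_shift (P_cont g) (P_zero g) (fun r hr hr' => P_S c g hr hr') hs0 hs1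

theorem P_smul (a : ℝ) (g : L1I) {s : ℝ} (hs0 : 0 ≤ s) (hs1 : s ≤ 1) : P (a • g) s = a * P g s := by
  rw [P_eq _ hs0 hs1, P_eq _ hs0 hs1, ← intervalIntegral.integral_const_mul]
  refine integral_congr_ae ?_
  have := Lp.coeFn_smul a g
  rw [EventuallyEq, ae_restrict_iff' measurableSet_Ioc] at this
  filter_upwards [this] with x hx hx'
  rw [uIoc_of_le hs0] at hx'
  rw [hx ⟨hx'.1, hx'.2.trans hs1⟩]
  rfl

theorem S_smul {a : ℝ} (ha : 0 ≤ a) (c : ℝ) (g : L1I) : S (a * c) (a • g) = a • S c g := by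
  refine P_inj fun s hs0 hs1 => ?_
  have h1 : ∀ s, 0 ≤ s → s ≤ 1 → tr (a * c) (P (a • g)) s = a * tr c (P g) s := fun s hs hs' => by
    rw [tr_congr (fun r hr hr' => P_smul a g hr hr') _ hs hs', tr_smul ha (P_cont g) c hs hs']
  rw [P_S _ _ hs0 hs1, P_smul _ _ hs0 hs1, P_S _ _ hs0 hs1, h1 s hs0 hs1, h1 0 le_rfl zero_le_one]
  ring

theorem norm_S_sub {c c' : ℝ} (hc : 0 ≤ c) (hc' : 0 ≤ c') (g g' : L1I) :
    ‖S c g - S c' g'‖ ≤ 3 * ‖g - g'‖ + 2 * |c - c'| := by
  have h1 : S c g - S c' g' = ((SF_int' c g).sub (SF_int' c' g')).toL1 _ := by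
    rw [S, S, ← Integrable.toL1_sub]
  rw [h1, L1.norm_of_fun_eq_integral_norm, ← integral_of_le zero_le_one]
  have h2 : ∫ x in (0:ℝ)..1, ‖((fun x => SF c g (1 - x)) - fun x => SF c' g' (1 - x)) x‖ =
      ∫ x in (0:ℝ)..1, |SF c g x - SF c' g' x| := by
    have := intervalIntegral.integral_comp_sub_left (a := 0) (b := 1) (fun x => |SF c g x - SF c' g' x|) 1
    rw [sub_zero, sub_self] at this
    exact this
  rw [h2]
  have i1 : IntervalIntegrable (fun x => |deriv (rm c (P g)) x - deriv (rm c' (P g')) x|) volume 0 1 :=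
    ((deriv_rm_int c g).sub (deriv_rm_int c' g')).abs
  have i2 : IntervalIntegrable (fun x => |rep g x - rep g' x|) volume 0 1 :=
    ((rep_integrable g).sub (rep_integrable g')).abs.intervalIntegrable
  have h3 : ∫ x in (0:ℝ)..1, |SF c g x - SF c' g' x| ≤
      ∫ x in (0:ℝ)..1, (2 * |deriv (rm c (P g)) x - deriv (rm c' (P g')) x| + |rep g x - rep g' x|) := by
    refine integral_mono_on zero_le_one ((SF_int c g).sub (SF_int c' g')).abs ((i1.const_mul 2).add i2) fun x _ => ?_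
    unfold SF
    have : 2 * deriv (rm c (P g)) x - rep g x - (2 * deriv (rm c' (P g')) x - rep g' x) =
      2 * (deriv (rm c (P g)) x - deriv (rm c' (P g')) x) - (rep g x - rep g' x) := by ring
    rw [this]
    refine (abs_sub _ _).trans ?_
    rw [abs_mul, abs_two]
  rw [intervalIntegral.integral_add (i1.const_mul 2) i2, intervalIntegral.integral_const_mul] at h3
  have h4 := int_deriv_rm_sub (rep_integrable g) (rep_integrable g') hc hc'
  rw [norm_sub_eq]
  have h5 : ∫ x in (0:ℝ)..1, |deriv (rm c (P g)) x - deriv (rm c' (P g')) x| ≤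
      (∫ x in (0:ℝ)..1, |rep g x - rep g' x|) + |c - c'| := h4
  linarith

theorem abs_P_sub (g g' : L1I) {s : ℝ} (hs0 : 0 ≤ s) (hs1 : s ≤ 1) : |P g s - P g' s| ≤ ‖g - g'‖ := by
  have hd : Integrable (fun x => rep g x - rep g' x) volume := (rep_integrable g).sub (rep_integrable g')
  have h1 : P g s - P g' s = ∫ x in (0:ℝ)..s, (rep g x - rep g' x) := by
    rw [intervalIntegral.integral_sub (rep_integrable g).intervalIntegrable (rep_integrable g').intervalIntegrable]
    rfl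
  rw [h1, norm_sub_eq]
  exact (abs_integral_le_integral_abs hs0).trans (int_mono hd.abs (fun _ => abs_nonneg _) hs0 hs1)

/-- The maximum of the path. -/
noncomputable def mxP (g : L1I) : ℝ := rm 0 (P g) 1

theorem mxP_nonneg (g : L1I) : 0 ≤ mxP g := le_rm_left _ _ _

theorem P_one_le (g : L1I) : P g 1 ≤ mxP g := le_rm (P_cont g) le_rfl zero_le_one le_rfl

theorem rm_eq_mxP (g : L1I) {c : ℝ} (h0 : 0 ≤ c) (h1 : c ≤ mxP g) : rm c (P g) 1 = mxP g := by
  refine rm_eq_of (P_cont g) zero_le_one le_rfl h1 (fun s hs hs' => le_rm (P_cont g) le_rfl hs hs') ?_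
  rcases rm_attained (c := 0) (P_cont g) zero_le_one with h | h
  · left
    have h' : mxP g = 0 := h
    exact le_antisymm (h'.trans_le h0) h1
  · right; exact h

/-- Forward map. -/
noncomputable def Fw1 (g : L1I) : L1I := S (P g 1) g

/-- Backward map. -/
noncomputable def Bw1 (g : L1I) : L1I := S (mxP g / 2) g

theorem P_Bw1_one (g : L1I) : P (Bw1 g) 1 = mxP g - P g 1 := by
  have h0 := mxP_nonneg g
  rw [Bw1, P_S _ _ zero_le_one le_rfl]
  unfold tr
  rw [sub_self, sub_zero, rm_zero (by rw [P_zero]; linarith) (P_cont g), rm_eq_mxP g (by linarith) (by linarith), P_zero]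
  ring

theorem Fw1_Bw1 (g : L1I) : Fw1 (Bw1 g) = g := by
  have h0 := mxP_nonneg g
  have h1 := S_S (mxP g / 2) g
  rw [rm_eq_mxP g (by linarith) (by linarith)] at h1
  rw [Fw1, P_Bw1_one]
  exact h1

theorem mxP_Fw1 {g : L1I} (hg : 0 ≤ P g 1) : mxP (Fw1 g) = 2 * (rm (P g 1) (P g) 1 - P g 1) := by
  have hv := P_cont g
  have hp0 : rm (P g 1) (P g) 0 = P g 1 := rm_zero (by rw [P_zero]; exact hg) hv
  have hge1 : P g 1 ≤ rm (P g 1) (P g) 1 := le_rm_left _ _ _
  refine rm_eq_of (P_cont _) zero_le_one le_rfl (by linarith) (fun s hs hs' => ?_) ?_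
  · rw [Fw1, P_S _ _ hs hs']
    unfold tr
    rw [sub_zero]
    have h1 := le_rm (c := P g 1) hv (by linarith : 1 - s ≤ 1) (by linarith) le_rfl
    have h2 := le_rm_left (P g 1) (P g) (1 - s)
    linarith
  · rcases refl_att (c := P g 1) hv le_rfl zero_le_one with h | ⟨s, hs, hs', h⟩
    · left
      rw [← h, hp0]; ring
    · right
      refine ⟨1 - s, by linarith, by linarith, ?_⟩
      rw [Fw1, P_S _ _ (by linarith) (by linarith)]
      unfold tr
      rw [sub_sub_cancel, sub_zero, h, hp0]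
      ring

theorem Bw1_Fw1 {g : L1I} (hg : 0 ≤ P g 1) : Bw1 (Fw1 g) = g := by
  have h1 : mxP (Fw1 g) / 2 = rm (P g 1) (P g) 1 - P g 1 := by rw [mxP_Fw1 hg]; ring
  rw [Bw1, h1, Fw1, S_S]

theorem mxP_smul {a : ℝ} (ha : 0 ≤ a) (g : L1I) : mxP (a • g) = a * mxP g := by
  rw [mxP, mxP, ← rm_smul ha (P_cont g) 0 zero_le_one le_rfl, mul_zero]
  exact rm_congr (fun s hs hs' => P_smul a g hs hs') 0 zero_le_one

theorem abs_mxP_sub (g g' : L1I) : |mxP g - mxP g'| ≤ ‖g - g'‖ :=
  rm_sub_le (P_cont g) (P_cont g') (fun _ hs hs' => abs_P_sub g g' hs hs') (by simp) zero_le_one le_rfl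

theorem half_L1 : SEq (univ : Set L1I) {g : L1I | 0 ≤ P g 1} := by
  have hC : IsCone {g : L1I | 0 ≤ P g 1} := fun u hu t ht => by
    show 0 ≤ P (t • u) 1
    rw [P_smul _ _ zero_le_one le_rfl]
    exact mul_nonneg ht hu
  refine (SEq.of_hom hC isCone_univ Fw1 Bw1 (fun _ _ => mem_univ _) (fun h _ => ?_) (fun u hu => Bw1_Fw1 hu)
    (fun h _ => Fw1_Bw1 h) ?_ ?_ (L := 5) ?_ ?_ ?_ (mem_univ _)).symm
  · show 0 ≤ P (Bw1 h) 1
    rw [P_Bw1_one]
    have := P_one_le h
    linarith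
  · intro u _ t ht
    rw [Fw1, Fw1, P_smul _ _ zero_le_one le_rfl, S_smul ht]
  · intro u _ t ht
    rw [Bw1, Bw1, mxP_smul ht, mul_div_assoc, S_smul ht]
  · intro u hu u' hu'
    refine (norm_S_sub hu hu' u u').trans ?_
    have := abs_P_sub u u' zero_le_one le_rfl
    linarith
  · intro u _ u' _
    have h0 := mxP_nonneg u
    have h0' := mxP_nonneg u'
    refine (norm_S_sub (by linarith) (by linarith) u u').trans ?_
    have := abs_mxP_sub u u'
    have h2 : |mxP u / 2 - mxP u' / 2| = |mxP u - mxP u'| / 2 := by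
      rw [← sub_div, abs_div, abs_two]
    rw [h2]
    have := norm_nonneg (u - u')
    linarith
  · show 0 ≤ P (0 : L1I) 1
    have := P_smul 0 (0 : L1I) zero_le_one le_rfl
    rw [zero_smul, zero_mul] at this
    rw [this]

end Pool.Agent.Helper495.SB
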